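import Mathlib

/-!
# Places at infinity

Two sources of valuation subrings used in the finiteness theorem for Weyl-Heisenberg
covariant maximal equiangular tight frames.
-/

namespace Pool.Agent.SicFin

open Polynomial

/-- An element of a field that is not integral over the image of another field is missed by
some valuation subring containing that image. -/
theorem exists_place_of_not_integral {F K : Type*} [Field F] [Field K] (f : F →+* K) {t : K}
    (ht : ¬ f.IsIntegralElem t) :
    ∃ V : ValuationSubring K, (∀ c : F, f c ∈ V) ∧ t ∉ V := by
  by_contra hcon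
  push Not at hcon
  apply ht
  have h1 : t ∈ (⨅ V : {V : ValuationSubring K // (f.range : Set K) ⊆ V.toSubring},
      V.1.toSubring) := by
    rw [Subring.mem_iInf]
    rintro ⟨V, hV⟩
    exact hcon V (fun c => hV ⟨c, rfl⟩)
  rw [iInf_valuationSubring_superset] at h1
  have h2 : IsIntegral (Subring.closure (f.range : Set K)) t := h1
  obtain ⟨q, hq, hqt⟩ := h2
  have hcl : Subring.closure (f.range : Set K) = f.range := Subring.closure_eq _
  -- lift the polynomial to F
  have hsub : ∀ x : Subring.closure (f.range : Set K), ∃ c : F, f c = x := by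
    intro x
    have hx : (x : K) ∈ f.range := hcl.le x.2
    obtain ⟨c, hc⟩ := hx
    exact ⟨c, hc⟩
  have hlift : ∀ g : (Subring.closure (f.range : Set K))[X], g.Monic →
      ∃ h : F[X], h.Monic ∧ h.map f = g.map (Subring.closure (f.range : Set K)).subtype := by
    intro g hg
    have hmem : g.map (Subring.closure (f.range : Set K)).subtype ∈ lifts f := by
      rw [lifts_iff_coeff_lifts]
      intro n
      rw [coeff_map]
      obtain ⟨c, hc⟩ := hsub (g.coeff n)
      exact ⟨c, hc⟩
    obtain ⟨h, hh, -, hm⟩ := lifts_and_natDegree_eq_and_monic hmem (hg.map _)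
    exact ⟨h, hm, hh⟩
  obtain ⟨h, hm, hh⟩ := hlift q hq
  refine ⟨h, hm, ?_⟩
  rw [← eval_map, hh, eval_map]
  exact hqt

/-- The field of germs of complex sequences along a nonprincipal ultrafilter. -/
abbrev GermField : Type := Filter.Germ (Filter.hyperfilter ℕ : Filter ℕ) ℂ

/-- The constant germs. -/
noncomputable def constGerm : ℂ →+* GermField where
  toFun c := (c : GermField)
  map_one' := rfl
  map_mul' _ _ := rfl
  map_zero' := rfl
  map_add' _ _ := rfl

/-- The germ of an injective sequence is not integral over the constants. -/
theorem germ_not_integral {z : ℕ → ℂ} (hz : Function.Injective z) :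
    ¬ constGerm.IsIntegralElem ((z : GermField)) := by
  rintro ⟨q, hq, hqt⟩
  have key : ∀ q : ℂ[X], q.eval₂ constGerm ((z : GermField)) =
      ((fun n => q.eval (z n) : ℕ → ℂ) : GermField) := by
    intro q
    induction q using Polynomial.induction_on' with
    | add a b ha hb =>
      rw [eval₂_add, ha, hb]
      simp only [eval_add]
      rfl
    | monomial n a =>
      rw [eval₂_monomial]
      simp only [eval_monomial]
      rfl
  rw [key q] at hqt
  have h0 : (fun n => q.eval (z n)) =ᶠ[(Filter.hyperfilter ℕ : Filter ℕ)] fun _ => (0 : ℂ) :=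
    Filter.Germ.coe_eq.mp hqt
  have hfin : {n : ℕ | q.eval (z n) = 0}.Finite := by
    have hroots : {x : ℂ | q.eval x = 0}.Finite := by
      have := q.rootSet_finite ℂ
      refine this.subset ?_
      intro x hx
      rw [mem_rootSet]
      refine ⟨hq.ne_zero, ?_⟩
      simpa [aeval_def] using hx
    exact hroots.preimage hz.injOn
  have hnot := Filter.notMem_hyperfilter_of_finite hfin
  exact hnot h0

end Pool.Agent.SicFin
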