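import Pool.Agent.Lib.MP_d0f9e0_co.Fin.Main

/-!
# Reindexing and the final list of fiducial vectors
-/

set_option autoImplicit false

namespace Pool.Agent.SicFin

open Matrix Pool.Agent.Lib.MP_d0f9e0_co ComplexConjugate

variable {p : ℕ} [hp : Fact p.Prime]

/-- Finitely many algebraic fiducial vectors represent all of them. -/
theorem exists_fid_list {om : ℂ} (hfin : (fidSet p om).Finite)
    (halg : ∀ P ∈ fidSet p om, ∀ r s, IsAlgebraic ℚ (P r s)) :
    ∃ F : Set (ZMod p → ℂ), F.Finite ∧ (∀ φ ∈ F, IsFid om φ ∧ ∀ k, IsAlgebraic ℚ (φ k)) ∧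
      ∀ ψ, IsFid om ψ → ∃ φ ∈ F, ∃ c : ℂ, ψ = c • φ := by
  classical
  have hrep : ∀ P : fidSet p om, ∃ ψ : ZMod p → ℂ, IsFid om ψ ∧ (∀ r, IsAlgebraic ℚ (ψ r)) ∧
      P.1 = Matrix.vecMulVec ψ (fun r => conj (ψ r)) := fun P => exists_alg_rep P.2 (halg P.1 P.2)
  choose rep hrep1 hrep2 hrep3 using hrep
  have hfinite : Finite (fidSet p om) := hfin
  refine ⟨Set.range rep, Set.finite_range rep, ?_, ?_⟩
  · rintro φ ⟨P, rfl⟩
    exact ⟨hrep1 P, hrep2 P⟩
  · intro ψ hψ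
    set P : fidSet p om := ⟨Matrix.vecMulVec ψ (fun r => conj (ψ r)), ψ, hψ, rfl⟩ with hP
    refine ⟨rep P, ⟨P, rfl⟩, ?_⟩
    exact eq_smul_of_vecMulVec (hrep3 P) (by
      rw [← ov_zero_eq (om := om)]; exact hψ.1)

/-- The structure theorem, for frames indexed by an arbitrary type with vectors in `ZMod p → ℂ`. -/
theorem exists_form_reindexed {om : ℂ} (hom : IsPrimitiveRoot om p) {ι : Type}
    (hι : Nat.card ι = p ^ 2) {x : ι → (ZMod p → ℂ)} (h1 : ∀ i, ipz (x i) (x i) = 1)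
    (h2 : ∀ i j, i ≠ j → ‖ipz (x i) (x j)‖ = 1 / Real.sqrt ((p : ℝ) + 1))
    (htr : ∀ i j, ∃ U ∈ Matrix.unitaryGroup (ZMod p) ℂ,
      (∀ k, ∃ l, ∃ c : ℂ, U.mulVec (x k) = c • x l) ∧ ∃ c : ℂ, U.mulVec (x i) = c • x j) :
    ∃ ψ : ZMod p → ℂ, IsFid om ψ ∧ ∃ e : ι ≃ ZMod p × ZMod p,
      ∃ W ∈ Matrix.unitaryGroup (ZMod p) ℂ, ∀ i, ∃ c : ℂ,
        W.mulVec (x i) = c • wh om (e i).1 (e i).2 ψ := by
  have hpos : 0 < p ^ 2 := by have := hp.out.pos; positivity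
  have hfinι : Finite ι := Nat.finite_of_card_ne_zero (by rw [hι]; exact hpos.ne')
  have ε : Fin (p ^ 2) ≃ ι := (Finite.equivFinOfCardEq hι).symm
  have τ : Fin p ≃ ZMod p := (ZMod.finEquiv p).toEquiv
  set x' : Fin (p ^ 2) → (Fin p → ℂ) := fun i k => x (ε i) (τ k) with hx'
  have hip : ∀ i j, ip (x' i) (x' j) = ipz (x (ε i)) (x (ε j)) := by
    intro i j
    unfold ip ipz
    exact Fintype.sum_equiv τ _ _ fun k => rfl
  have hetf : IsMaximalETF p x' := by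
    refine ⟨fun i => ?_, fun i j hij => ?_⟩
    · rw [hip]; exact h1 _
    · rw [hip]; exact h2 _ _ (fun h => hij (ε.injective h))
  have hmv : ∀ (U : Matrix (ZMod p) (ZMod p) ℂ) (v : ZMod p → ℂ),
      (U.submatrix τ τ).mulVec (fun k => v (τ k)) = fun k => U.mulVec v (τ k) := by
    intro U v
    funext k
    simp only [Matrix.mulVec, dotProduct, Matrix.submatrix_apply]
    exact Fintype.sum_equiv τ _ _ fun k => rfl
  have hsub : ∀ U ∈ Matrix.unitaryGroup (ZMod p) ℂ,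
      U.submatrix τ τ ∈ Matrix.unitaryGroup (Fin p) ℂ := by
    intro U hU
    rw [Matrix.mem_unitaryGroup_iff] at hU ⊢
    have e1 : star (U.submatrix τ τ) = (star U).submatrix τ τ := rfl
    have e2 := Matrix.submatrix_mul_equiv U (star U) (τ : Fin p → ZMod p) τ (τ : Fin p → ZMod p)
    rw [e1]
    refine e2.trans ?_
    rw [hU]
    exact Matrix.submatrix_one_equiv τ
  have htr' : ∀ i j, ∃ U, IsSymmetry x' U ∧ ∃ c : ℂ, U.mulVec (x' i) = c • x' j := by
    intro i j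
    obtain ⟨U, hU, hperm, c, hc⟩ := htr (ε i) (ε j)
    refine ⟨U.submatrix τ τ, ⟨hsub U hU, fun k => ?_⟩, c, ?_⟩
    · obtain ⟨l, c', hc'⟩ := hperm (ε k)
      refine ⟨ε.symm l, c', ?_⟩
      rw [hx']
      simp only [Equiv.apply_symm_apply]
      rw [hmv, hc']
      rfl
    · rw [hx']
      simp only
      rw [hmv, hc]
      rfl
  obtain ⟨W, ψ, e, hW1, hW2, hW⟩ := exists_wh_form hom hetf htr'
  obtain ⟨ψ', hψ', hc⟩ := isFid_of_form hom.pow_eq_one hetf hW2 e hW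
  refine ⟨ψ', hψ', ε.symm.trans e, W.submatrix id τ.symm, ?_, fun i => ?_⟩
  · rw [Matrix.mem_unitaryGroup_iff]
    have e1 : star (W.submatrix id τ.symm) = Wᴴ.submatrix τ.symm id := rfl
    have e2 := Matrix.submatrix_mul_equiv W Wᴴ (id : ZMod p → ZMod p) τ.symm
      (id : ZMod p → ZMod p)
    rw [e1]
    refine e2.trans ?_
    rw [hW1]
    exact Matrix.submatrix_one id Function.injective_id
  · obtain ⟨c, -, hc2⟩ := hc (ε.symm i)
    refine ⟨c, ?_⟩
    rw [Equiv.trans_apply, ← hc2]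
    funext k
    simp only [Matrix.mulVec, dotProduct, Matrix.submatrix_apply, id]
    refine Fintype.sum_equiv τ.symm _ _ fun m => ?_
    simp [hx']

end Pool.Agent.SicFin
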