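import Pool.Agent.Lib.MP_d0f9e0_co.Fin.Defs

/-!
# Characters, Fourier inversion and Clifford moves
-/

namespace Pool.Agent.SicFin

open Finset

variable {K : Type*} [Field K] {p : ℕ} [Fact p.Prime]

theorem chi_eq {om : K} (hom : om ^ p = 1) (x : ZMod p) :
    chi om x = AddChar.zmodChar p hom x := rfl

theorem chi_zero (om : K) : chi om (0 : ZMod p) = 1 := by simp [chi]

theorem chi_add {om : K} (hom : om ^ p = 1) (x y : ZMod p) :
    chi om (x + y) = chi om x * chi om y := by
  simp only [chi_eq hom, AddChar.map_add_eq_mul]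

theorem chi_ne_zero {om : K} (hom : om ^ p = 1) (x : ZMod p) : chi om x ≠ 0 := by
  have h0 : om ≠ 0 := by
    rintro rfl
    rw [zero_pow (Nat.Prime.ne_zero Fact.out)] at hom
    exact zero_ne_one hom
  exact pow_ne_zero _ h0

omit [Fact p.Prime] in
theorem chi_pow {om : K} (hom : om ^ p = 1) (x : ZMod p) : chi om x ^ p = 1 := by
  unfold chi
  rw [← pow_mul, mul_comm, pow_mul, hom, one_pow]

theorem sum_chi {om : K} (hom : IsPrimitiveRoot om p) (x : ZMod p) :
    ∑ b : ZMod p, chi om (b * x) = if x = 0 then (p : K) else 0 := by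
  have h := AddChar.sum_mulShift (R := ZMod p) (R' := K) x
    (AddChar.zmodChar_primitive_of_primitive_root p hom)
  rw [ZMod.card] at h
  simpa [chi_eq hom.pow_eq_one] using h

/-- Fourier inversion. -/
theorem ft_inv {om : K} (hom : IsPrimitiveRoot om p) (x : ZMod p → K) (r : ZMod p) :
    ∑ b, ft om x b * chi om (-(b * r)) = p * x r := by
  unfold ft
  simp_rw [Finset.sum_mul]
  rw [Finset.sum_comm]
  have h1 : ∀ s : ZMod p, ∑ b : ZMod p, x s * chi om (b * s) * chi om (-(b * r)) =
      x s * if s - r = 0 then (p : K) else 0 := by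
    intro s
    rw [← sum_chi hom, Finset.mul_sum]
    refine Finset.sum_congr rfl fun b _ => ?_
    rw [mul_assoc, ← chi_add hom.pow_eq_one]
    congr 2; ring
  simp_rw [h1]
  rw [Finset.sum_eq_single r]
  · simp [mul_comm]
  · intro s _ hs
    rw [if_neg (sub_ne_zero.mpr hs), mul_zero]
  · simp

theorem ft_mul (om c : K) (x : ZMod p → K) (b : ZMod p) :
    ft om (fun r => c * x r) b = c * ft om x b := by
  unfold ft
  rw [Finset.mul_sum]
  exact Finset.sum_congr rfl fun r _ => by ring

theorem ft_div (om c : K) (x : ZMod p → K) (b : ZMod p) :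
    ft om (fun r => x r / c) b = ft om x b / c := by
  simp only [div_eq_inv_mul]
  exact ft_mul om c⁻¹ x b

/-- The correlation identity. -/
theorem sum_ft_mul_ft {om : K} (hom : IsPrimitiveRoot om p) (x y : ZMod p → K) (d : ZMod p) :
    ∑ b, ft om x b * ft om y (-b) * chi om (b * d) = p * ∑ r, x r * y (r + d) := by
  have h2 : ∀ b : ZMod p, ft om x b * ft om y (-b) * chi om (b * d) =
      ∑ r, ∑ s, x r * y s * chi om (b * (r + d - s)) := by
    intro b
    unfold ft
    rw [Finset.sum_mul_sum, Finset.sum_mul]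
    refine Finset.sum_congr rfl fun r _ => ?_
    rw [Finset.sum_mul]
    refine Finset.sum_congr rfl fun s _ => ?_
    have : chi om (b * (r + d - s)) = chi om (b * r) * chi om (-b * s) * chi om (b * d) := by
      rw [← chi_add hom.pow_eq_one, ← chi_add hom.pow_eq_one]
      congr 1; ring
    rw [this]; ring
  simp_rw [h2]
  rw [Finset.sum_comm, Finset.mul_sum]
  refine Finset.sum_congr rfl fun r _ => ?_
  rw [Finset.sum_comm]
  have h1 : ∀ s : ZMod p, ∑ b : ZMod p, x r * y s * chi om (b * (r + d - s)) =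
      x r * y s * if r + d - s = 0 then (p : K) else 0 := by
    intro s
    rw [← sum_chi hom, Finset.mul_sum]
  simp_rw [h1]
  rw [Finset.sum_eq_single (r + d)]
  · simp; ring
  · intro s _ hs
    rw [if_neg (sub_ne_zero.mpr (Ne.symm hs)), mul_zero]
  · simp

/-- The first Clifford move (chirp). -/
theorem ov_chirp {om : K} (hom : om ^ p = 1) (f g : ZMod p → K) (d a b : ZMod p) :
    ov om (fun r => f r * chi om (d * r ^ 2)) (fun r => g r * chi om (-(d * r ^ 2))) a b =
      chi om (-(d * a ^ 2)) * ov om f g a (b - 2 * d * a) := by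
  unfold ov ft
  rw [Finset.mul_sum]
  refine Finset.sum_congr rfl fun r _ => ?_
  have h1 : chi om (d * r ^ 2) * chi om (-(d * (r + a) ^ 2)) * chi om (b * r) =
      chi om (-(d * a ^ 2)) * chi om ((b - 2 * d * a) * r) := by
    rw [← chi_add hom, ← chi_add hom, ← chi_add hom]
    congr 1; ring
  linear_combination (f r * g (r + a)) * h1

theorem isSol_chirp {om : K} (hom : om ^ p = 1) {f g : ZMod p → K} (h : IsSol om f g)
    (d : ZMod p) :
    IsSol om (fun r => f r * chi om (d * r ^ 2)) (fun r => g r * chi om (-(d * r ^ 2))) := by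
  refine ⟨?_, ?_⟩
  · rw [ov_chirp hom]
    simpa [chi_zero] using h.1
  · intro a b hab
    rw [ov_chirp hom, ov_chirp hom]
    have hab' : a ≠ 0 ∨ b - 2 * d * a ≠ 0 := by
      by_cases ha : a = 0
      · right; subst ha
        rcases hab with h | h
        · exact absurd rfl h
        · simpa using h
      · exact Or.inl ha
    have e1 := h.2 a (b - 2 * d * a) hab'
    have e2 : -b - 2 * d * -a = -(b - 2 * d * a) := by ring
    rw [e2]
    have e3 : chi om (-(d * a ^ 2)) * chi om (-(d * (-a) ^ 2)) *
        chi om (-(a * (b - 2 * d * a))) = chi om (-(a * b)) := by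
      rw [← chi_add hom, ← chi_add hom]
      congr 1; ring
    calc _ = chi om (-(d * a ^ 2)) * chi om (-(d * (-a) ^ 2)) *
          (ov om f g a (b - 2 * d * a) * ov om f g (-a) (-(b - 2 * d * a))) := by ring
      _ = _ := by rw [e1, ← mul_div_assoc, e3]

/-- The second Clifford move (Fourier transform). -/
theorem ov_fourier {om : K} (hom : IsPrimitiveRoot om p) (hp : (p : K) ≠ 0)
    (f g : ZMod p → K) (a b : ZMod p) :
    ov om (ft om f) (fun y => (p : K)⁻¹ * ft om g (-y)) a b =
      chi om (-(a * b)) * ov om f g b (-a) := by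
  have h1 : ∀ y : ZMod p, ft om f y * ((p : K)⁻¹ * ft om g (-(y + a))) * chi om (b * y) =
      (p : K)⁻¹ * ∑ r, ∑ s, (f r * g s * chi om (-(a * s))) * chi om (y * (r + b - s)) := by
    intro y
    have h0 : ft om f y * ((p : K)⁻¹ * ft om g (-(y + a))) * chi om (b * y) =
      (p : K)⁻¹ * (ft om f y * ft om g (-(y + a)) * chi om (b * y)) := by ring
    rw [h0]
    congr 1
    unfold ft
    rw [Finset.sum_mul_sum, Finset.sum_mul]
    refine Finset.sum_congr rfl fun r _ => ?_
    rw [Finset.sum_mul]
    refine Finset.sum_congr rfl fun s _ => ?_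
    have e : chi om (y * r) * chi om (-(y + a) * s) * chi om (b * y) =
        chi om (-(a * s)) * chi om (y * (r + b - s)) := by
      rw [← chi_add hom.pow_eq_one, ← chi_add hom.pow_eq_one, ← chi_add hom.pow_eq_one]
      congr 1; ring
    linear_combination (f r * g s) * e
  have h2 : ov om (ft om f) (fun y => (p : K)⁻¹ * ft om g (-y)) a b =
      ∑ y : ZMod p, ft om f y * ((p : K)⁻¹ * ft om g (-(y + a))) * chi om (b * y) := rfl
  rw [h2]
  simp_rw [h1]
  rw [← Finset.mul_sum, Finset.sum_comm]
  unfold ov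
  conv_rhs => unfold ft
  rw [Finset.mul_sum, Finset.mul_sum]
  refine Finset.sum_congr rfl fun r _ => ?_
  rw [Finset.sum_comm]
  have h3 : ∀ s : ZMod p, ∑ y : ZMod p,
      (f r * g s * chi om (-(a * s))) * chi om (y * (r + b - s)) =
      (f r * g s * chi om (-(a * s))) * if r + b - s = 0 then (p : K) else 0 := by
    intro s
    rw [← sum_chi hom, Finset.mul_sum]
  simp_rw [h3]
  rw [Finset.sum_eq_single (r + b)]
  · have e : chi om (-(a * (r + b))) = chi om (-(a * b)) * chi om (-a * r) := by
      rw [← chi_add hom.pow_eq_one]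
      congr 1; ring
    rw [e]
    simp only [sub_self, if_true]
    field_simp
  · intro s _ hs
    rw [if_neg (sub_ne_zero.mpr (Ne.symm hs)), mul_zero]
  · simp

theorem isSol_fourier {om : K} (hom : IsPrimitiveRoot om p) (hp : (p : K) ≠ 0)
    {f g : ZMod p → K} (h : IsSol om f g) :
    IsSol om (ft om f) (fun y => (p : K)⁻¹ * ft om g (-y)) := by
  have hom' := hom.pow_eq_one
  refine ⟨?_, ?_⟩
  · rw [ov_fourier hom hp]
    simpa [chi_zero] using h.1
  · intro a b hab
    rw [ov_fourier hom hp, ov_fourier hom hp]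
    have hab' : b ≠ 0 ∨ -a ≠ 0 := by
      rcases hab with h | h
      · right; simpa using h
      · exact Or.inl h
    have e1 := h.2 b (-a) hab'
    have e3 : chi om (-(a * b)) * chi om (-(-a * -b)) *
        chi om (-(b * -a)) = chi om (-(a * b)) := by
      rw [← chi_add hom', ← chi_add hom']
      congr 1; ring
    calc _ = chi om (-(a * b)) * chi om (-(-a * -b)) *
          (ov om f g b (-a) * ov om f g (-b) (- -a)) := by ring
      _ = _ := by rw [e1, ← mul_div_assoc, e3]

/-- Rank one reconstruction: if all overlaps vanish then `f` or `g` vanishes. -/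
theorem exists_ov_ne_zero {om : K} (hom : IsPrimitiveRoot om p) (hp : (p : K) ≠ 0)
    {f g : ZMod p → K} (hf : f ≠ 0) (hg : g ≠ 0) : ∃ a b, ov om f g a b ≠ 0 := by
  by_contra hcon
  push Not at hcon
  obtain ⟨r, hr⟩ := Function.ne_iff.mp hf
  obtain ⟨s, hs⟩ := Function.ne_iff.mp hg
  have h1 := ft_inv hom (fun t => f t * g (t + (s - r))) r
  have h2 : ∀ b, ft om (fun t => f t * g (t + (s - r))) b = 0 := fun b => hcon (s - r) b
  simp only [h2, zero_mul, Finset.sum_const_zero, add_sub_cancel] at h1
  exact mul_ne_zero hp (mul_ne_zero hr hs) h1.symm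

end Pool.Agent.SicFin
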