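import Mathlib

/-!
# Functions on the plane over the prime field with few translates

Let `k` be a field of characteristic `p` and `P` a function on `(ZMod p) ^ 2` with values in `k`
whose translates span a space of dimension at most `p`. If `P q * P (-q) = 0` for all `q`, then
`P = 0` or `P` is invariant under a translation by a nonzero vector.
-/

set_option autoImplicit false

namespace Pool.Agent.SicFin

open Finset

namespace CP

variable {k : Type*} [Field k] {p : ℕ} [Fact p.Prime] [CharP k p]

/-- The linear form `a x + b y` on `(ZMod p) ^ 2`. -/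
def lin (a b : k) (q : ZMod p × ZMod p) : k :=
  a * ZMod.castHom (dvd_refl p) k q.1 + b * ZMod.castHom (dvd_refl p) k q.2

theorem lin_add (a b : k) (q r : ZMod p × ZMod p) : lin a b (q + r) = lin a b q + lin a b r := by
  simp only [lin, Prod.fst_add, Prod.snd_add, map_add]; ring

theorem lin_neg (a b : k) (q : ZMod p × ZMod p) : lin a b (-q) = -lin a b q := by
  simp only [lin, Prod.fst_neg, Prod.snd_neg, map_neg]; ring

theorem lin_pow (a b : k) (q : ZMod p × ZMod p) :
    lin a b q ^ p = lin (a ^ p) (b ^ p) q := by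
  simp only [lin]
  rw [add_pow_char, mul_pow, mul_pow, ← map_pow, ← map_pow, ZMod.pow_card, ZMod.pow_card]

/-- The monomial functions. -/
def e (a b c d : k) (i j : ℕ) : ZMod p × ZMod p → k := fun q => lin a b q ^ i * lin c d q ^ j

theorem e_mul (a b c d : k) (i j i' j' : ℕ) :
    (e a b c d i j : ZMod p × ZMod p → k) * e a b c d i' j' = e a b c d (i + i') (j + j') := by
  funext q
  simp only [e, Pi.mul_apply, pow_add]; ring

/-- The weight filtration. -/
def Fil (p : ℕ) [Fact p.Prime] [CharP k p] (a b c d : k) (A B s : ℕ) :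
    Submodule k (ZMod p × ZMod p → k) :=
  Submodule.span k {F | ∃ i j, i < p ∧ j < p ∧ A * i + B * j < s ∧ F = e a b c d i j}

theorem Fil_mono {a b c d : k} {A B s t : ℕ} (h : s ≤ t) :
    Fil p a b c d A B s ≤ Fil p a b c d A B t := by
  apply Submodule.span_mono
  rintro F ⟨i, j, hi, hj, hw, rfl⟩
  exact ⟨i, j, hi, hj, by omega, rfl⟩

theorem e_mem {a b c d : k} (hdet : a * d - b * c ≠ 0) {A B : ℕ} (hA : 0 < A) (hB : 0 < B)
    (hAB : A < p * B) (hBA : B < p * A) (w : ℕ) : ∀ i j s, A * i + B * j = w → w < s →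
      (e a b c d i j : ZMod p × ZMod p → k) ∈ Fil p a b c d A B s := by
  have hp : 2 ≤ p := (Fact.out : p.Prime).two_le
  induction w using Nat.strong_induction_on with
  | _ w ih =>
    intro i j s hw hs
    by_cases hi : i < p
    · by_cases hj : j < p
      · exact Submodule.subset_span ⟨i, j, hi, hj, by omega, rfl⟩
      · push Not at hj
        obtain ⟨j', rfl⟩ := Nat.exists_eq_add_of_le hj
        have h1 : (e a b c d i (p + j') : ZMod p × ZMod p → k)
            = ((c ^ p * d - d ^ p * c) / (a * d - b * c)) • e a b c d (i + 1) j'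
              + ((a * d ^ p - b * c ^ p) / (a * d - b * c)) • e a b c d i (j' + 1) := by
          funext q
          simp only [e, Pi.add_apply, Pi.smul_apply, smul_eq_mul, pow_add, lin_pow, pow_one]
          have h2 : lin (c ^ p) (d ^ p) q
              = ((c ^ p * d - d ^ p * c) / (a * d - b * c)) * lin a b q
                + ((a * d ^ p - b * c ^ p) / (a * d - b * c)) * lin c d q := by
            simp only [lin]
            rw [div_mul_eq_mul_div, div_mul_eq_mul_div, ← add_div, eq_div_iff hdet]
            ring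
          rw [h2]; ring
        rw [h1]
        have h3 : A * (i + 1) + B * j' < w := by nlinarith
        have h4 : A * i + B * (j' + 1) < w := by nlinarith
        exact Submodule.add_mem _ (Submodule.smul_mem _ _ (ih _ h3 _ _ _ rfl (by omega)))
          (Submodule.smul_mem _ _ (ih _ h4 _ _ _ rfl (by omega)))
    · push Not at hi
      obtain ⟨i', rfl⟩ := Nat.exists_eq_add_of_le hi
      have h1 : (e a b c d (p + i') j : ZMod p × ZMod p → k)
          = ((a ^ p * d - b ^ p * c) / (a * d - b * c)) • e a b c d (i' + 1) j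
            + ((a * b ^ p - b * a ^ p) / (a * d - b * c)) • e a b c d i' (j + 1) := by
        funext q
        simp only [e, Pi.add_apply, Pi.smul_apply, smul_eq_mul, pow_add, lin_pow, pow_one]
        have h2 : lin (a ^ p) (b ^ p) q
            = ((a ^ p * d - b ^ p * c) / (a * d - b * c)) * lin a b q
              + ((a * b ^ p - b * a ^ p) / (a * d - b * c)) * lin c d q := by
          simp only [lin]
          rw [div_mul_eq_mul_div, div_mul_eq_mul_div, ← add_div, eq_div_iff hdet]
          ring
        rw [h2]; ring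
      rw [h1]
      have h3 : A * (i' + 1) + B * j < w := by nlinarith
      have h4 : A * i' + B * (j + 1) < w := by nlinarith
      exact Submodule.add_mem _ (Submodule.smul_mem _ _ (ih _ h3 _ _ _ rfl (by omega)))
        (Submodule.smul_mem _ _ (ih _ h4 _ _ _ rfl (by omega)))

theorem Fil_mul {a b c d : k} (hdet : a * d - b * c ≠ 0) {A B : ℕ} (hA : 0 < A) (hB : 0 < B)
    (hAB : A < p * B) (hBA : B < p * A) {s t r : ℕ} (hr : s + t ≤ r + 1)
    {F G : ZMod p × ZMod p → k} (hF : F ∈ Fil p a b c d A B s) (hG : G ∈ Fil p a b c d A B t) :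
    F * G ∈ Fil p a b c d A B r := by
  have h : Fil p a b c d A B s * Fil p a b c d A B t ≤ Fil p a b c d A B r := by
    rw [Fil, Fil, Submodule.span_mul_span, Submodule.span_le]
    rintro _ ⟨_, ⟨i, j, hi, hj, hw, rfl⟩, _, ⟨i', j', hi', hj', hw', rfl⟩, rfl⟩
    simp only [e_mul]
    exact e_mem hdet hA hB hAB hBA _ _ _ _ rfl (by nlinarith)
  exact h (Submodule.mul_mem_mul hF hG)

theorem Fil_neg {a b c d : k} {A B s : ℕ} {F : ZMod p × ZMod p → k}
    (hF : F ∈ Fil p a b c d A B s) : (fun q => F (-q)) ∈ Fil p a b c d A B s := by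
  rw [Fil] at hF ⊢
  induction hF using Submodule.span_induction with
  | mem F h =>
    obtain ⟨i, j, hi, hj, hw, rfl⟩ := h
    have : (fun q => (e a b c d i j : ZMod p × ZMod p → k) (-q))
        = ((-1) ^ i * (-1) ^ j : k) • e a b c d i j := by
      funext q
      simp only [e, lin_neg, Pi.smul_apply, smul_eq_mul]
      rw [neg_pow (lin a b q), neg_pow (lin c d q)]; ring
    rw [this]
    exact Submodule.smul_mem _ _ (Submodule.subset_span ⟨i, j, hi, hj, hw, rfl⟩)
  | zero => exact Submodule.zero_mem _
  | add F G _ _ h1 h2 => exact Submodule.add_mem _ h1 h2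
  | smul r F _ h1 => exact Submodule.smul_mem _ r h1

theorem span_top {a b c d : k} (hdet : a * d - b * c ≠ 0) :
    ⊤ ≤ Submodule.span k (Set.range fun x : Fin p × Fin p =>
      (e a b c d x.1 x.2 : ZMod p × ZMod p → k)) := by
  have hp : 2 ≤ p := (Fact.out : p.Prime).two_le
  set E := Submodule.span k (Set.range fun x : Fin p × Fin p =>
      (e a b c d x.1 x.2 : ZMod p × ZMod p → k)) with hE
  have h1 : ∀ i j, (e a b c d i j : ZMod p × ZMod p → k) ∈ E := by
    intro i j
    have h2 : Fil p a b c d 1 1 (i + j + 1) ≤ E := by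
      rw [Fil, Submodule.span_le]
      rintro F ⟨i, j, hi, hj, hw, rfl⟩
      exact Submodule.subset_span ⟨(⟨i, hi⟩, ⟨j, hj⟩), rfl⟩
    exact h2 (e_mem hdet one_pos one_pos (by omega) (by omega) (i + j) i j _ (by ring) (by omega))
  set S := Algebra.adjoin k {(lin a b : ZMod p × ZMod p → k), lin c d} with hS
  have hSE : Subalgebra.toSubmodule S ≤ E := by
    rw [hS, Algebra.adjoin_eq_span, Submodule.span_le]
    intro F hF
    rw [SetLike.mem_coe, Submonoid.mem_closure_pair] at hF
    obtain ⟨m, n, rfl⟩ := hF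
    exact h1 m n
  have hl : (lin a b : ZMod p × ZMod p → k) ∈ S := Algebra.subset_adjoin (by simp)
  have hm : (lin c d : ZMod p × ZMod p → k) ∈ S := Algebra.subset_adjoin (by simp)
  have hx : (fun q : ZMod p × ZMod p => ZMod.castHom (dvd_refl p) k q.1) ∈ S := by
    have : (fun q : ZMod p × ZMod p => ZMod.castHom (dvd_refl p) k q.1)
        = (d / (a * d - b * c)) • (lin a b : ZMod p × ZMod p → k)
          - (b / (a * d - b * c)) • lin c d := by
      funext q
      simp only [Pi.sub_apply, Pi.smul_apply, smul_eq_mul, lin]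
      rw [div_mul_eq_mul_div, div_mul_eq_mul_div, ← sub_div, eq_div_iff hdet]
      ring
    rw [this]
    exact S.sub_mem (S.smul_mem hl _) (S.smul_mem hm _)
  have hy : (fun q : ZMod p × ZMod p => ZMod.castHom (dvd_refl p) k q.2) ∈ S := by
    have : (fun q : ZMod p × ZMod p => ZMod.castHom (dvd_refl p) k q.2)
        = (a / (a * d - b * c)) • (lin c d : ZMod p × ZMod p → k)
          - (c / (a * d - b * c)) • lin a b := by
      funext q
      simp only [Pi.sub_apply, Pi.smul_apply, smul_eq_mul, lin]
      rw [div_mul_eq_mul_div, div_mul_eq_mul_div, ← sub_div, eq_div_iff hdet]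
      ring
    rw [this]
    exact S.sub_mem (S.smul_mem hm _) (S.smul_mem hl _)
  have hc : ∀ u : k, (fun _ : ZMod p × ZMod p => u) ∈ S := fun u => S.algebraMap_mem u
  have hd : ∀ r : ZMod p × ZMod p, (Pi.single r 1 : ZMod p × ZMod p → k) ∈ S := by
    intro r
    have : (Pi.single r 1 : ZMod p × ZMod p → k)
        = (1 - ((fun q : ZMod p × ZMod p => ZMod.castHom (dvd_refl p) k q.1)
            - fun _ => ZMod.castHom (dvd_refl p) k r.1) ^ (p - 1))
          * (1 - ((fun q : ZMod p × ZMod p => ZMod.castHom (dvd_refl p) k q.2)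
            - fun _ => ZMod.castHom (dvd_refl p) k r.2) ^ (p - 1)) := by
      have key : ∀ x y : ZMod p, (1 : k) - (ZMod.castHom (dvd_refl p) k x
          - ZMod.castHom (dvd_refl p) k y) ^ (p - 1) = if x = y then 1 else 0 := by
        intro x y
        split_ifs with h
        · rw [h, sub_self, zero_pow (by omega), sub_zero]
        · rw [← map_sub, ← map_pow, ZMod.pow_card_sub_one_eq_one (sub_ne_zero.2 h), map_one,
            sub_self]
      funext q
      simp only [Pi.mul_apply, Pi.sub_apply, Pi.pow_apply, Pi.one_apply]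
      rw [key, key, Pi.single_apply]
      by_cases h1 : q.1 = r.1
      · by_cases h2 : q.2 = r.2
        · rw [if_pos (Prod.ext h1 h2), if_pos h1, if_pos h2, one_mul]
        · rw [if_neg (fun h => h2 (by rw [h])), if_neg h2, mul_zero]
      · rw [if_neg (fun h => h1 (by rw [h])), if_neg h1, zero_mul]
    rw [this]
    exact S.mul_mem (S.sub_mem S.one_mem (S.pow_mem (S.sub_mem hx (hc _)) _))
      (S.sub_mem S.one_mem (S.pow_mem (S.sub_mem hy (hc _)) _))
  intro F _
  apply hSE
  rw [Subalgebra.mem_toSubmodule]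
  have : F = ∑ r, F r • (Pi.single r 1 : ZMod p × ZMod p → k) := by
    funext q
    rw [Finset.sum_apply]
    simp [Pi.single_apply]
  rw [this]
  exact S.sum_mem fun r _ => S.smul_mem (hd r) _

/-- The basis of monomial functions. -/
noncomputable def bas {a b c d : k} (hdet : a * d - b * c ≠ 0) :
    Module.Basis (Fin p × Fin p) k (ZMod p × ZMod p → k) :=
  basisOfTopLeSpanOfCardEqFinrank
    (fun x : Fin p × Fin p => (e a b c d x.1 x.2 : ZMod p × ZMod p → k)) (span_top hdet)
    (by simp [ZMod.card])

theorem bas_apply {a b c d : k} (hdet : a * d - b * c ≠ 0) (x : Fin p × Fin p) :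
    bas hdet x = (e a b c d x.1 x.2 : ZMod p × ZMod p → k) := by
  rw [bas, coe_basisOfTopLeSpanOfCardEqFinrank]

/-- The coefficient functionals. -/
noncomputable def co {a b c d : k} (hdet : a * d - b * c ≠ 0) (i j : ℕ) :
    (ZMod p × ZMod p → k) →ₗ[k] k :=
  if h : i < p ∧ j < p then (bas hdet).coord (⟨i, h.1⟩, ⟨j, h.2⟩) else 0

theorem co_e {a b c d : k} (hdet : a * d - b * c ≠ 0) {i j i' j' : ℕ} (hi : i < p) (hj : j < p)
    (hi' : i' < p) (hj' : j' < p) :
    co hdet i j (e a b c d i' j' : ZMod p × ZMod p → k) = if i' = i ∧ j' = j then 1 else 0 := by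
  rw [co, dif_pos ⟨hi, hj⟩]
  have h := bas_apply hdet ((⟨i', hi'⟩, ⟨j', hj'⟩) : Fin p × Fin p)
  rw [← h, Module.Basis.coord_apply, Module.Basis.repr_self, Finsupp.single_apply]
  congr 1
  simp [Prod.ext_iff, Fin.ext_iff]

theorem co_of_le {a b c d : k} (hdet : a * d - b * c ≠ 0) {i j : ℕ} (h : p ≤ i ∨ p ≤ j) :
    (co hdet i j : (ZMod p × ZMod p → k) →ₗ[k] k) = 0 := by
  rw [co, dif_neg (by omega)]

theorem expand {a b c d : k} (hdet : a * d - b * c ≠ 0) (F : ZMod p × ZMod p → k) :
    F = ∑ i ∈ range p, ∑ j ∈ range p, co hdet i j F • (e a b c d i j : ZMod p × ZMod p → k) := by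
  conv_lhs => rw [← (bas hdet).sum_repr F]
  rw [Fintype.sum_prod_type, Finset.sum_range]
  refine Finset.sum_congr rfl fun i _ => ?_
  rw [Finset.sum_range]
  refine Finset.sum_congr rfl fun j _ => ?_
  rw [bas_apply, co, dif_pos ⟨i.2, j.2⟩]
  rfl

theorem co_Fil {a b c d : k} (hdet : a * d - b * c ≠ 0) {A B s : ℕ} {F : ZMod p × ZMod p → k}
    (hF : F ∈ Fil p a b c d A B s) {i j : ℕ} (hi : i < p) (hj : j < p) (hs : s ≤ A * i + B * j) :
    co hdet i j F = 0 := by
  have h : Fil p a b c d A B s ≤ LinearMap.ker (co hdet i j) := by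
    rw [Fil, Submodule.span_le]
    rintro F ⟨i', j', hi', hj', hw, rfl⟩
    rw [SetLike.mem_coe, LinearMap.mem_ker, co_e hdet hi hj hi' hj', if_neg]
    rintro ⟨rfl, rfl⟩
    omega
  exact h hF

theorem mem_Fil {a b c d : k} (hdet : a * d - b * c ≠ 0) {A B s : ℕ} {F : ZMod p × ZMod p → k}
    (h : ∀ i j, co hdet i j F ≠ 0 → A * i + B * j < s) : F ∈ Fil p a b c d A B s := by
  rw [expand hdet F]
  refine Submodule.sum_mem _ fun i hi => Submodule.sum_mem _ fun j hj => ?_
  by_cases h0 : co hdet i j F = 0
  · rw [h0, zero_smul]; exact Submodule.zero_mem _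
  · exact Submodule.smul_mem _ _ (Submodule.subset_span ⟨i, j, Finset.mem_range.1 hi,
      Finset.mem_range.1 hj, h i j h0, rfl⟩)

/-- The space spanned by the translates. -/
def V (P : ZMod p × ZMod p → k) : Submodule k (ZMod p × ZMod p → k) :=
  Submodule.span k (Set.range fun q : ZMod p × ZMod p => fun x : ZMod p × ZMod p => P (x + q))

/-- The Hasse derivatives. -/
noncomputable def D {a b c d : k} (hdet : a * d - b * c ≠ 0) (P : ZMod p × ZMod p → k)
    (s t : ℕ) : ZMod p × ZMod p → k :=
  ∑ i ∈ range p, ∑ j ∈ range p,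
    (co hdet (s + i) (t + j) P * (s + i).choose s * (t + j).choose t) • e a b c d i j

theorem co_D {a b c d : k} (hdet : a * d - b * c ≠ 0) (P : ZMod p × ZMod p → k) (s t i j : ℕ) :
    co hdet i j (D hdet P s t)
      = if i < p ∧ j < p then co hdet (s + i) (t + j) P * (s + i).choose s * (t + j).choose t
        else 0 := by
  split_ifs with h
  · rw [D, map_sum, Finset.sum_eq_single i, map_sum, Finset.sum_eq_single j, map_smul,
      co_e hdet h.1 h.2 h.1 h.2, if_pos ⟨rfl, rfl⟩, smul_eq_mul, mul_one]
    · intro j' hj' hne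
      rw [map_smul, co_e hdet h.1 h.2 h.1 (Finset.mem_range.1 hj'), if_neg (fun h' => hne h'.2),
        smul_zero]
    · intro hn; exact absurd (Finset.mem_range.2 h.2) hn
    · intro i' hi' hne
      rw [map_sum]
      refine Finset.sum_eq_zero fun j' hj' => ?_
      rw [map_smul, co_e hdet h.1 h.2 (Finset.mem_range.1 hi') (Finset.mem_range.1 hj'),
        if_neg (fun h' => hne h'.1), smul_zero]
    · intro hn; exact absurd (Finset.mem_range.2 h.1) hn
  · rw [co_of_le hdet (by omega)]; rfl

theorem sum_anti {M : Type*} [AddCommMonoid M] (n : ℕ) (h : ℕ → ℕ → M)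
    (h0 : ∀ s i, n ≤ s + i → h s i = 0) :
    ∑ I ∈ range n, ∑ x ∈ antidiagonal I, h x.1 x.2 = ∑ s ∈ range n, ∑ i ∈ range n, h s i := by
  rw [← Finset.sum_product', ← Finset.sum_filter_add_sum_filter_not (range n ×ˢ range n)
    (fun x => x.1 + x.2 < n)]
  rw [Finset.sum_eq_zero (s := (range n ×ˢ range n).filter fun x => ¬ x.1 + x.2 < n), add_zero]
  · rw [← Finset.sum_fiberwise_of_maps_to (g := fun x : ℕ × ℕ => x.1 + x.2) (t := range n)]
    · refine Finset.sum_congr rfl fun I hI => ?_
      refine Finset.sum_congr ?_ fun _ _ => rfl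
      ext x
      simp only [Finset.HasAntidiagonal.mem_antidiagonal, Finset.mem_filter,
        Finset.mem_product, Finset.mem_range] at hI ⊢
      omega
    · intro x hx
      exact Finset.mem_range.2 (Finset.mem_filter.1 hx).2
  · intro x hx
    exact h0 _ _ (not_lt.1 (Finset.mem_filter.1 hx).2)

theorem translate {a b c d : k} (hdet : a * d - b * c ≠ 0) (P : ZMod p × ZMod p → k)
    (x q : ZMod p × ZMod p) :
    P (x + q) = ∑ s ∈ range p, ∑ t ∈ range p, e a b c d s t q * D hdet P s t x := by
  have h1 : P (x + q) = ∑ I ∈ range p, ∑ m ∈ antidiagonal I, ∑ J ∈ range p,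
      ∑ n ∈ antidiagonal J, (co hdet (m.1 + m.2) (n.1 + n.2) P * (m.1 + m.2).choose m.1
        * (n.1 + n.2).choose n.1) * (lin a b q ^ m.1 * lin a b x ^ m.2 * (lin c d q ^ n.1
          * lin c d x ^ n.2)) := by
    conv_lhs => rw [expand hdet P]
    rw [Finset.sum_apply]
    refine Finset.sum_congr rfl fun I hI => ?_
    rw [Finset.sum_apply, Finset.sum_comm]
    refine Finset.sum_congr rfl fun J hJ => ?_
    rw [Pi.smul_apply, smul_eq_mul, e, add_comm x q, lin_add, lin_add, (Commute.all _ _).add_pow',
      (Commute.all _ _).add_pow', Finset.sum_mul_sum, Finset.mul_sum]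
    refine Finset.sum_congr rfl fun m hm => ?_
    rw [Finset.mul_sum]
    refine Finset.sum_congr rfl fun n hn => ?_
    rw [Finset.HasAntidiagonal.mem_antidiagonal] at hm hn
    rw [hm, hn, nsmul_eq_mul, nsmul_eq_mul]
    ring
  rw [h1, sum_anti p (fun s i => ∑ J ∈ range p,
      ∑ n ∈ antidiagonal J, (co hdet (s + i) (n.1 + n.2) P * (s + i).choose s
        * (n.1 + n.2).choose n.1) * (lin a b q ^ s * lin a b x ^ i * (lin c d q ^ n.1
          * lin c d x ^ n.2)))]
  · refine Finset.sum_congr rfl fun s hs => ?_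
    rw [Finset.sum_congr rfl fun i _ => sum_anti p (fun t j =>
      (co hdet (s + i) (t + j) P * (s + i).choose s
        * (t + j).choose t) * (lin a b q ^ s * lin a b x ^ i * (lin c d q ^ t
          * lin c d x ^ j))) ?_]
    · rw [Finset.sum_comm]
      refine Finset.sum_congr rfl fun t ht => ?_
      rw [D, Finset.sum_apply, Finset.mul_sum]
      refine Finset.sum_congr rfl fun i hi => ?_
      rw [Finset.sum_apply, Finset.mul_sum]
      refine Finset.sum_congr rfl fun j hj => ?_
      rw [Pi.smul_apply, smul_eq_mul, e, e]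
      ring
    · intro t j h
      rw [co_of_le hdet (Or.inr h)]
      simp
  · intro s i h
    refine Finset.sum_eq_zero fun J _ => Finset.sum_eq_zero fun n _ => ?_
    rw [co_of_le hdet (Or.inl h)]
    simp

theorem D_mem {a b c d : k} (hdet : a * d - b * c ≠ 0) (P : ZMod p × ZMod p → k) {s t : ℕ}
    (hs : s < p) (ht : t < p) : D hdet P s t ∈ V P := by
  by_contra hcon
  obtain ⟨φ, h1, h2⟩ := Submodule.exists_dual_map_eq_bot_of_notMem hcon inferInstance
  apply h1
  have h3 : ∑ i ∈ range p, ∑ j ∈ range p, φ (D hdet P i j) • (e a b c d i j :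
      ZMod p × ZMod p → k) = 0 := by
    funext q
    have h4 : φ (fun x => P (x + q)) = 0 := by
      have : φ (fun x => P (x + q)) ∈ (V P).map φ :=
        Submodule.mem_map_of_mem (Submodule.subset_span ⟨q, rfl⟩)
      rw [h2] at this
      exact this
    have h5 : (fun x => P (x + q))
        = ∑ i ∈ range p, ∑ j ∈ range p, (e a b c d i j q : k) • D hdet P i j := by
      funext x
      rw [translate hdet P x q]
      simp [Finset.sum_apply]
    rw [h5, map_sum] at h4
    rw [Finset.sum_apply, Pi.zero_apply, ← h4]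
    refine Finset.sum_congr rfl fun i _ => ?_
    rw [Finset.sum_apply, map_sum]
    refine Finset.sum_congr rfl fun j _ => ?_
    rw [map_smul, Pi.smul_apply, smul_eq_mul, smul_eq_mul, mul_comm]
  have h6 := congrArg (co hdet s t) h3
  rw [map_zero, map_sum, Finset.sum_eq_single s, map_sum, Finset.sum_eq_single t, map_smul,
      co_e hdet hs ht hs ht, if_pos ⟨rfl, rfl⟩, smul_eq_mul, mul_one] at h6
  · exact h6
  · intro j' hj' hne
    rw [map_smul, co_e hdet hs ht hs (Finset.mem_range.1 hj'), if_neg (fun h' => hne h'.2),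
      smul_zero]
  · intro hn; exact absurd (Finset.mem_range.2 ht) hn
  · intro i' hi' hne
    rw [map_sum]
    refine Finset.sum_eq_zero fun j' hj' => ?_
    rw [map_smul, co_e hdet hs ht (Finset.mem_range.1 hi') (Finset.mem_range.1 hj'),
      if_neg (fun h' => hne h'.1), smul_zero]
  · intro hn; exact absurd (Finset.mem_range.2 hs) hn

theorem card_le {a b c d : k} (A B : ℕ) (W : Submodule k (ZMod p × ZMod p → k)) (T : Finset ℕ)
    (hT : ∀ s ∈ T, ∃ F ∈ W, F ∈ Fil p a b c d A B (s + 1) ∧ F ∉ Fil p a b c d A B s) :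
    T.card ≤ Module.finrank k W := by
  have h1 : ∀ n, (T.filter (· < n)).card
      ≤ Module.finrank k (W ⊓ Fil p a b c d A B n : Submodule k (ZMod p × ZMod p → k)) := by
    intro n
    induction n with
    | zero => simp
    | succ n ih =>
      by_cases hn : n ∈ T
      · have h2 : T.filter (· < n + 1) = insert n (T.filter (· < n)) := by
          ext x
          simp only [Finset.mem_filter, Finset.mem_insert]
          constructor
          · rintro ⟨h3, h4⟩
            rcases Nat.lt_succ_iff_lt_or_eq.1 h4 with h5 | h5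
            · exact Or.inr ⟨h3, h5⟩
            · exact Or.inl h5
          · rintro (rfl | ⟨h3, h4⟩)
            · exact ⟨hn, Nat.lt_succ_self _⟩
            · exact ⟨h3, by omega⟩
        rw [h2, Finset.card_insert_of_notMem (by simp)]
        refine lt_of_le_of_lt ih (Submodule.finrank_lt_finrank_of_lt ?_)
        obtain ⟨F, hF, hF1, hF2⟩ := hT n hn
        refine lt_of_le_of_ne (inf_le_inf_left _ (Fil_mono (Nat.le_succ n))) fun heq => ?_
        have : F ∈ W ⊓ Fil p a b c d A B (n + 1) := ⟨hF, hF1⟩
        rw [← heq] at this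
        exact hF2 this.2
      · have h2 : T.filter (· < n + 1) = T.filter (· < n) := by
          ext x
          simp only [Finset.mem_filter]
          constructor
          · rintro ⟨h3, h4⟩
            refine ⟨h3, lt_of_le_of_ne (Nat.lt_succ_iff.1 h4) ?_⟩
            rintro rfl; exact hn h3
          · rintro ⟨h3, h4⟩
            exact ⟨h3, by omega⟩
        rw [h2]
        exact ih.trans (Submodule.finrank_mono (inf_le_inf_left _ (Fil_mono (Nat.le_succ n))))
  have h2 : T.filter (· < T.sup id + 1) = T := by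
    refine Finset.filter_true_of_mem fun x hx => Nat.lt_succ_iff.2 ?_
    exact Finset.le_sup (f := id) hx
  rw [← h2]
  exact (h1 _).trans (Submodule.finrank_mono inf_le_left)

theorem box {a b c d : k} (hdet : a * d - b * c ≠ 0) {A B : ℕ} (P : ZMod p × ZMod p → k)
    {i1 j1 : ℕ} (h0 : co hdet i1 j1 P ≠ 0)
    (hmax : ∀ i j, co hdet i j P ≠ 0 → A * i + B * j ≤ A * i1 + B * j1) {s t : ℕ}
    (hs : s ≤ i1) (ht : t ≤ j1) :
    ∃ F ∈ V P, F ∈ Fil p a b c d A B (A * s + B * t + 1) ∧ F ∉ Fil p a b c d A B (A * s + B * t) := by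
  have hi1 : i1 < p := by
    by_contra h; exact h0 (by rw [co_of_le hdet (Or.inl (not_lt.1 h))]; rfl)
  have hj1 : j1 < p := by
    by_contra h; exact h0 (by rw [co_of_le hdet (Or.inr (not_lt.1 h))]; rfl)
  refine ⟨D hdet P (i1 - s) (j1 - t), D_mem hdet P (by omega) (by omega), ?_, ?_⟩
  · refine mem_Fil hdet fun i j hij => ?_
    rw [co_D] at hij
    split_ifs at hij with h
    · have h1 : co hdet (i1 - s + i) (j1 - t + j) P ≠ 0 := fun h' => hij (by rw [h']; ring)
      have h2 := hmax _ _ h1
      obtain ⟨u, rfl⟩ := Nat.exists_eq_add_of_le hs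
      obtain ⟨v, rfl⟩ := Nat.exists_eq_add_of_le ht
      simp only [Nat.add_sub_cancel_left] at h2
      nlinarith
    · exact absurd rfl hij
  · intro hF
    have h1 := co_Fil hdet hF (i := s) (j := t) (by omega) (by omega) le_rfl
    rw [co_D, if_pos (by omega), Nat.sub_add_cancel hs, Nat.sub_add_cancel ht] at h1
    have hch : ∀ m n : ℕ, m < p → n ≤ m → ((m.choose n : ℕ) : k) ≠ 0 := by
      intro m n hm hn h
      rw [CharP.cast_eq_zero_iff k p] at h
      have h3 : p ∣ m.factorial := by
        rw [← Nat.choose_mul_factorial_mul_factorial hn]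
        exact Dvd.dvd.mul_right (Dvd.dvd.mul_right h _) _
      have := ((Fact.out : p.Prime).dvd_factorial).1 h3
      omega
    exact mul_ne_zero (mul_ne_zero h0 (hch _ _ hi1 (by omega))) (hch _ _ hj1 (by omega)) h1

theorem vertex {a b c d : k} (hdet : a * d - b * c ≠ 0) {A B : ℕ} (hA : 0 < A) (hB : 0 < B)
    (hAB : A < p * B) (hBA : B < p * A) (P : ZMod p × ZMod p → k) (hz : ∀ q, P q * P (-q) = 0)
    {i1 j1 : ℕ} (h0 : co hdet i1 j1 P ≠ 0)
    (hmax : ∀ i j, co hdet i j P ≠ 0 → (i, j) ≠ (i1, j1) → A * i + B * j < A * i1 + B * j1) :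
    p ≤ 2 * i1 ∨ p ≤ 2 * j1 := by
  by_contra hcon
  push Not at hcon
  obtain ⟨hi, hj⟩ := hcon
  set w := A * i1 + B * j1 with hw
  set u := co hdet i1 j1 P with hu
  set E : ZMod p × ZMod p → k := e a b c d i1 j1 with hE
  set P' := P - u • E with hP'
  have h1 : P' ∈ Fil p a b c d A B w := by
    refine mem_Fil hdet fun i j hij => ?_
    by_cases hne : (i, j) = (i1, j1)
    · exfalso
      apply hij
      simp only [Prod.mk.injEq] at hne
      rw [hne.1, hne.2, hP', map_sub, map_smul, hE, co_e hdet (by omega) (by omega) (by omega)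
        (by omega), if_pos ⟨rfl, rfl⟩, smul_eq_mul, mul_one, ← hu, sub_self]
    · refine hmax i j ?_ hne
      by_cases hlt : i < p ∧ j < p
      · rw [hP', map_sub, map_smul, hE, co_e hdet hlt.1 hlt.2 (by omega) (by omega), if_neg,
          smul_zero, sub_zero] at hij
        · exact hij
        · rintro ⟨rfl, rfl⟩; exact hne rfl
      · exfalso; apply hij; rw [co_of_le hdet (by omega)]; rfl
  have hEw : E ∈ Fil p a b c d A B (w + 1) :=
    e_mem hdet hA hB hAB hBA w i1 j1 _ rfl (Nat.lt_succ_self _)
  have hneg : (fun q => P (-q)) = (u * ((-1) ^ i1 * (-1) ^ j1)) • E + fun q => P' (-q) := by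
    funext q
    simp only [Pi.add_apply, Pi.smul_apply, smul_eq_mul, hP', Pi.sub_apply]
    have : E (-q) = ((-1) ^ i1 * (-1) ^ j1) * E q := by
      simp only [hE, e, lin_neg]
      rw [neg_pow (lin a b q), neg_pow (lin c d q)]; ring
    rw [this]; ring
  have hprod : (u * (u * ((-1) ^ i1 * (-1) ^ j1))) • (E * E)
      = -(u • (E * fun q => P' (-q)) + (u * ((-1) ^ i1 * (-1) ^ j1)) • (P' * E)
        + P' * fun q => P' (-q)) := by
    have h2 : (u • E + P') * ((u * ((-1) ^ i1 * (-1) ^ j1)) • E + fun q => P' (-q)) = 0 := by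
      rw [← hneg, hP', add_sub_cancel]
      funext q
      exact hz q
    rw [eq_neg_iff_add_eq_zero, ← h2]
    funext q
    simp only [Pi.add_apply, Pi.mul_apply, Pi.smul_apply, smul_eq_mul]
    ring
  have h3 : (u * (u * ((-1) ^ i1 * (-1) ^ j1))) • (E * E) ∈ Fil p a b c d A B (2 * w) := by
    rw [hprod]
    refine Submodule.neg_mem _ (Submodule.add_mem _ (Submodule.add_mem _
      (Submodule.smul_mem _ _ ?_) (Submodule.smul_mem _ _ ?_)) ?_)
    · exact Fil_mul hdet hA hB hAB hBA (by omega) hEw (Fil_neg h1)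
    · exact Fil_mul hdet hA hB hAB hBA (by omega) h1 hEw
    · exact Fil_mul hdet hA hB hAB hBA (by omega) h1 (Fil_neg h1)
  have h4 := co_Fil hdet h3 hi hj (by rw [hw]; apply le_of_eq; ring)
  rw [hE, e_mul, map_smul, ← two_mul, ← two_mul, co_e hdet hi hj hi hj, if_pos ⟨rfl, rfl⟩,
    smul_eq_mul, mul_one] at h4
  have h5 : u * (u * ((-1) ^ i1 * (-1) ^ j1)) ≠ 0 := by
    refine mul_ne_zero h0 (mul_ne_zero h0 (mul_ne_zero ?_ ?_)) <;>
      exact pow_ne_zero _ (neg_ne_zero.2 one_ne_zero)
  exact h5 h4

theorem axis {a b c d : k} (hdet : a * d - b * c ≠ 0) {A B : ℕ} (hA : 0 < A) (hB : 0 < B)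
    (hAB : A < p * B) (hBA : p * B + 1 < p * (p * A)) (P : ZMod p × ZMod p → k)
    (hz : ∀ q, P q * P (-q) = 0) (hV : Module.finrank k (V P) ≤ p)
    {i1 j1 : ℕ} (h0 : co hdet i1 j1 P ≠ 0)
    (hmax : ∀ i j, co hdet i j P ≠ 0 →
      p * A * i + (p * B + 1) * j ≤ p * A * i1 + (p * B + 1) * j1) :
    (i1 = 0 ∧ p ≤ 2 * j1) ∨ (j1 = 0 ∧ p ≤ 2 * i1) := by
  have hp : 2 ≤ p := (Fact.out : p.Prime).two_le
  have hlt : ∀ i j, co hdet i j P ≠ 0 → i < p ∧ j < p := by
    intro i j h
    constructor
    · by_contra h'; exact h (by rw [co_of_le hdet (Or.inl (not_lt.1 h'))]; rfl)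
    · by_contra h'; exact h (by rw [co_of_le hdet (Or.inr (not_lt.1 h'))]; rfl)
  have hinj : ∀ i j i' j' : ℕ, j < p → j' < p →
      p * A * i + (p * B + 1) * j = p * A * i' + (p * B + 1) * j' → i = i' ∧ j = j' := by
    intro i j i' j' hj hj' h
    have h1 : j = j' := by
      have h2 : (p * (A * i + B * j) + j) % p = (p * (A * i' + B * j') + j') % p := by
        congr 1; nlinarith
      rwa [Nat.mul_add_mod, Nat.mul_add_mod, Nat.mod_eq_of_lt hj, Nat.mod_eq_of_lt hj'] at h2
    subst h1
    refine ⟨?_, rfl⟩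
    have h3 : p * A * i = p * A * i' := by omega
    exact Nat.eq_of_mul_eq_mul_left (by positivity) h3
  have h1 := vertex hdet (A := p * A) (B := p * B + 1) (by positivity) (by positivity)
    (by nlinarith) hBA P hz h0 (by
      intro i j hij hne
      refine lt_of_le_of_ne (hmax i j hij) fun heq => hne ?_
      have := hinj _ _ _ _ (hlt _ _ hij).2 (hlt _ _ h0).2 heq
      rw [this.1, this.2])
  have h2 : (i1 + 1) * (j1 + 1) ≤ p := by
    refine le_trans ?_ hV
    have h3 := card_le (a := a) (b := b) (c := c) (d := d) (p * A) (p * B + 1) (V P)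
      ((range (i1 + 1) ×ˢ range (j1 + 1)).image fun x => p * A * x.1 + (p * B + 1) * x.2) (by
        intro s hs
        obtain ⟨x, hx, rfl⟩ := Finset.mem_image.1 hs
        rw [Finset.mem_product, Finset.mem_range, Finset.mem_range] at hx
        exact box hdet P h0 hmax (by omega) (by omega))
    rw [Finset.card_image_of_injOn, Finset.card_product, Finset.card_range,
      Finset.card_range] at h3
    · exact h3
    · intro x hx y hy hxy
      simp only [Finset.coe_product, Set.mem_prod, Finset.mem_coe, Finset.mem_range] at hx hy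
      have h4 := (hlt _ _ h0).2
      have := hinj _ _ _ _ (by omega) (by omega) hxy
      exact Prod.ext this.1 this.2
  rcases Nat.eq_zero_or_pos i1 with hi | hi
  · rcases Nat.eq_zero_or_pos j1 with hj | hj
    · exfalso; omega
    · exact Or.inl ⟨hi, by omega⟩
  · rcases Nat.eq_zero_or_pos j1 with hj | hj
    · exact Or.inr ⟨hj, by omega⟩
    · exfalso
      rcases h1 with h1 | h1
      · nlinarith
      · nlinarith

theorem lt_of_co {a b c d : k} (hdet : a * d - b * c ≠ 0) {P : ZMod p × ZMod p → k} {i j : ℕ}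
    (h : co hdet i j P ≠ 0) : i < p ∧ j < p := by
  constructor
  · by_contra h'; exact h (by rw [co_of_le hdet (Or.inl (not_lt.1 h'))]; rfl)
  · by_contra h'; exact h (by rw [co_of_le hdet (Or.inr (not_lt.1 h'))]; rfl)

/-- A maximal element of the support for a weight. -/
theorem exists_max {a b c d : k} (hdet : a * d - b * c ≠ 0) {P : ZMod p × ZMod p → k}
    (w : ℕ → ℕ → ℕ) {i0 j0 : ℕ} (h0 : co hdet i0 j0 P ≠ 0) :
    ∃ i1 j1, co hdet i1 j1 P ≠ 0 ∧ ∀ i j, co hdet i j P ≠ 0 → w i j ≤ w i1 j1 := by
  classical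
  obtain ⟨x, hx, hmax⟩ := Finset.exists_max_image
    ((range p ×ˢ range p).filter fun x => co hdet x.1 x.2 P ≠ 0) (fun x => w x.1 x.2)
    ⟨(i0, j0), by
      rw [Finset.mem_filter, Finset.mem_product, Finset.mem_range, Finset.mem_range]
      exact ⟨lt_of_co hdet h0, h0⟩⟩
  refine ⟨x.1, x.2, (Finset.mem_filter.1 hx).2, fun i j hij => hmax (i, j) ?_⟩
  rw [Finset.mem_filter, Finset.mem_product, Finset.mem_range, Finset.mem_range]
  exact ⟨lt_of_co hdet hij, hij⟩

theorem card_div {m n : ℕ} (hmn : m < n) :
    ((range m).filter fun j => m ∣ n * j).card ≤ n - m := by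
  rw [← Finset.card_range (n - m)]
  refine Finset.card_le_card_of_injOn (fun j => (n - m) * j / m) ?_ ?_
  · intro j hj
    simp only [Finset.coe_filter, Finset.mem_range, Set.mem_ofPred_eq] at hj
    simp only [Finset.coe_range, Set.mem_Iio]
    rw [Nat.div_lt_iff_lt_mul (by omega)]
    exact Nat.mul_lt_mul_of_pos_left hj.1 (by omega)
  · intro j hj j' hj' h
    simp only [Finset.coe_filter, Finset.mem_range, Set.mem_ofPred_eq] at hj hj' h
    have hd : ∀ i, m ∣ n * i → m ∣ (n - m) * i := by
      intro i hi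
      rw [Nat.sub_mul]
      exact Nat.dvd_sub hi (Dvd.intro _ rfl)
    have h1 := Nat.div_mul_cancel (hd j hj.2)
    have h2 := Nat.div_mul_cancel (hd j' hj'.2)
    rw [h] at h1
    exact Nat.eq_of_mul_eq_mul_left (by omega : 0 < n - m) (h1.symm.trans h2)

theorem only_first {a b c d : k} (hdet : a * d - b * c ≠ 0) (P : ZMod p × ZMod p → k)
    (hz : ∀ q, P q * P (-q) = 0) (hV : Module.finrank k (V P) ≤ p) {n : ℕ}
    (hn : co hdet n 0 P ≠ 0)
    (htop : ∀ i j, co hdet i j P ≠ 0 → (i, j) ≠ (n, 0) → i + j < n) :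
    ∀ i j, co hdet i j P ≠ 0 → j = 0 := by
  classical
  have hp : 2 ≤ p := (Fact.out : p.Prime).two_le
  by_contra hcon
  push Not at hcon
  obtain ⟨i0, j0, h0, hj0⟩ := hcon
  have hnp := (lt_of_co hdet hn).1
  -- the minimal slope
  obtain ⟨x, hx, hmin⟩ := Finset.exists_min_image
    ((range p ×ˢ range p).filter fun x => co hdet x.1 x.2 P ≠ 0 ∧ x.2 ≠ 0)
    (fun x => (((n - x.1 : ℕ) : ℚ)) / x.2)
    ⟨(i0, j0), by
      rw [Finset.mem_filter, Finset.mem_product, Finset.mem_range, Finset.mem_range]
      exact ⟨lt_of_co hdet h0, h0, hj0⟩⟩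
  obtain ⟨is, js⟩ := x
  simp only [Finset.mem_filter, Finset.mem_product, Finset.mem_range] at hx
  obtain ⟨⟨his, hjs⟩, hs, hjs0⟩ := hx
  have hsn : is + js < n := htop is js hs (fun h => hjs0 (Prod.ext_iff.1 h).2)
  have hslope : ∀ i j, co hdet i j P ≠ 0 → js * i + (n - is) * j ≤ js * n := by
    intro i j hij
    by_cases hne : (i, j) = (n, 0)
    · simp only [Prod.mk.injEq] at hne
      rw [hne.1, hne.2]; omega
    · have h1 := htop i j hij hne
      rcases Nat.eq_zero_or_pos j with hj | hj
      · subst hj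
        rw [mul_zero, add_zero]
        exact Nat.mul_le_mul_left _ (by omega)
      · have h2 := hmin (i, j) (by
          rw [Finset.mem_filter, Finset.mem_product, Finset.mem_range, Finset.mem_range]
          exact ⟨lt_of_co hdet hij, hij, hj.ne'⟩)
        simp only at h2
        rw [div_le_div_iff₀ (by exact_mod_cast Nat.pos_of_ne_zero hjs0) (by exact_mod_cast hj)]
          at h2
        have h3 : (n - is) * j ≤ (n - i) * js := by exact_mod_cast h2
        obtain ⟨u, hu⟩ := Nat.exists_eq_add_of_lt (lt_of_le_of_lt (Nat.le_add_right i j) h1)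
        have h4 : n - i = u + 1 := by omega
        have h5 : js * n = js * i + js * (u + 1) := by rw [hu]; ring
        rw [h4, mul_comm (u + 1) js] at h3
        rw [h5]
        exact Nat.add_le_add_left h3 _
  obtain ⟨i1, j1, h1, hmax⟩ := exists_max hdet
    (fun i j => p * js * i + (p * (n - is) + 1) * j) hs
  have hlt1 := lt_of_co hdet h1
  have hle1 := hslope i1 j1 h1
  have hge := hmax is js hs
  have heqs : js * is + (n - is) * js = js * n := by
    obtain ⟨u, hu⟩ := Nat.exists_eq_add_of_lt (lt_of_le_of_lt (Nat.le_add_right is js) hsn)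
    have h4 : n - is = u + 1 := by omega
    rw [h4, hu]; ring
  have hge' : p * (js * n) + js ≤ p * (js * i1 + (n - is) * j1) + j1 := by
    rw [← heqs]; nlinarith
  have heq1 : js * i1 + (n - is) * j1 = js * n := by
    by_contra hne
    have h5 : js * i1 + (n - is) * j1 + 1 ≤ js * n := by omega
    have h6 : p * (js * i1 + (n - is) * j1 + 1) ≤ p * (js * n) := Nat.mul_le_mul_left _ h5
    have : p * (js * i1 + (n - is) * j1 + 1) = p * (js * i1 + (n - is) * j1) + p := by ring
    omega
  have hj1 : js ≤ j1 := by rw [heq1] at hge'; omega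
  have hax := axis hdet (A := js) (B := n - is) (by omega) (by omega)
    (lt_of_lt_of_le (by omega : js < n - is)
      (Nat.le_mul_of_pos_left (n - is) (by omega : 0 < p)))
    (by
      have h5 : n - is ≤ p - 1 := by omega
      have h6 : p * (n - is) + 1 ≤ p * (p - 1) + 1 := by
        have := Nat.mul_le_mul_left p h5; omega
      have h7 : p * (p - 1) + p = p * p := by
        rw [← Nat.mul_succ]; congr 1; omega
      have h8 : p * p ≤ p * (p * js) := by
        have := Nat.mul_le_mul_left (p * p) (by omega : 1 ≤ js)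
        nlinarith
      omega) P hz hV h1 hmax
  have hi1 : i1 = 0 ∧ p ≤ 2 * j1 := by
    rcases hax with h | h
    · exact h
    · exfalso; omega
  obtain ⟨rfl, hpj⟩ := hi1
  set m := j1 with hm
  have heq : (n - is) * m = js * n := by rw [← heq1]; ring
  have hmn : m < n := by
    by_contra h
    push Not at h
    have h5 : (n - is) * n ≤ (n - is) * m := Nat.mul_le_mul_left _ h
    have h6 : js * n < (n - is) * n := Nat.mul_lt_mul_of_pos_right (by omega) (by omega)
    omega
  have hw : ∀ i j, co hdet i j P ≠ 0 → m * i + n * j ≤ m * n := by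
    intro i j hij
    have h5 := hslope i j hij
    have h6 : js * (m * i + n * j) ≤ js * (m * n) := by
      have h7 : js * (m * i + n * j) = m * (js * i + (n - is) * j) := by
        have : m * ((n - is) * j) = js * n * j := by rw [← heq]; ring
        rw [mul_add m, this]; ring
      rw [h7]
      have := Nat.mul_le_mul_left m h5
      linarith [this, (by ring : m * (js * n) = js * (m * n))]
    exact Nat.le_of_mul_le_mul_left h6 (by omega)
  have hcard := card_le (a := a) (b := b) (c := c) (d := d) m n (V P)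
    ((range (n + 1)).image (fun s => m * s + n * 0)
      ∪ ((range m).filter fun j => ¬ m ∣ n * j).image (fun t => m * 0 + n * t)) (by
      intro s hs'
      rw [Finset.mem_union, Finset.mem_image, Finset.mem_image] at hs'
      rcases hs' with ⟨s, hs, rfl⟩ | ⟨t, ht, rfl⟩
      · exact box hdet P hn (by intro i j hij; simpa using hw i j hij)
          (by rw [Finset.mem_range] at hs; omega) le_rfl
      · refine box hdet P h1 (by intro i j hij; have := hw i j hij; nlinarith) le_rfl ?_
        rw [Finset.mem_filter, Finset.mem_range] at ht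
        omega)
  rw [Finset.card_union_of_disjoint, Finset.card_image_of_injective, Finset.card_range,
    Finset.card_image_of_injective] at hcard
  · have h5 := card_div hmn
    have h6 := Finset.card_filter_add_card_filter_not (s := range m) (fun j => m ∣ n * j)
    rw [Finset.card_range] at h6
    omega
  · intro x y hxy
    simp only at hxy
    have h7 : n * x = n * y := by omega
    exact Nat.eq_of_mul_eq_mul_left (by omega) h7
  · intro x y hxy
    simp only at hxy
    have h7 : m * x = m * y := by omega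
    exact Nat.eq_of_mul_eq_mul_left (by omega) h7
  · rw [Finset.disjoint_left]
    intro x hx hx'
    rw [Finset.mem_image] at hx hx'
    obtain ⟨s, _, rfl⟩ := hx
    obtain ⟨t, ht, heq⟩ := hx'
    rw [Finset.mem_filter] at ht
    exact ht.2 ⟨s, by omega⟩

theorem final_one {a b c d : k} (hdet : a * d - b * c ≠ 0) (P : ZMod p × ZMod p → k)
    (hP : P ≠ 0) (hz : ∀ q, P q * P (-q) = 0) (h : ∀ i j, co hdet i j P ≠ 0 → j = 0) :
    ∃ q0 : ZMod p × ZMod p, q0 ≠ 0 ∧ ∀ q, P (q + q0) = P q := by
  have hp : 2 ≤ p := (Fact.out : p.Prime).two_le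
  set G : Polynomial k := ∑ i ∈ range p, Polynomial.C (co hdet i 0 P) * Polynomial.X ^ i with hG
  have hPG : ∀ q, P q = G.eval (lin a b q) := by
    intro q
    conv_lhs => rw [expand hdet P]
    rw [Finset.sum_apply, hG, Polynomial.eval_finsetSum]
    refine Finset.sum_congr rfl fun i _ => ?_
    rw [Finset.sum_apply, Finset.sum_eq_single 0]
    · simp [e]
    · intro j _ hj
      have : co hdet i j P = 0 := by
        by_contra hne; exact hj (h i j hne)
      rw [this, zero_smul]; rfl
    · intro hn; exact absurd (Finset.mem_range.2 (by omega)) hn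
  have hG0 : G ≠ 0 := by
    intro h0
    apply hP
    funext q
    rw [hPG, h0, Polynomial.eval_zero]; rfl
  have hGd : G.natDegree ≤ p - 1 := by
    rw [hG]
    refine Polynomial.natDegree_sum_le_of_forall_le _ _ fun i hi => ?_
    refine (Polynomial.natDegree_C_mul_X_pow_le _ _).trans ?_
    have := Finset.mem_range.1 hi
    omega
  by_cases hinj : Function.Injective (lin a b : ZMod p × ZMod p → k)
  · exfalso
    have h1 : G * G.comp (-Polynomial.X) = 0 := by
      refine Polynomial.eq_zero_of_natDegree_lt_card_of_eval_eq_zero _ hinj (fun q => ?_) ?_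
      · rw [Polynomial.eval_mul, Polynomial.eval_comp, Polynomial.eval_neg, Polynomial.eval_X,
          ← lin_neg, ← hPG, ← hPG, hz]
      · refine lt_of_le_of_lt Polynomial.natDegree_mul_le ?_
        have h2 : (G.comp (-Polynomial.X)).natDegree ≤ p - 1 := by
          refine (Polynomial.natDegree_comp_le).trans ?_
          rw [Polynomial.natDegree_neg, Polynomial.natDegree_X, mul_one]
          exact hGd
        rw [Fintype.card_prod, ZMod.card]
        have : 2 * p ≤ p * p := Nat.mul_le_mul_right _ hp
        omega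
    rcases mul_eq_zero.1 h1 with h2 | h2
    · exact hG0 h2
    · apply hG0
      have h3 : (G.comp (-Polynomial.X)).comp (-Polynomial.X) = G := by
        rw [Polynomial.comp_assoc]; simp
      rw [← h3, h2, Polynomial.zero_comp]
  · rw [Function.Injective] at hinj
    push Not at hinj
    obtain ⟨q, r, hqr, hne⟩ := hinj
    refine ⟨q - r, sub_ne_zero.2 hne, fun x => ?_⟩
    have h1 : (lin a b (q - r) : k) = 0 := by
      rw [sub_eq_add_neg, lin_add, lin_neg, hqr, add_neg_cancel]
    rw [hPG, hPG, lin_add, h1, add_zero]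

theorem of_top {a b c d : k} (hdet : a * d - b * c ≠ 0) (P : ZMod p × ZMod p → k)
    (hz : ∀ q, P q * P (-q) = 0) (hV : Module.finrank k (V P) ≤ p) {n : ℕ}
    (hdeg : ∀ i j, co hdet i j P ≠ 0 → i + j ≤ n) {i0 j0 : ℕ} (h0 : co hdet i0 j0 P ≠ 0)
    (hn0 : i0 + j0 = n) (hn : co hdet 0 n P = 0) :
    ∃ q0 : ZMod p × ZMod p, q0 ≠ 0 ∧ ∀ q, P (q + q0) = P q := by
  have hp : 2 ≤ p := (Fact.out : p.Prime).two_le
  obtain ⟨i1, j1, h1, hmax⟩ := exists_max hdet (fun i j => p * 1 * i + (p * 1 + 1) * j) h0
  have hax := axis hdet (A := 1) (B := 1) one_pos one_pos (by omega) (by nlinarith) P hz hV h1 hmax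
  have hlt1 := lt_of_co hdet h1
  have hlt0 := lt_of_co hdet h0
  have hsum : i1 + j1 = n := by
    have h2 := hmax i0 j0 h0
    have h3 := hdeg i1 j1 h1
    by_contra hne
    have h4 : i1 + j1 + 1 ≤ n := by omega
    have h5 := Nat.mul_le_mul_left p h4
    nlinarith
  have hj1 : j1 = 0 := by
    rcases hax with h | h
    · exfalso
      have : j1 = n := by omega
      rw [h.1, this] at h1
      exact h1 hn
    · exact h.1
  subst hj1
  have hi1 : i1 = n := by omega
  subst hi1
  refine final_one hdet P ?_ hz (only_first hdet P hz hV h1 ?_)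
  · rintro rfl; exact h0 (map_zero _)
  · intro i j hij hne
    have h2 := hmax i j hij
    have h3 := hdeg i j hij
    rcases Nat.lt_or_ge (i + j) i1 with h4 | h4
    · exact h4
    · exfalso
      have h5 : i + j = i1 := le_antisymm h3 h4
      have h6 : j = 0 := by
        rw [← h5] at h2
        nlinarith
      apply hne
      rw [h6] at h5 ⊢
      rw [← h5, add_zero]

theorem closed_case [IsAlgClosed k] (P : ZMod p × ZMod p → k) (hP : P ≠ 0)
    (hz : ∀ q, P q * P (-q) = 0) (hV : Module.finrank k (V P) ≤ p) :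
    ∃ q0 : ZMod p × ZMod p, q0 ≠ 0 ∧ ∀ q, P (q + q0) = P q := by
  have hp : 2 ≤ p := (Fact.out : p.Prime).two_le
  have hdet : (1 : k) * 1 - 0 * 0 ≠ 0 := by simp
  obtain ⟨i0, j0, h0⟩ : ∃ i j, co hdet i j P ≠ 0 := by
    by_contra hcon
    push Not at hcon
    apply hP
    rw [expand hdet P]
    exact Finset.sum_eq_zero fun i _ => Finset.sum_eq_zero fun j _ => by rw [hcon, zero_smul]
  obtain ⟨i1, j1, h1, hmax⟩ := exists_max hdet (fun i j => p * 1 * i + (p * 1 + 1) * j) h0
  have hax := axis hdet (A := 1) (B := 1) one_pos one_pos (by omega) (by nlinarith) P hz hV h1 hmax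
  have hlt1 := lt_of_co hdet h1
  obtain ⟨n, hn⟩ : ∃ n, n = i1 + j1 := ⟨_, rfl⟩
  have hnp : n < p := by rcases hax with h | h <;> omega
  have hn1 : 0 < n := by rcases hax with h | h <;> omega
  have hdeg : ∀ i j, co hdet i j P ≠ 0 → i + j ≤ n := by
    intro i j hij
    have h2 := hmax i j hij
    by_contra hne
    have h4 : n + 1 ≤ i + j := by omega
    have h5 := Nat.mul_le_mul_left p h4
    rw [hn] at h5
    nlinarith
  by_cases hc : co hdet n 0 P = 0
  · -- swap the coordinates
    have hdet' : (0 : k) * 0 - 1 * 1 ≠ 0 := by simp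
    have hswap : ∀ i j, i < p → j < p → co hdet' i j P = co hdet j i P := by
      intro i j hi hj
      conv_lhs => rw [expand hdet P]
      have hee : ∀ i j, (e 1 0 0 1 i j : ZMod p × ZMod p → k) = e 0 1 1 0 j i := by
        intro i j; funext q; simp only [e]; ring
      rw [map_sum, Finset.sum_eq_single j, map_sum, Finset.sum_eq_single i, map_smul, hee,
        co_e hdet' hi hj hi hj, if_pos ⟨rfl, rfl⟩, smul_eq_mul, mul_one]
      · intro i' hi' hne
        rw [map_smul, hee, co_e hdet' hi hj (Finset.mem_range.1 hi') hj,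
          if_neg (fun h' => hne h'.1), smul_zero]
      · intro hn; exact absurd (Finset.mem_range.2 hi) hn
      · intro j' hj' hne
        rw [map_sum]
        refine Finset.sum_eq_zero fun i' hi' => ?_
        rw [map_smul, hee, co_e hdet' hi hj (Finset.mem_range.1 hi') (Finset.mem_range.1 hj'),
          if_neg (fun h' => hne h'.2), smul_zero]
      · intro hn; exact absurd (Finset.mem_range.2 hj) hn
    refine of_top hdet' P hz hV (n := n) ?_ (i0 := j1) (j0 := i1) ?_ (by omega) ?_
    · intro i j hij
      have h2 := lt_of_co hdet' hij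
      rw [hswap i j h2.1 h2.2] at hij
      have := hdeg j i hij
      omega
    · rw [hswap j1 i1 hlt1.2 hlt1.1]; exact h1
    · rw [hswap 0 n (by omega) hnp]; exact hc
  · -- a root
    set f : Polynomial k := ∑ i ∈ range (n + 1),
      Polynomial.C (co hdet i (n - i) P) * Polynomial.X ^ i with hf
    have hfn : f.coeff n = co hdet n 0 P := by
      rw [hf, Polynomial.finsetSum_coeff, Finset.sum_eq_single n]
      · rw [Polynomial.coeff_C_mul_X_pow, if_pos rfl, Nat.sub_self]
      · intro i _ hi
        rw [Polynomial.coeff_C_mul_X_pow, if_neg (Ne.symm hi)]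
      · intro h; exact absurd (Finset.mem_range.2 (Nat.lt_succ_self n)) h
    have hfd : f.degree ≠ 0 := by
      intro h
      have h2 := Polynomial.le_degree_of_ne_zero (p := f) (n := n) (by rw [hfn]; exact hc)
      rw [h] at h2
      have : n ≤ 0 := by exact_mod_cast h2
      omega
    obtain ⟨t, ht⟩ := IsAlgClosed.exists_root f hfd
    have hdet' : (1 : k) * 1 - (-t) * 0 ≠ 0 := by simp
    have hbin : ∀ i j u v : ℕ, i + j < p → u < p → v < p →
        co hdet' u v (e 1 0 0 1 i j : ZMod p × ZMod p → k)
          = if u + v = i + j ∧ u ≤ i then t ^ (i - u) * (i.choose u : k) else 0 := by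
      intro i j u v hij hu hv
      have h2 : (e 1 0 0 1 i j : ZMod p × ZMod p → k)
          = ∑ m ∈ range (i + 1), (t ^ (i - m) * (i.choose m : k)) •
            e 1 (-t) 0 1 m (i - m + j) := by
        funext q
        rw [Finset.sum_apply, e]
        have h3 : (lin 1 0 q : k) = lin 1 (-t) q + t * lin 0 1 q := by
          simp only [lin]; ring
        rw [h3, add_pow, Finset.sum_mul]
        refine Finset.sum_congr rfl fun m _ => ?_
        rw [Pi.smul_apply, smul_eq_mul, e, mul_pow, pow_add]
        ring
      rw [h2, map_sum]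
      split_ifs with h
      · rw [Finset.sum_eq_single u, map_smul, co_e hdet' hu hv (by omega) (by omega),
          if_pos ⟨rfl, by omega⟩, smul_eq_mul, mul_one]
        · intro m hm hne
          rw [Finset.mem_range] at hm
          rw [map_smul, co_e hdet' hu hv (by omega) (by omega), if_neg (fun h' => hne h'.1),
            smul_zero]
        · intro hn; exact absurd (Finset.mem_range.2 (by omega)) hn
      · refine Finset.sum_eq_zero fun m hm => ?_
        rw [Finset.mem_range] at hm
        rw [map_smul, co_e hdet' hu hv (by omega) (by omega), if_neg, smul_zero]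
        rintro ⟨rfl, h'⟩
        omega
    have hco : ∀ u v : ℕ, u < p → v < p → co hdet' u v P
        = ∑ i ∈ range p, ∑ j ∈ range p, if u + v = i + j ∧ u ≤ i then
          co hdet i j P * (t ^ (i - u) * (i.choose u : k)) else 0 := by
      intro u v hu hv
      conv_lhs => rw [expand hdet P]
      rw [map_sum]
      refine Finset.sum_congr rfl fun i _ => ?_
      rw [map_sum]
      refine Finset.sum_congr rfl fun j _ => ?_
      rw [map_smul, smul_eq_mul]
      by_cases h2 : co hdet i j P = 0
      · rw [h2]; simp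
      · rw [hbin i j u v (lt_of_le_of_lt (hdeg i j h2) hnp) hu hv]
        split_ifs
        · rfl
        · rw [mul_zero]
    refine of_top hdet' P hz hV (n := n) ?_ (i0 := n) (j0 := 0) ?_ (by omega) ?_
    · intro u v huv
      have h2 := lt_of_co hdet' huv
      by_contra hne
      apply huv
      rw [hco u v h2.1 h2.2]
      refine Finset.sum_eq_zero fun i _ => Finset.sum_eq_zero fun j _ => ?_
      split_ifs with h3
      · have : co hdet i j P = 0 := by
          by_contra h4
          have := hdeg i j h4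
          omega
        rw [this, zero_mul]
      · rfl
    · rw [hco n 0 hnp (by omega), Finset.sum_eq_single n, Finset.sum_eq_single 0, if_pos (by omega)]
      · simpa using hc
      · intro j _ hj
        rw [if_neg (by omega)]
      · intro h; exact absurd (Finset.mem_range.2 (by omega)) h
      · intro i _ hi
        refine Finset.sum_eq_zero fun j _ => ?_
        rw [if_neg (by omega)]
      · intro h; exact absurd (Finset.mem_range.2 hnp) h
    · rw [hco 0 n (by omega) hnp]
      have h2 : Polynomial.eval t f = 0 := ht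
      rw [hf, Polynomial.eval_finsetSum] at h2
      refine Eq.trans ?_ h2
      rw [← Finset.sum_subset (Finset.range_subset_range.2 (by omega : n + 1 ≤ p))]
      · refine Finset.sum_congr rfl fun i hi => ?_
        rw [Finset.mem_range] at hi
        rw [Finset.sum_eq_single (n - i), if_pos (by omega)]
        · simp
        · intro j _ hj
          rw [if_neg (by omega)]
        · intro h; exact absurd (Finset.mem_range.2 (by omega)) h
      · intro i _ hi
        rw [Finset.mem_range] at hi
        refine Finset.sum_eq_zero fun j _ => ?_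
        rw [if_neg (by omega)]

end CP

/-- A nonzero function `P` on `(ZMod p) ^ 2` over a field of characteristic `p` whose translates
span a space of dimension at most `p` and with `P q * P (-q) = 0` for all `q` is invariant under
a nonzero translation. -/
theorem translate_invariant {k : Type*} [Field k] {p : ℕ} [Fact p.Prime] [CharP k p] (hp : p ≠ 2)
    (P : ZMod p × ZMod p → k) (hP : P ≠ 0) (hz : ∀ q, P q * P (-q) = 0)
    (hr : Module.finrank k (Submodule.span k
      (Set.range fun q : ZMod p × ZMod p => fun x : ZMod p × ZMod p => P (x + q))) ≤ p) :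
    ∃ q0 : ZMod p × ZMod p, q0 ≠ 0 ∧ ∀ q, P (q + q0) = P q := by
  have _ := hp
  let K := AlgebraicClosure k
  have : CharP K p := charP_of_injective_algebraMap (algebraMap k K).injective p
  set P' : ZMod p × ZMod p → K := fun q => algebraMap k K (P q) with hP'
  have hP0 : P' ≠ 0 := by
    intro h
    apply hP
    funext q
    have := congrFun h q
    simpa [hP'] using this
  have hz' : ∀ q, P' q * P' (-q) = 0 := by
    intro q
    simp only [hP']
    rw [← map_mul, hz, map_zero]
  have hV : Module.finrank K (CP.V P') ≤ p := by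
    refine le_trans ?_ hr
    set W := Submodule.span k
      (Set.range fun q : ZMod p × ZMod p => fun x : ZMod p × ZMod p => P (x + q)) with hW
    let b := Module.finBasis k W
    have h1 : CP.V P' ≤ Submodule.span K (Set.range fun i : Fin (Module.finrank k W) =>
        fun x : ZMod p × ZMod p => algebraMap k K ((b i : ZMod p × ZMod p → k) x)) := by
      rw [CP.V, Submodule.span_le]
      rintro _ ⟨q, rfl⟩
      have h2 : (fun x : ZMod p × ZMod p => P (x + q)) ∈ W := Submodule.subset_span ⟨q, rfl⟩
      have h3 : (fun x : ZMod p × ZMod p => P' (x + q))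
          = ∑ i, algebraMap k K (b.repr ⟨_, h2⟩ i) •
            fun x : ZMod p × ZMod p => algebraMap k K ((b i : ZMod p × ZMod p → k) x) := by
        have h4 := b.sum_repr ⟨_, h2⟩
        have h5 := congrArg Subtype.val h4
        funext x
        have h6 := congrFun h5 x
        simp only [Submodule.coe_sum, Finset.sum_apply, Submodule.coe_smul, Pi.smul_apply,
          smul_eq_mul] at h6
        simp only [hP', Finset.sum_apply, Pi.smul_apply, smul_eq_mul]
        rw [← h6, map_sum]
        simp only [map_mul]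
      change (fun x : ZMod p × ZMod p => P' (x + q)) ∈ _
      rw [h3]
      exact Submodule.sum_mem _ fun i _ => Submodule.smul_mem _ _ (Submodule.subset_span ⟨i, rfl⟩)
    refine (Submodule.finrank_mono h1).trans ?_
    refine (finrank_range_le_card _).trans ?_
    simp
  obtain ⟨q0, h0, h⟩ := CP.closed_case P' hP0 hz' hV
  refine ⟨q0, h0, fun q => ?_⟩
  exact (algebraMap k K).injective (h q)

end Pool.Agent.SicFin
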