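import Mathlib

/-!
# Chebotarev's uncertainty principle for `ZMod p` over fields of characteristic zero

* `cheb` : if `x ≠ 0` then `p + 1 ≤ #supp x + #supp (dft ζ x)`;
* `cheb_val` : the same for the sets where the valuation of `x`, `dft ζ x` is maximal, for a
  valuation subring with residue field of characteristic `0`.
-/

set_option autoImplicit false

namespace Pool.Agent.Lib.MP_d0f9e0_co.SicFin

open Polynomial Finset

variable {p : ℕ} [hp : Fact p.Prime]

/-- The discrete Fourier transform. -/
def dft {K : Type*} [Field K] (ζ : K) (x : ZMod p → K) (b : ZMod p) : K :=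
  ∑ k : ZMod p, x k * ζ ^ (b * k).val

/-- The polynomial with coefficients `c`. -/
noncomputable def gp {R : Type*} [CommRing R] (c : ZMod p → R) : R[X] :=
  ∑ k : ZMod p, C (c k) * X ^ k.val

lemma gp_coeff {R : Type*} [CommRing R] (c : ZMod p → R) (k : ZMod p) :
    (gp c).coeff k.val = c k := by
  unfold gp
  rw [finsetSum_coeff, Finset.sum_eq_single k]
  · simp
  · intro j _ hj
    rw [coeff_C_mul, coeff_X_pow, if_neg, mul_zero]
    exact fun h => hj (ZMod.val_injective p h.symm)
  · simp

lemma gp_ne_zero {R : Type*} [CommRing R] {c : ZMod p → R} (hc : c ≠ 0) : gp c ≠ 0 := by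
  intro h
  apply hc
  funext k
  rw [← gp_coeff c k, h]; simp

lemma gp_map {R S : Type*} [CommRing R] [CommRing S] (f : R →+* S) (c : ZMod p → R) :
    (gp c).map f = gp (fun k => f (c k)) := by
  unfold gp
  simp [Polynomial.map_sum]

lemma gp_eval {R : Type*} [CommRing R] (c : ZMod p → R) (a : R) :
    (gp c).eval a = ∑ k : ZMod p, c k * a ^ k.val := by
  unfold gp
  simp [eval_finsetSum]

lemma gp_deriv {R : Type*} [CommRing R] (c : ZMod p → R) (a : R) :
    gp (fun k => c k * ((k.val : R) - a)) = X * derivative (gp c) - C a * gp c := by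
  unfold gp
  rw [derivative_sum, Finset.mul_sum, Finset.mul_sum, ← Finset.sum_sub_distrib]
  apply Finset.sum_congr rfl
  intro k _
  have h1 : X * derivative (C (c k) * X ^ k.val) = C (c k * (k.val : R)) * X ^ k.val := by
    rw [derivative_C_mul_X_pow]
    rcases Nat.eq_zero_or_pos k.val with h0 | h0
    · rw [h0]; simp
    · calc X * (C (c k * (k.val : R)) * X ^ (k.val - 1))
          = C (c k * (k.val : R)) * (X ^ (k.val - 1) * X) := by ring
        _ = C (c k * (k.val : R)) * X ^ k.val := by
          rw [← pow_succ, Nat.sub_add_cancel h0]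
  rw [h1]
  simp only [mul_sub, C_sub, C_mul]
  ring

/-- In characteristic `p` a polynomial of degree `< p` divisible by `(X - 1)^t` has more than `t`
non-zero coefficients. -/
lemma lt_card_supp {k : Type*} [Field k] [DecidableEq k] [CharP k p] (n : ℕ) :
    ∀ (c : ZMod p → k) (t : ℕ), (univ.filter fun j => c j ≠ 0).card = n → c ≠ 0 →
      (X - 1 : k[X]) ^ t ∣ gp c → t < n := by
  induction n with
  | zero =>
    intro c t hn hc _
    exfalso
    apply hc
    funext j
    rw [Finset.card_eq_zero, Finset.filter_eq_empty_iff] at hn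
    have := hn (Finset.mem_univ j)
    simpa using this
  | succ n ih =>
    intro c t hn hc hdvd
    rcases Nat.eq_zero_or_pos t with ht | ht
    · omega
    have hex : ∃ k₁, c k₁ ≠ 0 := by
      by_contra hall
      push Not at hall
      exact hc (funext hall)
    obtain ⟨k₁, hk₁⟩ := hex
    set c' : ZMod p → k := fun j => c j * ((j.val : k) - (k₁.val : k)) with hc'
    have hinj : ∀ j : ZMod p, (j.val : k) - (k₁.val : k) = 0 → j = k₁ := by
      intro j hj
      have h1 : (j.val : k) = (k₁.val : k) := sub_eq_zero.mp hj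
      have h2 := (CharP.natCast_eq_natCast k p).mp h1
      have h3 : ((j.val : ℕ) : ZMod p) = ((k₁.val : ℕ) : ZMod p) :=
        (ZMod.natCast_eq_natCast_iff _ _ _).mpr h2
      simpa using h3
    have hsupp : (univ.filter fun j => c' j ≠ 0) = (univ.filter fun j => c j ≠ 0).erase k₁ := by
      ext j
      simp only [Finset.mem_filter, Finset.mem_univ, true_and, Finset.mem_erase, hc', ne_eq,
        mul_eq_zero, not_or]
      constructor
      · rintro ⟨h1, h2⟩
        exact ⟨fun e => h2 (by rw [e, sub_self]), h1⟩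
      · rintro ⟨h1, h2⟩
        exact ⟨h2, fun e => h1 (hinj j e)⟩
    have hcard : (univ.filter fun j => c' j ≠ 0).card = n := by
      rw [hsupp, Finset.card_erase_of_mem (by simp [hk₁]), hn]; simp
    have hdvd' : (X - 1 : k[X]) ^ (t - 1) ∣ gp c' := by
      rw [hc', gp_deriv]
      apply dvd_sub
      · exact Dvd.dvd.mul_left (pow_sub_one_dvd_derivative_of_pow_dvd hdvd) _
      · exact Dvd.dvd.mul_left ((pow_dvd_pow _ (Nat.sub_le t 1)).trans hdvd) _
    by_cases h0 : c' = 0
    · -- support of `c` is `{k₁}`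
      exfalso
      have hz : ∀ j, j ≠ k₁ → c j = 0 := by
        intro j hj
        have h1 : c' j = 0 := by rw [h0]; rfl
        rcases mul_eq_zero.mp h1 with h2 | h2
        · exact h2
        · exact absurd (hinj j h2) hj
      have h1 : (X - 1 : k[X]) ∣ gp c := (dvd_pow_self _ (by omega)).trans hdvd
      have h2 : (gp c).eval 1 = 0 := by
        obtain ⟨q, hq⟩ := h1
        rw [hq]; simp
      rw [gp_eval, Finset.sum_eq_single k₁] at h2
      · simp only [one_pow, mul_one] at h2; exact hk₁ h2
      · intro j _ hj; rw [hz j hj, zero_mul]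
      · simp
    · have := ih c' (t - 1) hcard h0 hdvd'
      omega

/-- A valuation subring of a field of characteristic zero above `p`. -/
lemma exists_above (p : ℕ) [hp : Fact p.Prime] (K : Type*) [Field K] [CharZero K] :
    ∃ O : ValuationSubring K, O.valuation (p : K) < 1 := by
  let A : Subring K := (Int.castRingHom K).range
  have hpA : (p : K) ∈ A := ⟨p, by simp⟩
  let I : Ideal A := Ideal.span {(⟨(p : K), hpA⟩ : A)}
  have hI : I ≠ ⊤ := by
    intro h
    have h1 : (1 : A) ∈ I := by rw [h]; trivial
    rw [Ideal.mem_span_singleton] at h1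
    obtain ⟨⟨z, n, hn⟩, hz⟩ := h1
    have h2 : (1 : K) = (p : K) * z := by
      have := congrArg (Subtype.val) hz
      simpa using this
    rw [← hn] at h2
    have h3 : (1 : ℤ) = (p : ℤ) * n := by
      have h4 : ((1 : ℤ) : K) = (((p : ℤ) * n : ℤ) : K) := by
        push_cast
        simpa using h2
      exact_mod_cast h4
    have h5 : (p : ℤ) ∣ 1 := ⟨n, h3⟩
    have h6 : (p : ℕ) ∣ 1 := by exact_mod_cast h5
    exact hp.out.one_lt.ne' (Nat.dvd_one.mp h6)
  obtain ⟨O, _, hO⟩ := Ideal.image_subset_nonunits_valuationSubring I hI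
  refine ⟨O, ?_⟩
  rw [← ValuationSubring.mem_nonunits_iff]
  apply hO
  exact ⟨⟨(p : K), hpA⟩, Ideal.subset_span rfl, rfl⟩

lemma val_zeta {K : Type*} [Field K] (O : ValuationSubring K) {ζ : K} {n : ℕ} (hn : n ≠ 0)
    (hζ : ζ ^ n = 1) : O.valuation ζ = 1 := by
  have h : O.valuation ζ ^ n = 1 := by rw [← map_pow, hζ, map_one]
  exact (pow_eq_one_iff_of_nonneg zero_le hn).mp h


lemma zeta_pow_mul {K : Type*} [Monoid K] {ζ : K} (hζ : ζ ^ p = 1) (b k : ZMod p) :
    ζ ^ (b * k).val = (ζ ^ b.val) ^ k.val := by
  rw [ZMod.val_mul, ← pow_mul]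
  exact (pow_eq_pow_mod _ hζ).symm

/-- The main step: an integral vector with a unit coordinate. -/
lemma card_zeros_lt {K : Type*} [Field K] (O : ValuationSubring K)
    (hO : O.valuation (p : K) < 1) {ζ : K} (hζ : IsPrimitiveRoot ζ p) {y : ZMod p → K}
    (hy : ∀ k, y k ∈ O) {k₀ : ZMod p} (hk₀ : y k₀ = 1) (Z : Finset (ZMod p))
    (hZ : ∀ b ∈ Z, dft ζ y b = 0) (S : Finset (ZMod p)) (hS : ∀ k, y k ≠ 0 → k ∈ S) :
    Z.card < S.card := by
  classical
  have hp0 : p ≠ 0 := hp.out.ne_zero
  have hζO : ζ ∈ O := by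
    rw [← ValuationSubring.valuation_le_one_iff, val_zeta O hp0 hζ.pow_eq_one]
  set z : O := ⟨ζ, hζO⟩ with hz
  have hzp : z ^ p = 1 := by
    apply Subtype.ext
    simpa using hζ.pow_eq_one
  set c : ZMod p → O := fun k => ⟨y k, hy k⟩ with hc
  have hcne : c ≠ 0 := by
    intro h
    have h1 := congrArg Subtype.val (congrFun h k₀)
    simp only [hc] at h1
    rw [hk₀] at h1
    simp at h1
  -- the residue field
  let κ := IsLocalRing.ResidueField O
  let res := IsLocalRing.residue O
  have : CharP κ p := by
    rw [CharP.charP_iff_prime_eq_zero hp.out]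
    have h1 : ((p : O) : O) ∈ IsLocalRing.maximalIdeal O := by
      rw [ValuationSubring.valuation_lt_one_iff]
      simpa using hO
    have h2 : res (p : O) = 0 := (IsLocalRing.residue_eq_zero_iff _).mpr h1
    simpa using h2
  have hres1 : res z = 1 := by
    have h1 : (res z - 1) ^ p = 0 := by
      rw [sub_pow_char, ← map_pow, hzp, map_one, one_pow, sub_self]
    have h2 := (pow_eq_zero_iff hp0).mp h1
    exact sub_eq_zero.mp h2
  -- divisibility
  have hroot : ∀ b ∈ Z, (gp c).eval (z ^ b.val) = 0 := by
    intro b hb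
    rw [gp_eval]
    apply Subtype.ext
    have h1 := hZ b hb
    unfold dft at h1
    have h2 : ((∑ k, c k * (z ^ b.val) ^ k.val : O) : K) = ∑ k, y k * ζ ^ (b * k).val := by
      push_cast
      apply Finset.sum_congr rfl
      intro k _
      rw [zeta_pow_mul hζ.pow_eq_one]
    rw [h2, h1]
    rfl
  have hinj : Set.InjOn (fun b : ZMod p => z ^ b.val) (Z : Set (ZMod p)) := by
    intro a _ b _ hab
    have h1 : ζ ^ a.val = ζ ^ b.val := by
      have := congrArg Subtype.val hab
      simpa using this
    exact ZMod.val_injective p (hζ.pow_inj (ZMod.val_lt a) (ZMod.val_lt b) h1)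
  have hdvd : (∏ b ∈ Z, (X - C (z ^ b.val))) ∣ gp c := by
    have h1 : (Z.val.map fun b => z ^ b.val) ≤ (gp c).roots := by
      rw [Multiset.le_iff_subset]
      · intro a ha
        obtain ⟨b, hb, rfl⟩ := Multiset.mem_map.mp ha
        rw [mem_roots (gp_ne_zero hcne)]
        exact hroot b hb
      · exact Multiset.Nodup.map_on (fun a ha b hb hab => hinj ha hb hab) Z.nodup
    have h2 := (Multiset.prod_X_sub_C_dvd_iff_le_roots (gp_ne_zero hcne) _).mpr h1
    rw [Multiset.map_map] at h2
    exact h2
  have hdvd2 : (X - 1 : κ[X]) ^ Z.card ∣ gp (fun k => res (c k)) := by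
    have h1 := Polynomial.map_dvd res hdvd
    rw [gp_map, Polynomial.map_prod] at h1
    convert h1 using 1
    rw [Finset.prod_congr rfl (g := fun _ => (X - 1 : κ[X]))]
    · rw [Finset.prod_const]
    · intro b _
      rw [Polynomial.map_sub, map_X, map_C, map_pow, hres1, one_pow, C_1]
  have hcne' : (fun k => res (c k)) ≠ 0 := by
    intro h
    have h1 := congrFun h k₀
    have h2 : c k₀ = 1 := by
      apply Subtype.ext
      simp [hc, hk₀]
    simp only [h2, map_one, Pi.zero_apply] at h1
    exact one_ne_zero h1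
  have hlt := lt_card_supp _ (fun k => res (c k)) Z.card rfl hcne' hdvd2
  refine hlt.trans_le (Finset.card_le_card ?_)
  intro k hk
  rw [Finset.mem_filter] at hk
  apply hS
  intro h0
  apply hk.2
  have : c k = 0 := Subtype.ext (by simp [hc, h0])
  rw [this, map_zero]

lemma dft_smul {K : Type*} [Field K] (ζ : K) (x : ZMod p → K) (a : K) (b : ZMod p) :
    dft ζ (fun k => a * x k) b = a * dft ζ x b := by
  unfold dft
  rw [Finset.mul_sum]
  exact Finset.sum_congr rfl fun k _ => by ring

open scoped Classical in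
/-- **Chebotarev's uncertainty principle** over any field of characteristic zero. -/
theorem cheb {K : Type*} [Field K] [CharZero K] {ζ : K} (hζ : IsPrimitiveRoot ζ p)
    {x : ZMod p → K} (hx : x ≠ 0) :
    p + 1 ≤ (univ.filter fun k => x k ≠ 0).card + (univ.filter fun b => dft ζ x b ≠ 0).card := by
  obtain ⟨O, hO⟩ := exists_above p K
  obtain ⟨k₀, _, hk₀⟩ := Finset.exists_max_image (univ : Finset (ZMod p))
    (fun k => O.valuation (x k)) Finset.univ_nonempty
  have hk0 : x k₀ ≠ 0 := by
    intro h
    apply hx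
    funext k
    have h1 := hk₀ k (Finset.mem_univ k)
    rw [h, map_zero] at h1
    have h2 := le_antisymm h1 zero_le
    simpa using h2
  have hy : ∀ k, (x k₀)⁻¹ * x k ∈ O := by
    intro k
    rw [← ValuationSubring.valuation_le_one_iff, map_mul, map_inv₀]
    have h1 := hk₀ k (Finset.mem_univ k)
    have h2 : O.valuation (x k₀) ≠ 0 := by simpa using hk0
    calc (O.valuation (x k₀))⁻¹ * O.valuation (x k)
        ≤ (O.valuation (x k₀))⁻¹ * O.valuation (x k₀) := mul_le_mul_right h1 _
      _ = 1 := inv_mul_cancel₀ h2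
  have h1 := card_zeros_lt O hO hζ (y := fun k => (x k₀)⁻¹ * x k) hy (k₀ := k₀)
    (inv_mul_cancel₀ hk0) (univ.filter fun b => ¬ dft ζ x b ≠ 0) (by
      intro b hb
      rw [Finset.mem_filter, not_not] at hb
      rw [dft_smul, hb.2, mul_zero]) (univ.filter fun k => x k ≠ 0) (by
      intro k hk
      rw [Finset.mem_filter]
      exact ⟨Finset.mem_univ k, fun h => hk (by simp [h])⟩)
  have h2 := Finset.card_filter_add_card_filter_not (s := (univ : Finset (ZMod p)))
    (fun b => dft ζ x b ≠ 0)
  rw [Finset.card_univ, ZMod.card] at h2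
  omega

open scoped Classical in
/-- The uncertainty principle for the sets of maximal valuation, in residue characteristic `0`. -/
theorem cheb_val {K : Type*} [Field K] (O : ValuationSubring K)
    (hO : ∀ n : ℕ, n ≠ 0 → O.valuation (n : K) = 1) {ζ : K} (hζ : IsPrimitiveRoot ζ p)
    {x : ZMod p → K} (hx : x ≠ 0) :
    ∃ m : O.ValueGroup, m ≠ 0 ∧ (∀ k, O.valuation (x k) ≤ m) ∧
      (∀ b, O.valuation (dft ζ x b) ≤ m) ∧
      p + 1 ≤ (univ.filter fun k => O.valuation (x k) = m).card +
        (univ.filter fun b => O.valuation (dft ζ x b) = m).card := by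
  have hp0 : p ≠ 0 := hp.out.ne_zero
  obtain ⟨k₀, _, hk₀⟩ := Finset.exists_max_image (univ : Finset (ZMod p))
    (fun k => O.valuation (x k)) Finset.univ_nonempty
  have hk0 : x k₀ ≠ 0 := by
    intro h
    apply hx
    funext k
    have h1 := hk₀ k (Finset.mem_univ k)
    rw [h, map_zero] at h1
    have h2 := le_antisymm h1 zero_le
    simpa using h2
  have hv0 : O.valuation (x k₀) ≠ 0 := by simpa using hk0
  have hζO : ζ ∈ O := by
    rw [← ValuationSubring.valuation_le_one_iff, val_zeta O hp0 hζ.pow_eq_one]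
  set z : O := ⟨ζ, hζO⟩ with hz
  have hzp : z ^ p = 1 := by
    apply Subtype.ext
    simpa using hζ.pow_eq_one
  let κ := IsLocalRing.ResidueField O
  let res := IsLocalRing.residue O
  have hresn : ∀ n : ℕ, n ≠ 0 → (n : κ) ≠ 0 := by
    intro n hn h0
    have h1 : res (n : O) = 0 := by simpa using h0
    rw [IsLocalRing.residue_eq_zero_iff, ValuationSubring.valuation_lt_one_iff] at h1
    have h2 := hO n hn
    have h3 : O.valuation (((n : O) : O) : K) = O.valuation (n : K) := by simp
    rw [h3, h2] at h1
    exact lt_irrefl _ h1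
  have : CharZero κ := by
    refine ⟨fun a b hab => ?_⟩
    by_contra hne
    rcases lt_or_gt_of_ne hne with h | h
    · apply hresn (b - a) (by omega)
      have hab' : (a : κ) = (b : κ) := hab
      rw [Nat.cast_sub h.le, hab', sub_self]
    · apply hresn (a - b) (by omega)
      have hab' : (a : κ) = (b : κ) := hab
      rw [Nat.cast_sub h.le, hab', sub_self]
  have hres : IsPrimitiveRoot (res z) p := by
    have h1 : (res z) ^ p = 1 := by rw [← map_pow, hzp, map_one]
    have h2 : res z ≠ 1 := by
      intro h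
      have h3 : ∑ i ∈ Finset.range p, z ^ i = 0 := by
        apply Subtype.ext
        have := hζ.geom_sum_eq_zero hp.out.one_lt
        push_cast
        simpa using this
      have h4 := congrArg res h3
      rw [map_sum] at h4
      simp only [map_pow, h, one_pow, Finset.sum_const, Finset.card_range, nsmul_eq_mul,
        mul_one, map_zero] at h4
      exact hresn p hp0 h4
    have h3 := orderOf_eq_prime h1 h2
    have h4 := IsPrimitiveRoot.orderOf (res z)
    rwa [h3] at h4
  have hy : ∀ k, (x k₀)⁻¹ * x k ∈ O := by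
    intro k
    rw [← ValuationSubring.valuation_le_one_iff, map_mul, map_inv₀]
    have h1 := hk₀ k (Finset.mem_univ k)
    calc (O.valuation (x k₀))⁻¹ * O.valuation (x k)
        ≤ (O.valuation (x k₀))⁻¹ * O.valuation (x k₀) := mul_le_mul_right h1 _
      _ = 1 := inv_mul_cancel₀ hv0
  set c : ZMod p → O := fun k => ⟨(x k₀)⁻¹ * x k, hy k⟩ with hc
  have hdc : ∀ b, ∃ d : O, (d : K) = (x k₀)⁻¹ * dft ζ x b ∧
      res d = dft (res z) (fun k => res (c k)) b := by
    intro b
    refine ⟨∑ k : ZMod p, c k * z ^ (b * k).val, ?_, ?_⟩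
    · rw [← dft_smul]
      unfold dft
      push_cast
      rfl
    · unfold dft
      rw [map_sum]
      exact Finset.sum_congr rfl fun k _ => by rw [map_mul, map_pow]
  have hne : (fun k => res (c k)) ≠ 0 := by
    intro h
    have h1 := congrFun h k₀
    have h2 : c k₀ = 1 := by
      apply Subtype.ext
      simp [hc, hk0]
    simp only [h2, map_one, Pi.zero_apply] at h1
    exact one_ne_zero h1
  have hval : ∀ (d : O) (a : K), (d : K) = (x k₀)⁻¹ * a →
      (res d ≠ 0 ↔ O.valuation a = O.valuation (x k₀)) ∧ O.valuation a ≤ O.valuation (x k₀) := by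
    intro d a hd
    have h1 : O.valuation (d : K) = (O.valuation (x k₀))⁻¹ * O.valuation a := by
      rw [hd, map_mul, map_inv₀]
    have h2 : O.valuation (d : K) ≤ 1 := O.valuation_le_one d
    have h4 : O.valuation a = O.valuation (x k₀) * O.valuation (d : K) := by
      rw [h1, ← mul_assoc, mul_inv_cancel₀ hv0, one_mul]
    constructor
    · rw [ne_eq, IsLocalRing.residue_eq_zero_iff, ValuationSubring.valuation_lt_one_iff, not_lt]
      constructor
      · intro h3
        have h5 : O.valuation (d : K) = 1 := le_antisymm h2 h3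
        rw [h4, h5, mul_one]
      · intro h3
        rw [h1, h3, inv_mul_cancel₀ hv0]
    · rw [h4]
      calc O.valuation (x k₀) * O.valuation (d : K)
          ≤ O.valuation (x k₀) * 1 := mul_le_mul_right h2 _
        _ = O.valuation (x k₀) := mul_one _
  refine ⟨O.valuation (x k₀), hv0, fun k => hk₀ k (Finset.mem_univ k), ?_, ?_⟩
  · intro b
    obtain ⟨d, hd, _⟩ := hdc b
    exact (hval d _ hd).2
  · have h1 := cheb hres hne
    convert h1 using 2
    · congr 1
      apply Finset.filter_congr
      intro k _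
      exact ((hval (c k) (x k) rfl).1).symm
    · congr 1
      apply Finset.filter_congr
      intro b _
      obtain ⟨d, hd, hd2⟩ := hdc b
      rw [← hd2]
      exact ((hval d _ hd).1).symm

end Pool.Agent.Lib.MP_d0f9e0_co.SicFin
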