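import Mathlib

/-!
# Weyl-Heisenberg overlaps

Common definitions for the finiteness theorem for Weyl-Heisenberg covariant maximal equiangular
tight frames in prime dimension.
-/

namespace Pool.Agent.SicFin

variable {K : Type*} [Field K] {p : ℕ}

/-- The additive character `x ↦ ω ^ x` of `ZMod p` attached to a `p`-th root of unity. -/
def chi (om : K) (x : ZMod p) : K := om ^ x.val

/-- The Fourier transform `b ↦ ∑ r, x r * ω ^ (b r)`. -/
def ft [NeZero p] (om : K) (x : ZMod p → K) (b : ZMod p) : K := ∑ r, x r * chi om (b * r)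

/-- The overlap `A_{a,b} = ∑ r, f r * g (r + a) * ω ^ (b r)`. -/
def ov [NeZero p] (om : K) (f g : ZMod p → K) (a b : ZMod p) : K :=
  ft om (fun r => f r * g (r + a)) b

/-- The (complexified) equations of a Weyl-Heisenberg covariant maximal equiangular tight frame:
`A_{0,0} = 1` and `A_{a,b} A_{-a,-b} = ω ^ (-ab) / (p + 1)` for `(a,b) ≠ (0,0)`. -/
def IsSol [NeZero p] (om : K) (f g : ZMod p → K) : Prop :=
  ov om f g 0 0 = 1 ∧
    ∀ a b : ZMod p, (a ≠ 0 ∨ b ≠ 0) →
      ov om f g a b * ov om f g (-a) (-b) = chi om (-(a * b)) / ((p : K) + 1)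

end Pool.Agent.SicFin
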