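import Pool.Agent.Lib.MP_d0f9e0_co.Fin.Cheb
import Pool.Agent.Lib.MP_d0f9e0_co.Fin.Defs

/-!
# Chebotarev's uncertainty principle in the notation of `Fin/Defs.lean`
-/

set_option autoImplicit false

namespace Pool.Agent.SicFin

open Finset

private lemma cheb_ft_eq_dft {K : Type*} [Field K] {p : ℕ} [Fact p.Prime] (om : K) (x : ZMod p → K)
    (b : ZMod p) : ft om x b = Pool.Agent.Lib.MP_d0f9e0_co.SicFin.dft om x b := rfl

/-- MODULE 1: Chebotarev / uncertainty over any field of characteristic `0`. -/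
theorem cheb {k : Type*} [Field k] [CharZero k] {p : ℕ} [Fact p.Prime] {om : k}
    (hom : IsPrimitiveRoot om p) (x : ZMod p → k) (hx : x ≠ 0) :
    p + 1 ≤ {r : ZMod p | x r ≠ 0}.ncard + {b : ZMod p | ft om x b ≠ 0}.ncard := by
  classical
  have h := Pool.Agent.Lib.MP_d0f9e0_co.SicFin.cheb hom hx
  have h1 : {r : ZMod p | x r ≠ 0}.ncard = (univ.filter fun r => x r ≠ 0).card := by
    rw [← Set.ncard_coe_finset]; congr 1; ext r; simp
  have h2 : {b : ZMod p | ft om x b ≠ 0}.ncard = (univ.filter fun b =>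
      Pool.Agent.Lib.MP_d0f9e0_co.SicFin.dft om x b ≠ 0).card := by
    rw [← Set.ncard_coe_finset]; congr 1; ext b; simp [cheb_ft_eq_dft]
  rw [h1, h2]
  exact h

end Pool.Agent.SicFin
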