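import Mathlib

/-!
# Clock and shift (task Z2)
-/

open Matrix

namespace Pool.Agent.SicFin

/-- Unitary matrices preserve the inner product. -/
theorem cs_inner {p : ℕ} {U : Matrix (Fin p) (Fin p) ℂ} (hU : Uᴴ * U = 1) (u v : Fin p → ℂ) :
    star (U.mulVec u) ⬝ᵥ U.mulVec v = star u ⬝ᵥ v := by
  rw [star_mulVec, ← dotProduct_mulVec, mulVec_mulVec, hU, one_mulVec]

theorem cs_self_ne {p : ℕ} {v : Fin p → ℂ} (hv : v ≠ 0) : 0 < (star v ⬝ᵥ v).re := by
  have h : star v ⬝ᵥ v = ((∑ i, ‖v i‖ ^ 2 : ℝ) : ℂ) := by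
    simp only [dotProduct, Pi.star_apply, RCLike.star_def]
    push_cast
    refine Finset.sum_congr rfl fun i _ => ?_
    rw [Complex.conj_mul']
  rw [h, Complex.ofReal_re]
  obtain ⟨i, hi⟩ := Function.ne_iff.mp hv
  refine Finset.sum_pos' (fun i _ => by positivity) ⟨i, Finset.mem_univ i, ?_⟩
  have : 0 < ‖v i‖ := norm_pos_iff.2 hi
  positivity

theorem cs_normalise {p : ℕ} {v : Fin p → ℂ} (hv : v ≠ 0) :
    ∃ r : ℂ, r ≠ 0 ∧ star (r • v) ⬝ᵥ (r • v) = 1 := by
  have h0 := cs_self_ne hv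
  have h : star v ⬝ᵥ v = (((star v ⬝ᵥ v).re : ℝ) : ℂ) := by
    have h : star v ⬝ᵥ v = ((∑ i, ‖v i‖ ^ 2 : ℝ) : ℂ) := by
      simp only [dotProduct, Pi.star_apply, RCLike.star_def]
      push_cast
      refine Finset.sum_congr rfl fun i _ => ?_
      rw [Complex.conj_mul']
    rw [h, Complex.ofReal_re]
  set s := (star v ⬝ᵥ v).re with hs
  refine ⟨((Real.sqrt s)⁻¹ : ℝ), ?_, ?_⟩
  · have : Real.sqrt s ≠ 0 := (Real.sqrt_pos.2 h0).ne'
    exact_mod_cast inv_ne_zero this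
  · rw [star_smul, smul_dotProduct, dotProduct_smul, h, RCLike.star_def, Complex.conj_ofReal,
      smul_eq_mul, smul_eq_mul, ← Complex.ofReal_mul, ← Complex.ofReal_mul]
    have h1 : Real.sqrt s * Real.sqrt s = s := Real.mul_self_sqrt h0.le
    have h2 : Real.sqrt s ≠ 0 := (Real.sqrt_pos.2 h0).ne'
    have : (Real.sqrt s)⁻¹ * ((Real.sqrt s)⁻¹ * s) = 1 := by
      field_simp
      rw [sq, h1]
    rw [this, Complex.ofReal_one]

theorem cs_VU {p : ℕ} {U V : Matrix (Fin p) (Fin p) ℂ} {l : ℂ} (hUV : V * U = l • (U * V)) (k : ℕ) :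
    V * U ^ k = l ^ k • (U ^ k * V) := by
  induction k with
  | zero => simp
  | succ k ih =>
    rw [pow_succ, ← mul_assoc, ih, smul_mul_assoc, mul_assoc, hUV, mul_smul_comm, smul_smul,
      ← mul_assoc, pow_succ]

theorem cs_lp {p : ℕ} [Fact p.Prime] {U V : Matrix (Fin p) (Fin p) ℂ} (hV : Vᴴ * V = 1)
    (hUp : U ^ p = 1) {l : ℂ} (hUV : V * U = l • (U * V)) : l ^ p = 1 := by
  have h := cs_VU hUV p
  rw [hUp, mul_one, one_mul] at h
  have h2 : Vᴴ * V = l ^ p • (Vᴴ * V) := by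
    rw [← mul_smul_comm, ← h]
  rw [hV] at h2
  have hp : 0 < p := Nat.Prime.pos Fact.out
  have h3 := congrFun (congrFun h2 ⟨0, hp⟩) ⟨0, hp⟩
  simp at h3
  exact h3.symm

/-- A unit eigenvector of `U` for the eigenvalue `1`. -/
theorem cs_exists {p : ℕ} [Fact p.Prime] {U : Matrix (Fin p) (Fin p) ℂ}
    (hUp : U ^ p = 1) (htr : ∀ k, 0 < k → k < p → (U ^ k).trace = 0) :
    ∃ e : Fin p → ℂ, U.mulVec e = e ∧ star e ⬝ᵥ e = 1 := by
  have hp : 0 < p := Nat.Prime.pos Fact.out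
  set Q : Matrix (Fin p) (Fin p) ℂ := ∑ k ∈ Finset.range p, U ^ k with hQ
  have hQt : Q.trace = p := by
    rw [hQ, trace_sum, Finset.sum_eq_single 0]
    · simp
    · intro k hk hk0
      exact htr k (Nat.pos_of_ne_zero hk0) (Finset.mem_range.1 hk)
    · intro h; exact absurd (Finset.mem_range.2 hp) h
  have hUQ : U * Q = Q := by
    rw [hQ, Finset.mul_sum]
    simp_rw [← pow_succ']
    have h1 := Finset.sum_range_succ (fun k => U ^ k) p
    have h2 := Finset.sum_range_succ' (fun k => U ^ k) p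
    rw [h1, hUp, pow_zero] at h2
    exact (add_right_cancel h2).symm
  have hQ0 : Q ≠ 0 := by
    intro h
    rw [h, trace_zero] at hQt
    exact hp.ne' (by exact_mod_cast hQt.symm)
  obtain ⟨v, hv⟩ : ∃ v, Q.mulVec v ≠ 0 := by
    by_contra hcon
    push Not at hcon
    apply hQ0
    ext i j
    have := congrFun (hcon (Pi.single j 1)) i
    simpa using this
  obtain ⟨r, hr, hr1⟩ := cs_normalise hv
  refine ⟨r • Q.mulVec v, ?_, hr1⟩
  rw [mulVec_smul, mulVec_mulVec, hUQ]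

theorem cs_ortho {p : ℕ} {U : Matrix (Fin p) (Fin p) ℂ} (hU : Uᴴ * U = 1) {a b : ℂ}
    {u v : Fin p → ℂ} (hu : U.mulVec u = a • u) (hv : U.mulVec v = b • v) (hab : star a * b ≠ 1) :
    star u ⬝ᵥ v = 0 := by
  have h := cs_inner hU u v
  rw [hu, hv, star_smul, smul_dotProduct, dotProduct_smul, smul_eq_mul, smul_eq_mul,
    ← mul_assoc] at h
  by_contra hc
  apply hab
  have : (star a * b - 1) * (star u ⬝ᵥ v) = 0 := by rw [sub_mul, h, one_mul, sub_self]
  rcases mul_eq_zero.1 this with h1 | h1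
  · exact sub_eq_zero.1 h1
  · exact absurd h1 hc

theorem cs_UV {p : ℕ} {U V : Matrix (Fin p) (Fin p) ℂ} {l : ℂ} (hl : l ≠ 0)
    (hUV : V * U = l • (U * V)) {e : Fin p → ℂ} (he : U.mulVec e = e) (k : ℕ) :
    U.mulVec ((V ^ k).mulVec e) = l⁻¹ ^ k • (V ^ k).mulVec e := by
  have hUV' : U * V = l⁻¹ • (V * U) := by rw [hUV, smul_smul, inv_mul_cancel₀ hl, one_smul]
  induction k with
  | zero => simp [he]
  | succ k ih =>
    rw [pow_succ', ← mulVec_mulVec, mulVec_mulVec, hUV', smul_mulVec, ← mulVec_mulVec, ih,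
      mulVec_smul, smul_smul, pow_succ', mul_comm]

theorem cs_Vpow {p : ℕ} {V : Matrix (Fin p) (Fin p) ℂ} (hV : Vᴴ * V = 1) {e : Fin p → ℂ}
    (he : star e ⬝ᵥ e = 1) (k : ℕ) :
    star ((V ^ k).mulVec e) ⬝ᵥ (V ^ k).mulVec e = 1 := by
  induction k with
  | zero => simpa using he
  | succ k ih => rw [pow_succ', ← mulVec_mulVec, cs_inner hV, ih]

theorem cs_gram {p : ℕ} [Fact p.Prime] {b : ZMod p → Fin p → ℂ}
    (hb1 : ∀ k, star (b k) ⬝ᵥ b k = 1) (hb0 : ∀ k k', k ≠ k' → star (b k) ⬝ᵥ b k' = 0) :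
    (Matrix.of fun k j => star (b k j)) * (Matrix.of fun k j => star (b k j))ᴴ = 1 ∧
    (Matrix.of fun k j => star (b k j))ᴴ * (Matrix.of fun k j => star (b k j)) = 1 := by
  have h1 : (Matrix.of fun k j => star (b k j)) * (Matrix.of fun k j => star (b k j))ᴴ = 1 := by
    ext k k'
    rw [mul_apply]
    simp only [conjTranspose_apply, of_apply, star_star]
    by_cases h : k = k'
    · subst h
      rw [one_apply_eq]
      exact hb1 k
    · rw [one_apply_ne h]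
      exact hb0 k k' h
  refine ⟨h1, ?_⟩
  exact (Matrix.mul_eq_one_comm_of_card_eq _ _ _ (by rw [ZMod.card, Fintype.card_fin])).1 h1

/-- Clock and shift: if `U^p = 1`, `tr U^k = 0` for `0 < k < p` and `V U = l U V`, `l ≠ 1`, then in
an orthonormal basis `V` is a multiple of the cyclic shift and `U` is the clock with eigenvalue
`l⁻¹`. -/
theorem exists_clock_shift {p : ℕ} [Fact p.Prime] (U V : Matrix (Fin p) (Fin p) ℂ)
    (hU : U ∈ Matrix.unitaryGroup (Fin p) ℂ) (hV : V ∈ Matrix.unitaryGroup (Fin p) ℂ)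
    (hUp : U ^ p = 1) (htr : ∀ k, 0 < k → k < p → (U ^ k).trace = 0) {l : ℂ} (hl : l ≠ 1)
    (hUV : V * U = l • (U * V)) :
    l ^ p = 1 ∧ ∃ (c : ℂ) (W : Matrix (ZMod p) (Fin p) ℂ), c ≠ 0 ∧ W * Wᴴ = 1 ∧ Wᴴ * W = 1 ∧
      (∀ v k, W.mulVec (V.mulVec v) k = c * W.mulVec v (k - 1)) ∧
      (∀ v k, W.mulVec (U.mulVec v) k = l⁻¹ ^ k.val * W.mulVec v k) := by
  have hp : p.Prime := Fact.out
  have hU1 : Uᴴ * U = 1 := Matrix.mem_unitaryGroup_iff'.1 hU
  have hV1 : Vᴴ * V = 1 := Matrix.mem_unitaryGroup_iff'.1 hV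
  have hlp : l ^ p = 1 := cs_lp hV1 hUp hUV
  refine ⟨hlp, ?_⟩
  have hl0 : l ≠ 0 := by
    rintro rfl
    rw [zero_pow hp.ne_zero] at hlp
    exact zero_ne_one hlp
  have hprim : IsPrimitiveRoot l p := by
    have := orderOf_eq_prime hlp hl
    rw [← this]
    exact IsPrimitiveRoot.orderOf l
  have hnl : ‖l‖ = 1 := hprim.norm'_eq_one hp.ne_zero
  have hsl : star l = l⁻¹ := by
    rw [RCLike.star_def, Complex.inv_def, Complex.normSq_eq_norm_sq, hnl]
    simp
  obtain ⟨e, he, he1⟩ := cs_exists hUp htr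
  set v : ZMod p → Fin p → ℂ := fun k => (V ^ k.val).mulVec e with hv
  have hvU : ∀ k, U.mulVec (v k) = l⁻¹ ^ k.val • v k := fun k => cs_UV hl0 hUV he k.val
  have hv1 : ∀ k, star (v k) ⬝ᵥ v k = 1 := fun k => cs_Vpow hV1 he1 k.val
  have hsl' : ∀ n : ℕ, star (l⁻¹ ^ n) = l ^ n := by
    intro n
    rw [star_pow, star_inv₀, hsl, inv_inv]
  have hv0 : ∀ k k', k ≠ k' → star (v k) ⬝ᵥ v k' = 0 := by
    intro k k' hkk
    refine cs_ortho hU1 (hvU k) (hvU k') ?_
    rw [hsl']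
    intro h
    apply hkk
    apply ZMod.val_injective p
    refine hprim.pow_inj (ZMod.val_lt k) (ZMod.val_lt k') ?_
    rw [inv_pow] at h
    exact (mul_inv_eq_one₀ (pow_ne_zero _ hl0)).1 h
  obtain ⟨-, hG2⟩ := cs_gram hv1 hv0
  set γ : ℂ := star e ⬝ᵥ (V ^ p).mulVec e with hγ
  have hxU : U.mulVec ((V ^ p).mulVec e) = (1 : ℂ) • (V ^ p).mulVec e := by
    rw [cs_UV hl0 hUV he p, inv_pow, hlp, inv_one]
  have hVp : (V ^ p).mulVec e = γ • e := by
    have h1 : (Matrix.of fun k j => star (v k j)).mulVec ((V ^ p).mulVec e) = Pi.single 0 γ := by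
      funext k
      change star (v k) ⬝ᵥ (V ^ p).mulVec e = _
      by_cases hk : k = 0
      · subst hk
        rw [Pi.single_eq_same]
        simp [hv, hγ]
      · rw [Pi.single_eq_of_ne hk]
        refine cs_ortho hU1 (hvU k) hxU ?_
        rw [hsl', mul_one]
        intro h
        apply hk
        apply ZMod.val_injective p
        rw [ZMod.val_zero]
        have hlt := ZMod.val_lt k
        by_contra hne
        exact hprim.pow_ne_one_of_pos_of_lt hne hlt h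
    have h2 : (V ^ p).mulVec e = (Matrix.of fun k j => star (v k j))ᴴ.mulVec
        ((Matrix.of fun k j => star (v k j)).mulVec ((V ^ p).mulVec e)) := by
      rw [mulVec_mulVec _ (Matrix.of fun k j => star (v k j))ᴴ, hG2, one_mulVec]
    rw [h2, h1]
    funext j
    rw [mulVec_single]
    simp [hv, mul_comm]
  have hγ1 : ‖γ‖ = 1 := by
    have h := cs_Vpow hV1 he1 p
    rw [hVp, star_smul, smul_dotProduct, dotProduct_smul, he1, smul_eq_mul, smul_eq_mul, mul_one,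
      RCLike.star_def, Complex.conj_mul'] at h
    have h3 : ‖γ‖ ^ 2 = 1 := by exact_mod_cast h
    exact (pow_eq_one_iff_of_nonneg (norm_nonneg _) two_ne_zero).1 h3
  obtain ⟨c, hc⟩ := IsAlgClosed.exists_pow_nat_eq γ hp.pos
  have hc1 : ‖c‖ = 1 := by
    have h : ‖c‖ ^ p = 1 := by rw [← norm_pow, hc, hγ1]
    exact (pow_eq_one_iff_of_nonneg (norm_nonneg _) hp.ne_zero).1 h
  have hc0 : c ≠ 0 := by
    intro h
    rw [h, norm_zero] at hc1
    exact zero_ne_one hc1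
  have hsc : star c⁻¹ = c := by
    rw [RCLike.star_def, Complex.inv_def, Complex.normSq_eq_norm_sq, hc1]
    simp
  set β : ℕ → Fin p → ℂ := fun n => c⁻¹ ^ n • (V ^ n).mulVec e with hβ
  have hper : Function.Periodic β p := by
    intro n
    simp only [hβ]
    rw [pow_add V, ← mulVec_mulVec, hVp, mulVec_smul, smul_smul, ← hc, pow_add, mul_assoc,
      ← mul_pow, inv_mul_cancel₀ hc0, one_pow, mul_one]
  have hVβ : ∀ n, V.mulVec (β n) = c • β (n + 1) := by
    intro n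
    simp only [hβ]
    have h1 : c * c⁻¹ ^ (n + 1) = c⁻¹ ^ n := by
      rw [pow_succ, mul_comm c, mul_assoc, inv_mul_cancel₀ hc0, mul_one]
    rw [mulVec_smul, mulVec_mulVec, ← pow_succ', smul_smul, h1]
  set b : ZMod p → Fin p → ℂ := fun k => β k.val with hb
  have hVb : ∀ k, V.mulVec (b k) = c • b (k + 1) := by
    intro k
    simp only [hb]
    rw [hVβ, ZMod.val_add, ZMod.val_one, hper.map_mod_nat]
  have hbv : ∀ k, b k = c⁻¹ ^ k.val • v k := fun k => rfl
  have hUb : ∀ k, U.mulVec (b k) = l⁻¹ ^ k.val • b k := by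
    intro k
    rw [hbv, mulVec_smul, hvU, smul_comm]
  have hb1 : ∀ k, star (b k) ⬝ᵥ b k = 1 := by
    intro k
    rw [hbv, star_smul, smul_dotProduct, dotProduct_smul, hv1, smul_eq_mul, smul_eq_mul, mul_one,
      star_pow, hsc, ← mul_pow, mul_inv_cancel₀ hc0, one_pow]
  have hb0 : ∀ k k', k ≠ k' → star (b k) ⬝ᵥ b k' = 0 := by
    intro k k' hkk
    rw [hbv, hbv, star_smul, smul_dotProduct, dotProduct_smul, hv0 k k' hkk, smul_zero, smul_zero]
  obtain ⟨hW1, hW2⟩ := cs_gram hb1 hb0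
  refine ⟨c, Matrix.of fun k j => star (b k j), hc0, hW1, hW2, ?_, ?_⟩
  · intro w k
    change star (b k) ⬝ᵥ V.mulVec w = c * (star (b (k - 1)) ⬝ᵥ w)
    have h1 : b k = c⁻¹ • V.mulVec (b (k - 1)) := by
      rw [hVb, sub_add_cancel, smul_smul, inv_mul_cancel₀ hc0, one_smul]
    rw [h1, star_smul, smul_dotProduct, cs_inner hV1, hsc, smul_eq_mul]
  · intro w k
    change star (b k) ⬝ᵥ U.mulVec w = l⁻¹ ^ k.val * (star (b k) ⬝ᵥ w)
    have h1 : b k = l ^ k.val • U.mulVec (b k) := by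
      rw [hUb, smul_smul, ← mul_pow, mul_inv_cancel₀ hl0, one_pow, one_smul]
    conv_lhs => rw [h1]
    rw [star_smul, smul_dotProduct, cs_inner hU1, star_pow, hsl, smul_eq_mul]

end Pool.Agent.SicFin
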