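import Pool.Agent.Lib.MP_d0f9e0_co.Fin.Basic
import Pool.Agent.Lib.MP_d0f9e0_co.Fin.Place

/-!
# Finiteness and algebraicity from integrality at all places
-/

namespace Pool.Agent.SicFin

open Finset ComplexConjugate

variable {p : ℕ} [hp : Fact p.Prime]

/-- The conclusion of the main theorem for one field. -/
def Integrality (p : ℕ) [NeZero p] (K : Type*) [Field K] : Prop :=
  ∀ om : K, IsPrimitiveRoot om p → ∀ f g : ZMod p → K, IsSol om f g →
    ∀ V : ValuationSubring K, (∀ q : ℚ, (q : K) ∈ V) → ∀ a b, ov om f g a b ∈ V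

/-- A unit vector all whose nontrivial Weyl-Heisenberg overlaps have modulus `(p+1)^(-1/2)`. -/
def IsFid (om : ℂ) (ψ : ZMod p → ℂ) : Prop :=
  ov om ψ (fun r => conj (ψ r)) 0 0 = 1 ∧
    ∀ a b : ZMod p, (a ≠ 0 ∨ b ≠ 0) →
      ‖ov om ψ (fun r => conj (ψ r)) a b‖ ^ 2 = 1 / ((p : ℝ) + 1)

theorem conj_om {om : ℂ} (hom : om ^ p = 1) (x : ZMod p) : conj (chi om x) = chi om (-x) := by
  have h1 : chi om x * chi om (-x) = 1 := by
    rw [← chi_add hom, add_neg_cancel, chi_zero]
  have h2 : ‖chi om x‖ = 1 :=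
    Complex.norm_eq_one_of_pow_eq_one (chi_pow hom x) hp.out.ne_zero
  have h3 : chi om x * conj (chi om x) = 1 := by
    rw [Complex.mul_conj, Complex.normSq_eq_norm_sq, h2]; simp
  have h4 : chi om x ≠ 0 := chi_ne_zero hom x
  exact mul_left_cancel₀ h4 (h3.trans h1.symm)

/-- Conjugation symmetry of the overlaps. -/
theorem conj_ov {om : ℂ} (hom : om ^ p = 1) (ψ : ZMod p → ℂ) (a b : ZMod p) :
    conj (ov om ψ (fun r => conj (ψ r)) a b) =
      chi om (a * b) * ov om ψ (fun r => conj (ψ r)) (-a) (-b) := by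
  unfold ov ft
  rw [map_sum, Finset.mul_sum]
  refine Fintype.sum_equiv (Equiv.addRight a) _ _ fun r => ?_
  simp only [map_mul, Complex.conj_conj, Equiv.coe_addRight, conj_om hom]
  have e1 : chi om (a * b) * chi om (-b * (r + a)) = chi om (-(b * r)) := by
    rw [← chi_add hom]; congr 1; ring
  rw [add_neg_cancel_right]
  linear_combination (-(conj (ψ r) * ψ (r + a))) * e1

theorem isSol_of_isFid {om : ℂ} (hom : om ^ p = 1) {ψ : ZMod p → ℂ} (h : IsFid om ψ) :
    IsSol om ψ (fun r => conj (ψ r)) := by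
  refine ⟨h.1, fun a b hab => ?_⟩
  have h1 := h.2 a b hab
  have h2 := conj_ov hom ψ a b
  have h3 : ov om ψ (fun r => conj (ψ r)) a b * conj (ov om ψ (fun r => conj (ψ r)) a b) =
      1 / ((p : ℂ) + 1) := by
    rw [Complex.mul_conj, Complex.normSq_eq_norm_sq, h1]
    push_cast
    rfl
  rw [h2] at h3
  have h4 : chi om (a * b) * chi om (-(a * b)) = 1 := by
    rw [← chi_add hom, add_neg_cancel, chi_zero]
  calc _ = (chi om (a * b) * chi om (-(a * b))) * (ov om ψ (fun r => conj (ψ r)) a b *
        ov om ψ (fun r => conj (ψ r)) (-a) (-b)) := by rw [h4, one_mul]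
    _ = chi om (-(a * b)) * (ov om ψ (fun r => conj (ψ r)) a b * (chi om (a * b) *
        ov om ψ (fun r => conj (ψ r)) (-a) (-b))) := by ring
    _ = _ := by rw [h3]; ring

/-- Algebraicity of the overlaps. -/
theorem isAlgebraic_ov (H : Integrality p ℂ) {om : ℂ} (hom : IsPrimitiveRoot om p)
    {f g : ZMod p → ℂ} (h : IsSol om f g) (a b : ZMod p) : IsAlgebraic ℚ (ov om f g a b) := by
  by_contra hcon
  have h1 : ¬ (algebraMap ℚ ℂ).IsIntegralElem (ov om f g a b) := by
    intro h2
    exact hcon (IsIntegral.isAlgebraic h2)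
  obtain ⟨V, hV, hbad⟩ := exists_place_of_not_integral (algebraMap ℚ ℂ) h1
  exact hbad (H om hom f g h V (fun q => hV q) a b)

/-- Algebraicity of the entries. -/
theorem isAlgebraic_entry (H : Integrality p ℂ) {om : ℂ} (hom : IsPrimitiveRoot om p)
    {f g : ZMod p → ℂ} (h : IsSol om f g) (r s : ZMod p) : IsAlgebraic ℚ (f r * g s) := by
  have hpC : (p : ℂ) ≠ 0 := by exact_mod_cast hp.out.ne_zero
  have h1 := ft_inv hom (fun t => f t * g (t + (s - r))) r
  simp only [add_sub_cancel] at h1
  have h2 : f r * g s = (p : ℂ)⁻¹ * ∑ b, ov om f g (s - r) b * chi om (-(b * r)) := by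
    rw [show (∑ b, ov om f g (s - r) b * chi om (-(b * r))) = (p : ℂ) * (f r * g s) from h1]
    field_simp
  have hchi : ∀ x : ZMod p, IsAlgebraic ℚ (chi om x) := by
    intro x
    have : IsIntegral ℚ (chi om x) := by
      refine IsIntegral.of_pow (n := p) hp.out.pos ?_
      rw [chi_pow hom.pow_eq_one]
      exact isIntegral_one
    exact this.isAlgebraic
  rw [h2]
  refine IsAlgebraic.mul ?_ ?_
  · exact (isAlgebraic_natCast (R := ℚ) (A := ℂ) p).inv
  · refine (IsIntegral.sum _ fun b _ => ?_).isAlgebraic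
    exact ((isAlgebraic_ov H hom h (s - r) b).mul (hchi _)).isIntegral

/-- Finiteness of the set of overlap tables. -/
theorem finite_ov (H : Integrality p GermField) {om : ℂ} (hom : IsPrimitiveRoot om p)
    (a b : ZMod p) :
    {z : ℂ | ∃ f g : ZMod p → ℂ, IsSol om f g ∧ ov om f g a b = z}.Finite := by
  by_contra hinf
  have hinf' : {z : ℂ | ∃ f g : ZMod p → ℂ, IsSol om f g ∧ ov om f g a b = z}.Infinite := hinf
  set e := hinf'.natEmbedding with he
  have hz : ∀ n : ℕ, ∃ f g : ZMod p → ℂ, IsSol om f g ∧ ov om f g a b = (e n : ℂ) :=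
    fun n => (e n).2
  choose f g hs hov using hz
  set z : ℕ → ℂ := fun n => (e n : ℂ) with hzdef
  have hinj : Function.Injective z := fun m n hmn => e.injective (Subtype.ext hmn)
  obtain ⟨V, hV, hbad⟩ := exists_place_of_not_integral constGerm (germ_not_integral hinj)
  -- the germ solution
  set F : ZMod p → GermField := fun r => ((fun n => f n r : ℕ → ℂ) : GermField) with hF
  set G : ZMod p → GermField := fun r => ((fun n => g n r : ℕ → ℂ) : GermField) with hG
  set Φ : (ℕ → ℂ) →+* GermField := Filter.Germ.coeRingHom _ with hΦ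
  have hchi : ∀ x : ZMod p, chi (constGerm om) x = constGerm (chi om x) := by
    intro x
    unfold chi
    rw [map_pow]
  have hovΦ : ∀ a b : ZMod p, ov (constGerm om) F G a b = Φ (fun n => ov om (f n) (g n) a b) := by
    intro a b
    have h1 : (fun n => ov om (f n) (g n) a b) =
        ∑ r : ZMod p, (fun n => f n r) * (fun n => g n (r + a)) * (fun _ => chi om (b * r)) := by
      funext n
      simp [ov, ft, Finset.sum_apply]
    rw [h1, map_sum]
    unfold ov ft
    refine Finset.sum_congr rfl fun r _ => ?_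
    rw [map_mul, map_mul, hchi]
    rfl
  have hsol : IsSol (constGerm om) F G := by
    refine ⟨?_, ?_⟩
    · rw [hovΦ]
      have : (fun n => ov om (f n) (g n) 0 0) = 1 := by
        funext n
        exact (hs n).1
      rw [this, map_one]
    · intro a b hab
      rw [hovΦ, hovΦ, ← map_mul, hchi]
      have : ((fun n => ov om (f n) (g n) a b) * fun n => ov om (f n) (g n) (-a) (-b)) =
          fun _ => chi om (-(a * b)) / ((p : ℂ) + 1) := by
        funext n
        exact (hs n).2 a b hab
      rw [this]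
      have h2 : Φ (fun _ => chi om (-(a * b)) / ((p : ℂ) + 1)) =
          constGerm (chi om (-(a * b)) / ((p : ℂ) + 1)) := rfl
      rw [h2, map_div₀, map_add, map_one, map_natCast]
  have hom' : IsPrimitiveRoot (constGerm om) p := hom.map_of_injective constGerm.injective
  have hmem := H (constGerm om) hom' F G hsol V (fun q => by
    have := hV (q : ℂ)
    rwa [map_ratCast] at this) a b
  rw [hovΦ] at hmem
  have h3 : (fun n => ov om (f n) (g n) a b) = z := by
    funext n
    exact hov n
  rw [h3] at hmem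
  exact hbad hmem

/-- Finiteness of the set of matrices `f g^T`. -/
theorem finite_matrix (H : Integrality p GermField) {om : ℂ} (hom : IsPrimitiveRoot om p) :
    {P : Matrix (ZMod p) (ZMod p) ℂ | ∃ f g : ZMod p → ℂ, IsSol om f g ∧
      P = Matrix.vecMulVec f g}.Finite := by
  have hpC : (p : ℂ) ≠ 0 := by exact_mod_cast hp.out.ne_zero
  have hS : {A : ZMod p → ZMod p → ℂ | ∃ f g : ZMod p → ℂ, IsSol om f g ∧
      A = ov om f g}.Finite := by
    refine (Set.Finite.pi' fun a => Set.Finite.pi' fun b => finite_ov H hom a b).subset ?_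
    rintro A ⟨f, g, hs, rfl⟩ a b
    exact ⟨f, g, hs, rfl⟩
  refine (hS.image fun A => (Matrix.of fun r s =>
    (p : ℂ)⁻¹ * ∑ b, A (s - r) b * chi om (-(b * r)) :
      Matrix (ZMod p) (ZMod p) ℂ)).subset ?_
  rintro P ⟨f, g, hs, rfl⟩
  refine ⟨ov om f g, ⟨f, g, hs, rfl⟩, ?_⟩
  ext r s
  have h1 := ft_inv hom (fun t => f t * g (t + (s - r))) r
  simp only [add_sub_cancel] at h1
  simp only [Matrix.of_apply, Matrix.vecMulVec_apply]
  rw [show (∑ b, ov om f g (s - r) b * chi om (-(b * r))) = (p : ℂ) * (f r * g s) from h1]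
  field_simp

end Pool.Agent.SicFin
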