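import Pool.Agent.Lib.MP_d0f9e0_co.Fin.Basic
import Pool.Agent.Lib.MP_d0f9e0_co.Bridge

/-!
# Weyl-Heisenberg translates, elementary facts on symmetries of a maximal ETF
-/

namespace Pool.Agent.SicFin

open Matrix Pool.Agent.Lib.MP_d0f9e0_co

/-- The Weyl-Heisenberg translate `(D_{a,b} ψ)(k) = ω^(b k) ψ(k + a)`. -/
noncomputable def wh {p : ℕ} (om : ℂ) (a b : ZMod p) (ψ : ZMod p → ℂ) : ZMod p → ℂ :=
  fun k => chi om (b * k) * ψ (k + a)

theorem ip_smul_left {d : ℕ} (c : ℂ) (u v : Fin d → ℂ) : ip (c • u) v = c * ip u v := by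
  unfold ip
  rw [Finset.mul_sum]
  exact Finset.sum_congr rfl fun k _ => by simp [mul_assoc]

theorem ip_smul_right {d : ℕ} (c : ℂ) (u v : Fin d → ℂ) : ip u (c • v) = star c * ip u v := by
  unfold ip
  rw [Finset.mul_sum]
  exact Finset.sum_congr rfl fun k _ => by simp; ring

theorem ip_eq_dot {d : ℕ} (u v : Fin d → ℂ) : ip u v = u ⬝ᵥ star v := rfl

theorem ip_unitary {d : ℕ} {U : Matrix (Fin d) (Fin d) ℂ} (hU : U ∈ Matrix.unitaryGroup (Fin d) ℂ)
    (u v : Fin d → ℂ) : ip (U.mulVec u) (U.mulVec v) = ip u v := by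
  have h1 : Uᴴ * U = 1 := Matrix.mem_unitaryGroup_iff'.1 hU
  rw [ip_eq_dot, ip_eq_dot, Matrix.star_mulVec, dotProduct_comm, ← Matrix.dotProduct_mulVec,
    Matrix.mulVec_mulVec, h1, Matrix.one_mulVec, dotProduct_comm]

/-- Different vectors of a maximal ETF are not proportional. -/
theorem eq_of_smul {d : ℕ} (hd : 1 ≤ d) {x : Fin (d ^ 2) → (Fin d → ℂ)} (hx : IsMaximalETF d x)
    {i j : Fin (d ^ 2)} {c : ℂ} (h : x i = c • x j) : i = j := by
  by_contra hij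
  have h1 := hx.2 i j hij
  have h2 := hx.1 i
  rw [h, ip_smul_left, ip_smul_right, hx.1 j, mul_one] at h2
  rw [h, ip_smul_left, hx.1 j, mul_one] at h1
  have h3 : ‖c‖ * ‖c‖ = 1 := by
    have := congrArg norm h2
    simpa using this
  have hpos : (0 : ℝ) < (d : ℝ) + 1 := by positivity
  have h4 : ‖c‖ * ‖c‖ = 1 / ((d : ℝ) + 1) := by
    rw [h1, div_mul_div_comm, one_mul, Real.mul_self_sqrt hpos.le]
  rw [h3] at h4
  rw [eq_div_iff hpos.ne'] at h4
  have : (1 : ℝ) ≤ d := by exact_mod_cast hd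
  linarith

theorem ne_zero_of_etf {d : ℕ} {x : Fin (d ^ 2) → (Fin d → ℂ)} (hx : IsMaximalETF d x)
    (i : Fin (d ^ 2)) : x i ≠ 0 := by
  intro h
  have := hx.1 i
  rw [h] at this
  simp [ip] at this

/-- The scalar relating `U x_i` and `x_j` is nonzero. -/
theorem coeff_ne_zero {d : ℕ} {x : Fin (d ^ 2) → (Fin d → ℂ)} (hx : IsMaximalETF d x)
    {U : Matrix (Fin d) (Fin d) ℂ} (hU : U ∈ Matrix.unitaryGroup (Fin d) ℂ) {i j : Fin (d ^ 2)}
    {c : ℂ} (h : U.mulVec (x i) = c • x j) : c ≠ 0 := by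
  rintro rfl
  have h1 := ip_unitary hU (x i) (x i)
  rw [h, hx.1 i, zero_smul] at h1
  simp [ip] at h1

/-- `U` maps the line of `x i` to the line of `x (σ i)`. -/
def Lifts {d : ℕ} (x : Fin (d ^ 2) → (Fin d → ℂ)) (U : Matrix (Fin d) (Fin d) ℂ)
    (σ : Equiv.Perm (Fin (d ^ 2))) : Prop :=
  U ∈ Matrix.unitaryGroup (Fin d) ℂ ∧ ∀ i, ∃ c : ℂ, U.mulVec (x i) = c • x (σ i)

theorem Lifts.one {d : ℕ} (x : Fin (d ^ 2) → (Fin d → ℂ)) : Lifts x 1 1 :=
  ⟨one_mem _, fun i => ⟨1, by simp⟩⟩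

theorem Lifts.mul {d : ℕ} {x : Fin (d ^ 2) → (Fin d → ℂ)} {U V : Matrix (Fin d) (Fin d) ℂ}
    {σ τ : Equiv.Perm (Fin (d ^ 2))} (hU : Lifts x U σ) (hV : Lifts x V τ) :
    Lifts x (U * V) (σ * τ) := by
  refine ⟨mul_mem hU.1 hV.1, fun i => ?_⟩
  obtain ⟨c, hc⟩ := hV.2 i
  obtain ⟨c', hc'⟩ := hU.2 (τ i)
  refine ⟨c * c', ?_⟩
  rw [← Matrix.mulVec_mulVec, hc, Matrix.mulVec_smul, hc', smul_smul]
  rfl

theorem Lifts.pow {d : ℕ} {x : Fin (d ^ 2) → (Fin d → ℂ)} {U : Matrix (Fin d) (Fin d) ℂ}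
    {σ : Equiv.Perm (Fin (d ^ 2))} (hU : Lifts x U σ) (n : ℕ) : Lifts x (U ^ n) (σ ^ n) := by
  induction n with
  | zero => simpa using Lifts.one x
  | succ n ih => rw [pow_succ, pow_succ]; exact ih.mul hU

theorem Lifts.inv {d : ℕ} {x : Fin (d ^ 2) → (Fin d → ℂ)} (hx : IsMaximalETF d x)
    {U : Matrix (Fin d) (Fin d) ℂ} {σ : Equiv.Perm (Fin (d ^ 2))} (hU : Lifts x U σ) :
    Lifts x Uᴴ σ⁻¹ := by
  have h1 : Uᴴ * U = 1 := Matrix.mem_unitaryGroup_iff'.1 hU.1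
  have h2 : U * Uᴴ = 1 := Matrix.mem_unitaryGroup_iff.1 hU.1
  refine ⟨?_, fun i => ?_⟩
  · rw [Matrix.mem_unitaryGroup_iff]
    rw [show star Uᴴ = U from Matrix.conjTranspose_conjTranspose U]
    exact h1
  · obtain ⟨c, hc⟩ := hU.2 (σ⁻¹ i)
    have hc0 := coeff_ne_zero hx hU.1 hc
    refine ⟨c⁻¹, ?_⟩
    have h3 : σ (σ⁻¹ i) = i := σ.apply_symm_apply i
    rw [h3] at hc
    have h4 : x i = c⁻¹ • U.mulVec (x (σ⁻¹ i)) := by
      rw [hc, smul_smul, inv_mul_cancel₀ hc0, one_smul]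
    rw [h4, Matrix.mulVec_smul, Matrix.mulVec_mulVec, h1, Matrix.one_mulVec]

/-- Every symmetry lifts a permutation. -/
theorem exists_lifts {d : ℕ} (hd : 1 ≤ d) {x : Fin (d ^ 2) → (Fin d → ℂ)}
    (hx : IsMaximalETF d x) {U : Matrix (Fin d) (Fin d) ℂ} (hU : IsSymmetry x U) :
    ∃ σ, Lifts x U σ := by
  choose s c hc using hU.2
  have hinj : Function.Injective s := by
    intro i j hij
    have h1 := hc i
    have h2 := hc j
    rw [← hij] at h2
    have hc1 := coeff_ne_zero hx hU.1 h1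
    have hc2 := coeff_ne_zero hx hU.1 h2
    have h3 : U.mulVec (x i) = (c i * (c j)⁻¹) • U.mulVec (x j) := by
      rw [h1, h2, smul_smul, mul_assoc, inv_mul_cancel₀ hc2, mul_one]
    have h4 : x i = (c i * (c j)⁻¹) • x j := by
      have h5 : Uᴴ * U = 1 := Matrix.mem_unitaryGroup_iff'.1 hU.1
      have h6 := congrArg (Uᴴ.mulVec) h3
      rwa [Matrix.mulVec_smul, Matrix.mulVec_mulVec, Matrix.mulVec_mulVec, h5,
        Matrix.one_mulVec, Matrix.one_mulVec] at h6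
    exact eq_of_smul hd hx h4
  exact ⟨Equiv.ofBijective s (Finite.injective_iff_bijective.mp hinj), hU.1,
    fun i => ⟨c i, hc i⟩⟩

/-- The permutation of a lift is determined at each point. -/
theorem Lifts.eq {d : ℕ} (hd : 1 ≤ d) {x : Fin (d ^ 2) → (Fin d → ℂ)}
    (hx : IsMaximalETF d x) {U : Matrix (Fin d) (Fin d) ℂ} {σ : Equiv.Perm (Fin (d ^ 2))}
    (hU : Lifts x U σ) {i j : Fin (d ^ 2)} {c : ℂ} (h : U.mulVec (x i) = c • x j) : σ i = j := by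
  obtain ⟨c', hc'⟩ := hU.2 i
  have hc0 := coeff_ne_zero hx hU.1 hc'
  rw [h] at hc'
  have h1 : x (σ i) = (c'⁻¹ * c) • x j := by
    rw [← smul_smul, hc', smul_smul, inv_mul_cancel₀ hc0, one_smul]
  exact eq_of_smul hd hx h1

/-- A unitary matrix fixing every line is a scalar. -/
theorem scalar_of_lifts_one {d : ℕ} (hd : 1 ≤ d) {x : Fin (d ^ 2) → (Fin d → ℂ)}
    (hx : IsMaximalETF d x) {U : Matrix (Fin d) (Fin d) ℂ} (hU : Lifts x U 1) :
    ∃ c : ℂ, ‖c‖ = 1 ∧ U = c • 1 := by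
  have h1 : Uᴴ * U = 1 := Matrix.mem_unitaryGroup_iff'.1 hU.1
  have h2 : U * Uᴴ = 1 := Matrix.mem_unitaryGroup_iff.1 hU.1
  have hcard := hx.toMaxETF.card_fixed hd (toLIE U h1 h2) (by
    intro i
    obtain ⟨c, hc⟩ := hU.2 i
    refine ⟨i, c, ?_⟩
    rw [toLIE_apply, hc]
    rfl)
  have hall : fixedLines (fun i => (WithLp.toLp 2 (x i) : EuclideanSpace ℂ (Fin d)))
      (toLIE U h1 h2) = Finset.univ := by
    ext i
    simp only [mem_fixedLines, Finset.mem_univ, iff_true]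
    obtain ⟨c, hc⟩ := hU.2 i
    exact ⟨c, (fixes_iff U h1 h2 (x i) c).2 hc⟩
  rw [hall, Finset.card_univ, Fintype.card_fin] at hcard
  have h3 : (d : ℝ) ≤ ‖LinearMap.trace ℂ _ (lin (toLIE U h1 h2))‖ := by
    have h4 : ((d : ℝ)) ^ 2 = ‖LinearMap.trace ℂ _ (lin (toLIE U h1 h2))‖ ^ 2 := by
      rw [← hcard]; push_cast; rfl
    exact (pow_left_inj₀ (by positivity) (norm_nonneg _) two_ne_zero).1 h4 |>.le
  obtain ⟨c, hc⟩ := scalar_of_norm_trace (toLIE U h1 h2) hd h3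
  have h5 := eq_smul_one_of_forall U h1 h2 c hc
  refine ⟨c, ?_, h5⟩
  have i0 : Fin (d ^ 2) := ⟨0, by positivity⟩
  have h6 := ip_unitary hU.1 (x i0) (x i0)
  rw [h5, Matrix.smul_mulVec, Matrix.one_mulVec, ip_smul_left, ip_smul_right, hx.1 i0, mul_one] at h6
  have h7 := congrArg norm h6
  rw [norm_mul, norm_star, norm_one] at h7
  nlinarith [norm_nonneg c]

/-- A symmetry fixing no line has trace zero, and conversely. -/
theorem trace_eq_zero_iff {d : ℕ} (hd : 1 ≤ d) {x : Fin (d ^ 2) → (Fin d → ℂ)}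
    (hx : IsMaximalETF d x) {U : Matrix (Fin d) (Fin d) ℂ} {σ : Equiv.Perm (Fin (d ^ 2))}
    (hU : Lifts x U σ) : U.trace = 0 ↔ ∀ i, σ i ≠ i := by
  have h1 : Uᴴ * U = 1 := Matrix.mem_unitaryGroup_iff'.1 hU.1
  have h2 : U * Uᴴ = 1 := Matrix.mem_unitaryGroup_iff.1 hU.1
  have hcard := hx.toMaxETF.card_fixed hd (toLIE U h1 h2) (by
    intro i
    obtain ⟨c, hc⟩ := hU.2 i
    refine ⟨σ i, c, ?_⟩
    rw [toLIE_apply, hc]
    rfl)
  rw [toLIE_trace] at hcard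
  have hmem : ∀ i, i ∈ fixedLines (fun i => (WithLp.toLp 2 (x i) : EuclideanSpace ℂ (Fin d)))
      (toLIE U h1 h2) ↔ σ i = i := by
    intro i
    rw [mem_fixedLines]
    constructor
    · rintro ⟨c, hc⟩
      exact hU.eq hd hx ((fixes_iff U h1 h2 (x i) c).1 hc)
    · intro h
      obtain ⟨c, hc⟩ := hU.2 i
      rw [h] at hc
      exact ⟨c, (fixes_iff U h1 h2 (x i) c).2 hc⟩
  constructor
  · intro h0 i hi
    rw [h0, norm_zero] at hcard
    have h3 : (fixedLines (fun i => (WithLp.toLp 2 (x i) : EuclideanSpace ℂ (Fin d)))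
      (toLIE U h1 h2)).card = 0 := by
      have : ((fixedLines (fun i => (WithLp.toLp 2 (x i) : EuclideanSpace ℂ (Fin d)))
        (toLIE U h1 h2)).card : ℝ) = 0 := by rw [hcard]; norm_num
      exact_mod_cast this
    rw [Finset.card_eq_zero] at h3
    have := (hmem i).2 hi
    rw [h3] at this
    simp at this
  · intro h
    have h3 : fixedLines (fun i => (WithLp.toLp 2 (x i) : EuclideanSpace ℂ (Fin d)))
      (toLIE U h1 h2) = ∅ := by
      ext i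
      simp only [Finset.notMem_empty, iff_false]
      exact fun hi => h i ((hmem i).1 hi)
    rw [h3, Finset.card_empty] at hcard
    have h4 : ‖U.trace‖ = 0 := by
      have : ‖U.trace‖ ^ 2 = 0 := by rw [← hcard]; norm_num
      exact pow_eq_zero_iff (two_ne_zero) |>.1 this
    exact norm_eq_zero.1 h4

end Pool.Agent.SicFin
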