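import Pool.Agent.Lib.MP_d0f9e0_co.Fin.Final
import Pool.Agent.Lib.MP_d0f9e0_co.Fin.WH

/-!
# From finitely many fiducial projectors to finitely many homogeneous maximal ETFs
-/

namespace Pool.Agent.SicFin

open Matrix Pool.Agent.Lib.MP_d0f9e0_co ComplexConjugate

variable {p : ℕ} [hp : Fact p.Prime]

/-- The rank one projectors onto the fiducial vectors. -/
def fidSet (p : ℕ) [Fact p.Prime] (om : ℂ) : Set (Matrix (ZMod p) (ZMod p) ℂ) :=
  {P | ∃ ψ : ZMod p → ℂ, IsFid om ψ ∧ P = Matrix.vecMulVec ψ (fun r => conj (ψ r))}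

/-- The inner product of `ℂ^(ZMod p)`. -/
noncomputable def ipz (u v : ZMod p → ℂ) : ℂ := ∑ k, u k * conj (v k)

theorem ipz_smul_left (c : ℂ) (u v : ZMod p → ℂ) : ipz (c • u) v = c * ipz u v := by
  unfold ipz
  rw [Finset.mul_sum]
  exact Finset.sum_congr rfl fun k _ => by simp [mul_assoc]

theorem ipz_smul_right (c : ℂ) (u v : ZMod p → ℂ) : ipz u (c • v) = conj c * ipz u v := by
  unfold ipz
  rw [Finset.mul_sum]
  exact Finset.sum_congr rfl fun k _ => by simp; ring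

theorem ipz_mulVec {W : Matrix (ZMod p) (Fin p) ℂ} (hW : Wᴴ * W = 1) (u v : Fin p → ℂ) :
    ipz (W.mulVec u) (W.mulVec v) = ip u v := by
  have h1 : ipz (W.mulVec u) (W.mulVec v) = (W.mulVec u) ⬝ᵥ star (W.mulVec v) := rfl
  rw [h1, ip_eq_dot, Matrix.star_mulVec, dotProduct_comm, ← Matrix.dotProduct_mulVec,
    Matrix.mulVec_mulVec, hW, Matrix.one_mulVec, dotProduct_comm]

theorem ov_eq_ipz {om : ℂ} (hom : om ^ p = 1) (ψ : ZMod p → ℂ) (a b : ZMod p) :
    ov om ψ (fun r => conj (ψ r)) a b = ipz (wh om 0 0 ψ) (wh om a (-b) ψ) := by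
  unfold ov ft ipz wh
  refine Finset.sum_congr rfl fun r _ => ?_
  simp only [map_mul, conj_om hom, zero_mul, chi_zero, one_mul, add_zero]
  rw [neg_mul, neg_neg]
  ring

/-- The general inner products of Weyl-Heisenberg translates. -/
theorem norm_ipz_wh {om : ℂ} (hom : om ^ p = 1) (ψ : ZMod p → ℂ) (a b a' b' : ZMod p) :
    ‖ipz (wh om a b ψ) (wh om a' b' ψ)‖ = ‖ov om ψ (fun r => conj (ψ r)) (a' - a) (b - b')‖ := by
  have h1 : ipz (wh om a b ψ) (wh om a' b' ψ) =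
      chi om (-(b - b') * a) * ov om ψ (fun r => conj (ψ r)) (a' - a) (b - b') := by
    unfold ov ft ipz wh
    rw [Finset.mul_sum]
    refine Fintype.sum_equiv (Equiv.addRight a) _ _ fun r => ?_
    simp only [map_mul, conj_om hom, Equiv.coe_addRight]
    have e1 : r + a + (a' - a) = r + a' := by ring
    have e2 : chi om (b * r) * chi om (-(b' * r)) =
        chi om (-(b - b') * a) * chi om ((b - b') * (r + a)) := by
      rw [← chi_add hom, ← chi_add hom]
      congr 1; ring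
    rw [e1]
    linear_combination (ψ (r + a) * conj (ψ (r + a'))) * e2
  rw [h1, norm_mul]
  have h2 : ‖chi om (-(b - b') * a)‖ = 1 :=
    Complex.norm_eq_one_of_pow_eq_one (chi_pow hom _) hp.out.ne_zero
  rw [h2, one_mul]

theorem ov_zero_eq {om : ℂ} (ψ : ZMod p → ℂ) :
    ov om ψ (fun r => conj (ψ r)) 0 0 = ipz ψ ψ := by
  unfold ov ft ipz
  simp [chi_zero]

theorem norm_of_sq {q : ℕ} {z : ℂ} (h : ‖z‖ ^ 2 = 1 / ((q : ℝ) + 1)) :
    ‖z‖ = 1 / Real.sqrt ((q : ℝ) + 1) := by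
  have hpos : (0 : ℝ) < (q : ℝ) + 1 := by positivity
  have h1 : (1 / Real.sqrt ((q : ℝ) + 1)) ^ 2 = 1 / ((q : ℝ) + 1) := by
    rw [div_pow, one_pow, Real.sq_sqrt hpos.le]
  rw [← h1] at h
  exact (pow_left_inj₀ (norm_nonneg _) (by positivity) two_ne_zero).1 h

theorem sq_of_norm {q : ℕ} {z : ℂ} (h : ‖z‖ = 1 / Real.sqrt ((q : ℝ) + 1)) :
    ‖z‖ ^ 2 = 1 / ((q : ℝ) + 1) := by
  have hpos : (0 : ℝ) < (q : ℝ) + 1 := by positivity
  rw [h, div_pow, one_pow, Real.sq_sqrt hpos.le]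

/-- A vector all of whose translates are proportional to the images of an ETF is, after
normalisation, a fiducial vector. -/
theorem isFid_of_form {om : ℂ} (hom : om ^ p = 1) {x : Fin (p ^ 2) → (Fin p → ℂ)}
    (hx : IsMaximalETF p x) {W : Matrix (ZMod p) (Fin p) ℂ} (hW : Wᴴ * W = 1) {ψ : ZMod p → ℂ}
    (e : Fin (p ^ 2) ≃ ZMod p × ZMod p)
    (h : ∀ i, ∃ c : ℂ, W.mulVec (x i) = c • wh om (e i).1 (e i).2 ψ) :
    ∃ ψ' : ZMod p → ℂ, IsFid om ψ' ∧
      ∀ i, ∃ c : ℂ, ‖c‖ = 1 ∧ W.mulVec (x i) = c • wh om (e i).1 (e i).2 ψ' := by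
  choose c hc using h
  -- the norm of ψ
  have hnorm : ∀ i, (c i * conj (c i)) * ipz (wh om (e i).1 (e i).2 ψ)
      (wh om (e i).1 (e i).2 ψ) = 1 := by
    intro i
    have h1 := ipz_mulVec hW (x i) (x i)
    rw [hc i, ipz_smul_left, ipz_smul_right, hx.1 i] at h1
    rw [← h1]; ring
  have hself : ∀ a b, ipz (wh om a b ψ) (wh om a b ψ) = ipz ψ ψ := by
    intro a b
    unfold ipz wh
    refine Fintype.sum_equiv (Equiv.addRight a) _ _ fun r => ?_
    simp only [map_mul, conj_om hom, Equiv.coe_addRight]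
    have e2 : chi om (b * r) * chi om (-(b * r)) = 1 := by
      rw [← chi_add hom, add_neg_cancel, chi_zero]
    linear_combination (ψ (r + a) * conj (ψ (r + a))) * e2
  set N : ℝ := ∑ k, ‖ψ k‖ ^ 2 with hN
  have hNc : ipz ψ ψ = (N : ℂ) := by
    unfold ipz
    rw [hN]
    push_cast
    exact Finset.sum_congr rfl fun k _ => by rw [Complex.mul_conj, Complex.normSq_eq_norm_sq]; simp
  have hcN : ∀ i, ‖c i‖ ^ 2 * N = 1 := by
    intro i
    have h1 := hnorm i
    rw [hself, hNc, Complex.mul_conj, Complex.normSq_eq_norm_sq] at h1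
    exact_mod_cast h1
  have hpos : 0 < p ^ 2 := by have := hp.out.pos; positivity
  have hN0 : 0 < N := by
    have h1 := hcN ⟨0, hpos⟩
    have h2 : 0 ≤ N := Finset.sum_nonneg fun k _ => by positivity
    rcases h2.lt_or_eq with h | h
    · exact h
    · rw [← h, mul_zero] at h1
      exact absurd h1 zero_ne_one
  set s : ℝ := Real.sqrt N with hs
  have hs0 : 0 < s := Real.sqrt_pos.mpr hN0
  have hsN : s * s = N := Real.mul_self_sqrt hN0.le
  set ψ' : ZMod p → ℂ := ((s : ℂ)⁻¹) • ψ with hψ'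
  have hsc : (s : ℂ) ≠ 0 := by exact_mod_cast hs0.ne'
  have hwh : ∀ a b, wh om a b ψ = (s : ℂ) • wh om a b ψ' := by
    intro a b
    funext k
    simp only [wh, hψ', Pi.smul_apply, smul_eq_mul]
    field_simp
  have hcs : ∀ i, ‖c i * s‖ = 1 := by
    intro i
    have h1 : ‖c i * s‖ ^ 2 = 1 := by
      rw [norm_mul, mul_pow, Complex.norm_real, Real.norm_eq_abs, sq_abs, sq s, hsN, hcN i]
    exact (pow_eq_one_iff_of_nonneg (norm_nonneg _) two_ne_zero).1 h1
  have hW' : ∀ i, W.mulVec (x i) = (c i * s) • wh om (e i).1 (e i).2 ψ' := by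
    intro i
    rw [hc i, hwh, smul_smul]
  have hpsi0 : ov om ψ' (fun r => conj (ψ' r)) 0 0 = 1 := by
    rw [ov_zero_eq, hψ', ipz_smul_left, ipz_smul_right, hNc, ← hsN]
    push_cast
    rw [map_inv₀, Complex.conj_ofReal]
    field_simp
  refine ⟨ψ', ⟨hpsi0, fun a b hab => ?_⟩, fun i => ⟨c i * s, hcs i, hW' i⟩⟩
  -- two different indices
  set i := e.symm (0, 0) with hi
  set j := e.symm (a, -b) with hj
  have hij : i ≠ j := by
    intro hij
    have := e.symm.injective hij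
    rw [Prod.mk.injEq] at this
    rcases hab with h | h
    · exact h this.1.symm
    · exact h (by simpa using this.2.symm)
  have h1 := ipz_mulVec hW (x i) (x j)
  have h2 := hx.2 i j hij
  rw [← h1, hW' i, hW' j, ipz_smul_left, ipz_smul_right, norm_mul (c i * (s : ℂ)), hcs i,
    norm_mul (conj (c j * (s : ℂ))), RCLike.norm_conj, hcs j, one_mul, one_mul] at h2
  have h3 : (e i) = (0, 0) := by rw [hi]; simp
  have h4 : (e j) = (a, -b) := by rw [hj]; simp
  rw [h3, h4] at h2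
  rw [ov_eq_ipz hom]
  exact sq_of_norm h2

/-- The translates of a fiducial vector form a maximal ETF. -/
theorem isMaximalETF_of_isFid {om : ℂ} (hom : om ^ p = 1) {ψ : ZMod p → ℂ} (h : IsFid om ψ)
    (e : Fin (p ^ 2) ≃ ZMod p × ZMod p) (τ : Fin p ≃ ZMod p) :
    IsMaximalETF p (fun i k => wh om (e i).1 (e i).2 ψ (τ k)) := by
  have h1 : ∀ i j, ip (fun k => wh om (e i).1 (e i).2 ψ (τ k))
      (fun k => wh om (e j).1 (e j).2 ψ (τ k)) =
      ipz (wh om (e i).1 (e i).2 ψ) (wh om (e j).1 (e j).2 ψ) := by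
    intro i j
    unfold ip ipz
    exact Fintype.sum_equiv τ _ _ fun k => rfl
  refine ⟨fun i => ?_, fun i j hij => ?_⟩
  · rw [h1]
    have hself : ipz (wh om (e i).1 (e i).2 ψ) (wh om (e i).1 (e i).2 ψ) = ipz ψ ψ := by
      unfold ipz wh
      refine Fintype.sum_equiv (Equiv.addRight (e i).1) _ _ fun r => ?_
      simp only [map_mul, conj_om hom, Equiv.coe_addRight]
      have e2 : chi om ((e i).2 * r) * chi om (-((e i).2 * r)) = 1 := by
        rw [← chi_add hom, add_neg_cancel, chi_zero]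
      linear_combination (ψ (r + (e i).1) * conj (ψ (r + (e i).1))) * e2
    rw [hself, ← ov_zero_eq (om := om)]
    exact h.1
  · rw [h1, norm_ipz_wh hom]
    apply norm_of_sq
    apply h.2
    by_contra hcon
    push Not at hcon
    apply hij
    apply e.injective
    ext1
    · exact (sub_eq_zero.mp hcon.1).symm
    · exact sub_eq_zero.mp hcon.2

/-- Algebraic representatives. -/
theorem exists_alg_rep {om : ℂ} {P : Matrix (ZMod p) (ZMod p) ℂ} (hP : P ∈ fidSet p om)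
    (halg : ∀ r s, IsAlgebraic ℚ (P r s)) :
    ∃ ψ : ZMod p → ℂ, IsFid om ψ ∧ (∀ r, IsAlgebraic ℚ (ψ r)) ∧
      P = Matrix.vecMulVec ψ (fun r => conj (ψ r)) := by
  obtain ⟨ψ, hψ, rfl⟩ := hP
  have hne : ∃ s, ψ s ≠ 0 := by
    by_contra hcon
    push Not at hcon
    have := hψ.1
    rw [ov_zero_eq] at this
    simp [ipz, hcon] at this
  obtain ⟨s, hs⟩ := hne
  set l : ℂ := conj (ψ s) / ‖ψ s‖ with hl
  have hns : (‖ψ s‖ : ℂ) ≠ 0 := by exact_mod_cast norm_ne_zero_iff.mpr hs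
  have hll : l * conj l = 1 := by
    rw [hl, map_div₀, Complex.conj_conj, Complex.conj_ofReal, div_mul_div_comm, mul_comm (conj (ψ s)),
      Complex.mul_conj, Complex.normSq_eq_norm_sq]
    push_cast
    field_simp
  have hnorm_alg : IsAlgebraic ℚ (‖ψ s‖ : ℂ) := by
    have h1 : IsAlgebraic ℚ ((‖ψ s‖ : ℂ) ^ 2) := by
      have h2 := halg s s
      rw [Matrix.vecMulVec_apply, Complex.mul_conj, Complex.normSq_eq_norm_sq] at h2
      push_cast at h2
      exact h2
    exact IsAlgebraic.of_pow two_pos h1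
  refine ⟨fun r => l * ψ r, ⟨?_, ?_⟩, ?_, ?_⟩
  · rw [← hψ.1]
    unfold ov ft
    refine Finset.sum_congr rfl fun r _ => ?_
    simp only [map_mul]
    linear_combination (ψ r * conj (ψ (r + 0)) * chi om (0 * r)) * hll
  · intro a b hab
    rw [← hψ.2 a b hab]
    congr 2
    unfold ov ft
    refine Finset.sum_congr rfl fun r _ => ?_
    simp only [map_mul]
    linear_combination (ψ r * conj (ψ (r + a)) * chi om (b * r)) * hll
  · intro r
    have h2 := halg r s
    rw [Matrix.vecMulVec_apply] at h2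
    have h3 : l * ψ r = (ψ r * conj (ψ s)) * (‖ψ s‖ : ℂ)⁻¹ := by
      rw [hl]; field_simp
    change IsAlgebraic ℚ (l * ψ r)
    rw [h3]
    exact h2.mul hnorm_alg.inv
  · ext r t
    simp only [Matrix.vecMulVec_apply, map_mul]
    linear_combination (-(ψ r * conj (ψ t))) * hll

/-- Two vectors with the same projector differ by a phase. -/
theorem eq_smul_of_vecMulVec {ψ φ : ZMod p → ℂ}
    (h : Matrix.vecMulVec ψ (fun r => conj (ψ r)) = Matrix.vecMulVec φ (fun r => conj (φ r)))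
    (h1 : ipz ψ ψ = 1) : ∃ c : ℂ, ψ = c • φ := by
  have hne : ∃ s, ψ s ≠ 0 := by
    by_contra hcon
    push Not at hcon
    simp [ipz, hcon] at h1
  obtain ⟨s, hs⟩ := hne
  refine ⟨conj (φ s) / conj (ψ s), ?_⟩
  funext r
  have h2 := congrFun (congrFun h r) s
  simp only [Matrix.vecMulVec_apply] at h2
  have h3 : conj (ψ s) ≠ 0 := by simpa using hs
  simp only [Pi.smul_apply, smul_eq_mul]
  field_simp
  rw [h2]; ring

/-- The finite list of homogeneous maximal ETFs. -/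
theorem exists_list {om : ℂ} (hom : IsPrimitiveRoot om p) (hfin : (fidSet p om).Finite)
    (halg : ∀ P ∈ fidSet p om, ∀ r s, IsAlgebraic ℚ (P r s))
    (hform : ∀ x : Fin (p ^ 2) → (Fin p → ℂ), IsMaximalETF p x →
      (∀ i j, ∃ U, IsSymmetry x U ∧ ∃ c : ℂ, U.mulVec (x i) = c • x j) →
      ∃ (W : Matrix (ZMod p) (Fin p) ℂ) (ψ : ZMod p → ℂ) (e : Fin (p ^ 2) ≃ ZMod p × ZMod p),
      W * Wᴴ = 1 ∧ Wᴴ * W = 1 ∧ ∀ i, ∃ c : ℂ, W.mulVec (x i) = c • wh om (e i).1 (e i).2 ψ) :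
    ∃ L : Set (Fin (p ^ 2) → (Fin p → ℂ)), L.Finite ∧
      (∀ y ∈ L, IsMaximalETF p y ∧ ∀ i k, IsAlgebraic ℚ (y i k)) ∧
      ∀ x : Fin (p ^ 2) → (Fin p → ℂ), IsMaximalETF p x →
        (∀ i j, ∃ U, IsSymmetry x U ∧ ∃ c : ℂ, U.mulVec (x i) = c • x j) →
        ∃ y ∈ L, ∃ U ∈ Matrix.unitaryGroup (Fin p) ℂ, ∀ i, ∃ c : ℂ, U.mulVec (x i) = c • y i := by
  classical
  have hrep : ∀ P : fidSet p om, ∃ ψ : ZMod p → ℂ, IsFid om ψ ∧ (∀ r, IsAlgebraic ℚ (ψ r)) ∧
      P.1 = Matrix.vecMulVec ψ (fun r => conj (ψ r)) := fun P => exists_alg_rep P.2 (halg P.1 P.2)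
  choose rep hrep1 hrep2 hrep3 using hrep
  have τ : Fin p ≃ ZMod p := (ZMod.finEquiv p).toEquiv
  have hfinite : Finite (fidSet p om) := hfin
  set G : fidSet p om × (Fin (p ^ 2) ≃ ZMod p × ZMod p) → (Fin (p ^ 2) → (Fin p → ℂ)) :=
    fun q i k => wh om (q.2 i).1 (q.2 i).2 (rep q.1) (τ k) with hG
  refine ⟨Set.range G, Set.finite_range G, ?_, ?_⟩
  · rintro y ⟨⟨P, e⟩, rfl⟩
    refine ⟨isMaximalETF_of_isFid hom.pow_eq_one (hrep1 P) e τ, fun i k => ?_⟩
    have hchi : ∀ x : ZMod p, IsAlgebraic ℚ (chi om x) := by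
      intro x
      have : IsIntegral ℚ (chi om x) := by
        refine IsIntegral.of_pow (n := p) hp.out.pos ?_
        rw [chi_pow hom.pow_eq_one]
        exact isIntegral_one
      exact this.isAlgebraic
    exact (hchi _).mul (hrep2 P _)
  · intro x hx htr
    obtain ⟨W, ψ, e, hW1, hW2, hW⟩ := hform x hx htr
    obtain ⟨ψ', hψ', hc⟩ := isFid_of_form hom.pow_eq_one hx hW2 e hW
    set P : fidSet p om := ⟨Matrix.vecMulVec ψ' (fun r => conj (ψ' r)), ψ', hψ', rfl⟩ with hP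
    obtain ⟨l, hl⟩ := eq_smul_of_vecMulVec (hrep3 P) (by
      rw [← ov_zero_eq (om := om)]; exact hψ'.1)
    refine ⟨G (P, e), ⟨(P, e), rfl⟩, W.submatrix τ id, ?_, fun i => ?_⟩
    · rw [Matrix.mem_unitaryGroup_iff]
      have h1 : star (W.submatrix τ id) = Wᴴ.submatrix id τ := rfl
      have h2 := Matrix.submatrix_mul_equiv W Wᴴ (τ : Fin p → ZMod p) (Equiv.refl (Fin p))
        (τ : Fin p → ZMod p)
      rw [h1]
      refine h2.trans ?_
      rw [hW1]
      exact Matrix.submatrix_one_equiv τ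
    · obtain ⟨c, hc1, hc2⟩ := hc i
      refine ⟨c * l, ?_⟩
      funext k
      have h1 : (W.submatrix τ id).mulVec (x i) k = W.mulVec (x i) (τ k) := rfl
      rw [h1, hc2]
      simp only [Pi.smul_apply, smul_eq_mul, hG, wh]
      have h2 := congrFun hl (τ k + (e i).1)
      simp only [Pi.smul_apply, smul_eq_mul] at h2
      rw [h2]
      ring

end Pool.Agent.SicFin
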