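import Pool.Agent.Lib.MP_d0f9e0_co.Fin.Basic
import Pool.Agent.Lib.MP_d0f9e0_co.WHFin.PartD

/-!
# Part D: if all overlaps on each vertical coset have the same valuation, they are all units
-/

set_option autoImplicit false

namespace Pool.Agent.SicFin

open Finset

/-- Part D. -/
theorem partD {K : Type*} [Field K] {p : ℕ} [Fact p.Prime] (hp : 5 ≤ p) {om : K}
    (hom : IsPrimitiveRoot om p) (f g : ZMod p → K) (h : IsSol om f g) (V : ValuationSubring K)
    (hV : ∀ n : ℕ, n ≠ 0 → V.valuation (n : K) = 1) (m : ZMod p → V.ValueGroup)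
    (hm : ∀ a b, V.valuation (ov om f g a b) = m a) : ∀ a, m a = 1 := by
  intro a
  have hchar : CharZero K := by
    have hne : ∀ n : ℕ, n ≠ 0 → (n : K) ≠ 0 := by
      intro n hn h0
      have := hV n hn
      rw [h0, map_zero] at this
      exact zero_ne_one this
    refine ⟨fun x y hxy => ?_⟩
    by_contra hne'
    have hxy' : (x : K) = (y : K) := hxy
    rcases lt_or_gt_of_ne hne' with h1 | h1
    · apply hne (y - x) (by omega)
      rw [Nat.cast_sub h1.le, hxy', sub_self]
    · apply hne (x - y) (by omega)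
      rw [Nat.cast_sub h1.le, hxy', sub_self]
  obtain ⟨χ, hχdef⟩ : ∃ χ : AddChar (ZMod p) K, ∀ x, χ x = chi om x :=
    ⟨AddChar.zmodChar p hom.pow_eq_one, fun x => (chi_eq hom.pow_eq_one x).symm⟩
  have hχ : χ ≠ 1 := by
    intro h1
    have h2 : chi om (1 : ZMod p) = 1 := by
      rw [← hχdef, h1]; rfl
    have hp1 : (1 : ZMod p).val = 1 := by
      have : Fact (1 < p) := ⟨by omega⟩
      exact ZMod.val_one p
    unfold chi at h2
    rw [hp1, pow_one] at h2
    exact hom.ne_one (by omega) h2
  have hov : ∀ a b, Pool.Agent.Lib.MP_d0f9e0_co.WHFin.ov χ f g a b = ov om f g a b := by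
    intro a b
    unfold Pool.Agent.Lib.MP_d0f9e0_co.WHFin.ov ov ft
    exact Finset.sum_congr rfl fun x _ => by rw [hχdef]
  have hWH : Pool.Agent.Lib.MP_d0f9e0_co.WHFin.IsWH χ f g := by
    refine ⟨?_, ?_⟩
    · rw [hov]; exact h.1
    · intro a b hab
      rw [hov, hov, hχdef]
      apply h.2
      by_contra hcon
      push Not at hcon
      exact hab (by rw [hcon.1, hcon.2])
  have hpV : V.valuation (p : K) = 1 := hV p (by omega)
  have key := Pool.Agent.Lib.MP_d0f9e0_co.WHFin.partD hp V χ hV hχ f g hWH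
    (by intro a b; rw [hov, hov, hm, hm]) (by
      intro a x
      have h1 := Pool.Agent.Lib.MP_d0f9e0_co.WHFin.ov_inv χ hχ f g a x
      have h2 : V.valuation (∑ b, Pool.Agent.Lib.MP_d0f9e0_co.WHFin.ov χ f g a b *
          χ (-(b * x))) ≤ m a := by
        apply Pool.Agent.Lib.MP_d0f9e0_co.WHFin.val_sum_le
        intro b _
        rw [map_mul, hov, hm, Pool.Agent.Lib.MP_d0f9e0_co.WHFin.val_char, mul_one]
      rw [h1, map_mul, hpV, one_mul] at h2
      rw [hov, hm]
      exact h2) a
  rw [hov, hm] at key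
  exact key

end Pool.Agent.SicFin
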