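import Pool.Agent.Lib.MP_d0f9e0_co.Fin.Defs
import Pool.Agent.Lib.MP_d0f9e0_co.Fin.Cheb
import Pool.Agent.Lib.MP_d0f9e0_co.Fin.CharP

/-!
# Classification of the leading parts in characteristic zero

The overlaps `ov om f g` over a field of characteristic zero, with `ov q * ov (-q) = 0` for
all `q`, are nonzero on a full line of `ZMod p × ZMod p` (reduction to characteristic `p`).
-/

set_option autoImplicit false

namespace Pool.Agent.SicFin

open Finset

variable {k : Type*} [Field k] {p : ℕ} [hpp : Fact p.Prime]

lemma red_chi_add {om : k} (hom : om ^ p = 1) (x y : ZMod p) :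
    chi om (x + y) = chi om x * chi om y := by
  unfold chi
  rw [ZMod.val_add, ← pow_add]
  exact (pow_eq_pow_mod _ hom).symm

lemma red_chi_zero (om : k) : chi om (0 : ZMod p) = 1 := by
  unfold chi
  simp

lemma red_chi_ne_zero {om : k} (hom : om ^ p = 1) (x : ZMod p) : chi om x ≠ 0 := by
  unfold chi
  intro h
  have h1 : om ≠ 0 := by
    intro h0
    rw [h0, zero_pow hpp.out.ne_zero] at hom
    exact zero_ne_one hom
  exact pow_ne_zero _ h1 h

/-- The translate of the overlap as a matrix product of rank at most `p`, up to phases. -/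
lemma red_ov_add {om : k} (hom : om ^ p = 1) (f g : ZMod p → k) (a b a' b' : ZMod p) :
    chi om (a' * b') * chi om (b * a') * ov om f g (a + a') (b + b') =
      ∑ r : ZMod p, (f (r - a') * chi om (b' * r)) * (g (r + a) * chi om (b * r)) := by
  unfold ov ft
  rw [Finset.mul_sum]
  rw [← Equiv.sum_comp (Equiv.subRight a')]
  apply Finset.sum_congr rfl
  intro r _
  simp only [Equiv.subRight_apply]
  have e1 : r - a' + (a + a') = r + a := by ring
  have e2 : chi om (b' * r) * chi om (b * r) =
      chi om (a' * b') * chi om (b * a') * chi om ((b + b') * (r - a')) := by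
    rw [← red_chi_add hom, ← red_chi_add hom, ← red_chi_add hom]
    congr 1
    ring
  rw [e1]
  calc chi om (a' * b') * chi om (b * a') * (f (r - a') * g (r + a) *
        chi om ((b + b') * (r - a')))
      = f (r - a') * g (r + a) * (chi om (a' * b') * chi om (b * a') *
        chi om ((b + b') * (r - a'))) := by ring
    _ = _ := by rw [← e2]; ring

/-- The overlap does not vanish identically. -/
lemma red_exists_ov_ne_zero [CharZero k] {om : k} (hom : IsPrimitiveRoot om p) (f g : ZMod p → k)
    (hf : f ≠ 0) (hg : g ≠ 0) : ∃ a b, ov om f g a b ≠ 0 := by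
  classical
  obtain ⟨r0, hr0⟩ := Function.ne_iff.mp hf
  obtain ⟨s0, hs0⟩ := Function.ne_iff.mp hg
  refine ⟨s0 - r0, ?_⟩
  by_contra hcon
  push Not at hcon
  have hx : (fun r => f r * g (r + (s0 - r0))) ≠ 0 := by
    intro h
    have h1 := congrFun h r0
    simp only [Pi.zero_apply, mul_eq_zero] at h1
    rcases h1 with h1 | h1
    · exact hr0 h1
    · apply hs0
      have : r0 + (s0 - r0) = s0 := by ring
      rw [this] at h1
      exact h1
  have h1 := Pool.Agent.Lib.MP_d0f9e0_co.SicFin.cheb hom hx
  have h2 : (univ.filter fun b => Pool.Agent.Lib.MP_d0f9e0_co.SicFin.dft om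
      (fun r => f r * g (r + (s0 - r0))) b ≠ 0) = ∅ := by
    rw [Finset.filter_eq_empty_iff]
    intro b _
    rw [not_not]
    exact hcon b
  rw [h2, Finset.card_empty, add_zero] at h1
  have h3 := h1.trans (Finset.card_le_univ _)
  rw [ZMod.card] at h3
  omega

/-- **Classification of leading parts.** -/
theorem exists_coset [CharZero k] (hp : p ≠ 2)
    {om : k} (hom : IsPrimitiveRoot om p) (f g : ZMod p → k) (hf : f ≠ 0) (hg : g ≠ 0)
    (h : ∀ a b, ov om f g a b * ov om f g (-a) (-b) = 0) :
    ∃ a0 b0 c d : ZMod p, (c ≠ 0 ∨ d ≠ 0) ∧ ∀ t, ov om f g (a0 + t * c) (b0 + t * d) ≠ 0 := by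
  classical
  have hp0 : p ≠ 0 := hpp.out.ne_zero
  have homp : om ^ p = 1 := hom.pow_eq_one
  obtain ⟨O, hO⟩ := Pool.Agent.Lib.MP_d0f9e0_co.SicFin.exists_above p k
  -- the point of largest valuation
  obtain ⟨q1, _, hq1⟩ := Finset.exists_max_image (univ : Finset (ZMod p × ZMod p))
    (fun q => O.valuation (ov om f g q.1 q.2)) Finset.univ_nonempty
  have hm0 : ov om f g q1.1 q1.2 ≠ 0 := by
    intro h0
    obtain ⟨a, b, hab⟩ := red_exists_ov_ne_zero hom f g hf hg
    apply hab
    have h1 := hq1 (a, b) (Finset.mem_univ _)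
    rw [h0, map_zero] at h1
    have h2 := le_antisymm h1 zero_le
    simpa using h2
  set m := ov om f g q1.1 q1.2 with hm
  have hvm0 : O.valuation m ≠ 0 := by simpa using hm0
  have hT : ∀ q : ZMod p × ZMod p, m⁻¹ * ov om f g q.1 q.2 ∈ O := by
    intro q
    rw [← ValuationSubring.valuation_le_one_iff, map_mul, map_inv₀]
    have h1 := hq1 q (Finset.mem_univ q)
    calc (O.valuation m)⁻¹ * O.valuation (ov om f g q.1 q.2)
        ≤ (O.valuation m)⁻¹ * O.valuation m := mul_le_mul_right h1 _
      _ = 1 := inv_mul_cancel₀ hvm0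
  have hζO : om ∈ O := by
    rw [← ValuationSubring.valuation_le_one_iff,
      Pool.Agent.Lib.MP_d0f9e0_co.SicFin.val_zeta O hp0 homp]
  set z : O := ⟨om, hζO⟩ with hz
  have hzp : z ^ p = 1 := by
    apply Subtype.ext
    simpa using homp
  -- the residue field
  let κ := IsLocalRing.ResidueField O
  let res := IsLocalRing.residue O
  have hchar : CharP κ p := by
    rw [CharP.charP_iff_prime_eq_zero hpp.out]
    have h1 : ((p : O) : O) ∈ IsLocalRing.maximalIdeal O := by
      rw [ValuationSubring.valuation_lt_one_iff]
      simpa using hO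
    have h2 : res (p : O) = 0 := (IsLocalRing.residue_eq_zero_iff _).mpr h1
    simpa using h2
  have hres1 : res z = 1 := by
    have h1 : (res z - 1) ^ p = 0 := by
      rw [sub_pow_char, ← map_pow, hzp, map_one, one_pow, sub_self]
    have h2 := (pow_eq_zero_iff hp0).mp h1
    exact sub_eq_zero.mp h2
  set T : ZMod p × ZMod p → O := fun q => ⟨m⁻¹ * ov om f g q.1 q.2, hT q⟩ with hTdef
  set P : ZMod p × ZMod p → κ := fun q => res (T q) with hPdef
  have hT1 : T q1 = 1 := by
    apply Subtype.ext
    simp only [hTdef]
    exact inv_mul_cancel₀ hm0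
  have hP1 : P q1 = 1 := by
    simp only [hPdef, hT1, map_one]
  have hPne : P ≠ 0 := by
    intro h0
    have h1 := congrFun h0 q1
    rw [hP1] at h1
    exact one_ne_zero h1
  have hPP : ∀ q, P q * P (-q) = 0 := by
    intro q
    have h1 : T q * T (-q) = 0 := by
      apply Subtype.ext
      simp only [hTdef]
      have h2 := h q.1 q.2
      change m⁻¹ * ov om f g q.1 q.2 * (m⁻¹ * ov om f g (-q).1 (-q).2) = 0
      have h3 : (-q).1 = -q.1 := rfl
      have h4 : (-q).2 = -q.2 := rfl
      rw [h3, h4]
      calc m⁻¹ * ov om f g q.1 q.2 * (m⁻¹ * ov om f g (-q.1) (-q.2))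
          = m⁻¹ * m⁻¹ * (ov om f g q.1 q.2 * ov om f g (-q.1) (-q.2)) := by ring
        _ = 0 := by rw [h2, mul_zero]
    simp only [hPdef]
    rw [← map_mul, h1, map_zero]
  -- any `p + 1` translates are linearly dependent
  have hdep : ∀ q : Fin (p + 1) → ZMod p × ZMod p,
      ¬ LinearIndependent κ (fun i => fun x : ZMod p × ZMod p => P (x + q i)) := by
    intro q hli
    -- rows over `k`
    let U : Fin (p + 1) → ZMod p → k := fun i r =>
      f (r - (q i).1) * chi om ((q i).2 * r)
    have hU : ¬ LinearIndependent k U := by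
      intro hl
      have h1 := hl.fintype_card_le_finrank
      rw [Module.finrank_fintype_fun_eq_card, ZMod.card, Fintype.card_fin] at h1
      omega
    rw [Fintype.linearIndependent_iff] at hU
    push Not at hU
    obtain ⟨c, hc, i0, hi0⟩ := hU
    obtain ⟨i1, _, hi1⟩ := Finset.exists_max_image (univ : Finset (Fin (p + 1)))
      (fun i => O.valuation (c i)) Finset.univ_nonempty
    have hc1 : c i1 ≠ 0 := by
      intro h0
      have h1 := hi1 i0 (Finset.mem_univ _)
      rw [h0, map_zero] at h1
      have h2 := le_antisymm h1 zero_le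
      exact hi0 (by simpa using h2)
    have hvc : O.valuation (c i1) ≠ 0 := by simpa using hc1
    have hcO : ∀ i, (c i1)⁻¹ * c i ∈ O := by
      intro i
      rw [← ValuationSubring.valuation_le_one_iff, map_mul, map_inv₀]
      have h1 := hi1 i (Finset.mem_univ i)
      calc (O.valuation (c i1))⁻¹ * O.valuation (c i)
          ≤ (O.valuation (c i1))⁻¹ * O.valuation (c i1) := mul_le_mul_right h1 _
        _ = 1 := inv_mul_cancel₀ hvc
    set d : Fin (p + 1) → O := fun i => ⟨(c i1)⁻¹ * c i, hcO i⟩ with hd
    have hd1 : d i1 = 1 := by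
      apply Subtype.ext
      simp only [hd]
      exact inv_mul_cancel₀ hc1
    -- relation over `O`
    have hrel : ∀ x : ZMod p × ZMod p,
        ∑ i, d i * (z ^ ((q i).1 * (q i).2).val * z ^ (x.2 * (q i).1).val * T (x + q i)) = 0 := by
      intro x
      apply Subtype.ext
      push_cast
      have h1 : ∀ r, ∑ i, c i * U i r = 0 := by
        intro r
        have := congrFun hc r
        simpa using this
      have h2 : ∑ i, c i * (chi om ((q i).1 * (q i).2) * chi om (x.2 * (q i).1) *
          ov om f g (x.1 + (q i).1) (x.2 + (q i).2)) = 0 := by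
        calc ∑ i, c i * (chi om ((q i).1 * (q i).2) * chi om (x.2 * (q i).1) *
              ov om f g (x.1 + (q i).1) (x.2 + (q i).2))
            = ∑ i, c i * ∑ r : ZMod p, U i r * (g (r + x.1) * chi om (x.2 * r)) := by
              apply Finset.sum_congr rfl
              intro i _
              rw [red_ov_add homp]
          _ = ∑ r : ZMod p, (∑ i, c i * U i r) * (g (r + x.1) * chi om (x.2 * r)) := by
              simp_rw [Finset.mul_sum, Finset.sum_mul]
              rw [Finset.sum_comm]
              apply Finset.sum_congr rfl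
              intro r _
              apply Finset.sum_congr rfl
              intro i _
              ring
          _ = 0 := by
              apply Finset.sum_eq_zero
              intro r _
              rw [h1, zero_mul]
      calc ∑ i, (c i1)⁻¹ * c i * (om ^ ((q i).1 * (q i).2).val * om ^ (x.2 * (q i).1).val *
            (m⁻¹ * ov om f g (x + q i).1 (x + q i).2))
          = (c i1)⁻¹ * m⁻¹ * ∑ i, c i * (chi om ((q i).1 * (q i).2) * chi om (x.2 * (q i).1) *
              ov om f g (x.1 + (q i).1) (x.2 + (q i).2)) := by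
            rw [Finset.mul_sum]
            apply Finset.sum_congr rfl
            intro i _
            unfold chi
            simp only [Prod.fst_add, Prod.snd_add]
            ring
        _ = 0 := by rw [h2, mul_zero]
    rw [Fintype.linearIndependent_iff] at hli
    have h3 := hli (fun i => res (d i)) (by
      funext x
      have h4 := congrArg res (hrel x)
      rw [map_zero, map_sum] at h4
      simp only [map_mul, map_pow, hres1, one_pow, one_mul] at h4
      simpa [hPdef] using h4) i1
    simp only [hd1, map_one] at h3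
    exact one_ne_zero h3
  -- the rank bound
  have hrank : Module.finrank κ (Submodule.span κ
      (Set.range fun q : ZMod p × ZMod p => fun x : ZMod p × ZMod p => P (x + q))) ≤ p := by
    obtain ⟨ι, a, ha, hspan, hli⟩ := exists_linearIndependent' κ
      (fun q : ZMod p × ZMod p => fun x : ZMod p × ZMod p => P (x + q))
    have : Finite ι := Finite.of_injective a ha
    have : Fintype ι := Fintype.ofFinite ι
    rw [← hspan, finrank_span_eq_card hli]
    by_contra hcon
    push Not at hcon
    obtain ⟨e⟩ : Nonempty (Fin (p + 1) ↪ ι) := by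
      apply Function.Embedding.nonempty_of_card_le
      rw [Fintype.card_fin]
      exact hcon
    exact hdep (fun i => a (e i)) (hli.comp e e.injective)
  obtain ⟨q0, hq0, hinv⟩ := translate_invariant hp P hPne hPP hrank
  have hind : ∀ n : ℕ, P (q1 + n • q0) = 1 := by
    intro n
    induction n with
    | zero => simpa using hP1
    | succ n ih =>
      rw [succ_nsmul, ← add_assoc, hinv, ih]
  refine ⟨q1.1, q1.2, q0.1, q0.2, ?_, ?_⟩
  · by_contra hcon
    push Not at hcon
    exact hq0 (Prod.ext hcon.1 hcon.2)
  · intro t h0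
    have h1 := hind t.val
    have h2 : q1 + t.val • q0 = (q1.1 + t * q0.1, q1.2 + t * q0.2) := by
      apply Prod.ext
      · simp [nsmul_eq_mul]
      · simp [nsmul_eq_mul]
    rw [h2] at h1
    have h3 : T (q1.1 + t * q0.1, q1.2 + t * q0.2) = 0 := by
      apply Subtype.ext
      simp only [hTdef]
      rw [h0, mul_zero]
      rfl
    simp only [hPdef, h3, map_zero] at h1
    exact zero_ne_one h1

end Pool.Agent.SicFin
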