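import Mathlib
import Pool.Agent.Lib.MP_d0f9e0_co.Bridge

/-!
# Z3: a transitive family of unitaries does not commute with a clock

If `U^p = 1` and `tr U^k = 0` for `0 < k < p`, then `P = (1/p) ∑ U^k` is an orthogonal projector of
trace `1`.  Unitaries commuting with `U` preserve `⟨x_i, P x_i⟩`; if they act transitively on the
lines of a maximal equiangular tight frame, then `⟨x_i, P x_i⟩ = 1/p` for all `i`, which
contradicts the `2`-design identity `∑ |⟨x_i, P x_i⟩|² = 2p/(p+1)`.
-/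

set_option autoImplicit false

namespace Pool.Agent.SicFin

open Matrix Pool.Agent.Lib.MP_d0f9e0_co

lemma toEuclideanLin_toLp {d : ℕ} (P : Matrix (Fin d) (Fin d) ℂ) (v : Fin d → ℂ) :
    Matrix.toEuclideanLin P (WithLp.toLp 2 v) = WithLp.toLp 2 (P.mulVec v) := rfl

lemma trace_toEuclideanLin {d : ℕ} (P : Matrix (Fin d) (Fin d) ℂ) :
    LinearMap.trace ℂ _ (Matrix.toEuclideanLin P) = P.trace := by
  rw [trace_eq_ent]
  simp only [Matrix.trace, Matrix.diag]
  refine Finset.sum_congr rfl fun a _ => ?_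
  have : (EuclideanSpace.basisFun (Fin d) ℂ) a = WithLp.toLp 2 (Pi.single a 1) := by
    simp
  simp only [ent]
  rw [this]
  change (Matrix.toEuclideanLin P (WithLp.toLp 2 (Pi.single a 1))) a = P a a
  rw [toEuclideanLin_toLp]
  simp

lemma sum_norm_basis {d : ℕ} (P : Matrix (Fin d) (Fin d) ℂ) :
    (((∑ b, ‖Matrix.toEuclideanLin P (EuclideanSpace.basisFun (Fin d) ℂ b)‖ ^ 2 : ℝ)) : ℂ)
      = (Pᴴ * P).trace := by
  simp only [Matrix.trace, Matrix.diag]
  push_cast
  refine Finset.sum_congr rfl fun b _ => ?_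
  have hb : (EuclideanSpace.basisFun (Fin d) ℂ) b = WithLp.toLp 2 (Pi.single b 1) := by
    simp
  rw [hb, toEuclideanLin_toLp, ← Complex.ofReal_pow, EuclideanSpace.norm_sq_eq]
  push_cast
  simp only [Matrix.mul_apply, Matrix.conjTranspose_apply]
  refine Finset.sum_congr rfl fun a _ => ?_
  simp only [Matrix.mulVec_single_one]
  have := Complex.conj_mul' (P a b)
  exact this.symm

/-- Z3. A transitive set of unitaries cannot commute with a clock matrix `U`. -/
theorem not_commuting {p : ℕ} [Fact p.Prime] {x : Fin (p ^ 2) → (Fin p → ℂ)}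
    (hx : IsMaximalETF p x) (U : Matrix (Fin p) (Fin p) ℂ)
    (hU : U ∈ Matrix.unitaryGroup (Fin p) ℂ)
    (hUp : U ^ p = 1) (htr : ∀ k, 0 < k → k < p → (U ^ k).trace = 0)
    (hcomm : ∀ i j, ∃ V : Matrix (Fin p) (Fin p) ℂ, V ∈ Matrix.unitaryGroup (Fin p) ℂ ∧
      V * U = U * V ∧ ∃ c : ℂ, V.mulVec (x i) = c • x j) : False := by
  have hp : p.Prime := Fact.out
  have hp0 : (p : ℂ) ≠ 0 := by exact_mod_cast hp.ne_zero
  have hpos : 0 < p := hp.pos
  set P : Matrix (Fin p) (Fin p) ℂ := (1 / (p : ℂ)) • ∑ k ∈ Finset.range p, U ^ k with hPdef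
  have hUU : Uᴴ * U = 1 := Matrix.mem_unitaryGroup_iff'.1 hU
  -- `U P = P`
  have hUP : U * P = P := by
    rw [hPdef, Matrix.mul_smul, Finset.mul_sum]
    congr 1
    have h1 : ∑ k ∈ Finset.range p, U * U ^ k = ∑ k ∈ Finset.range p, U ^ (k + 1) :=
      Finset.sum_congr rfl fun k _ => by rw [pow_succ']
    rw [h1]
    have h2 := Finset.sum_range_succ (fun k => U ^ k) p
    have h3 := Finset.sum_range_succ' (fun k => U ^ k) p
    rw [h3] at h2
    rw [hUp, pow_zero] at h2
    exact add_right_cancel h2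
  have hUHP : Uᴴ * P = P := by
    conv_lhs => rw [← hUP, ← Matrix.mul_assoc, hUU, Matrix.one_mul]
  have hUHkP : ∀ k, (Uᴴ) ^ k * P = P := by
    intro k
    induction k with
    | zero => simp
    | succ k ih => rw [pow_succ, Matrix.mul_assoc, hUHP, ih]
  have hPHP : Pᴴ * P = P := by
    have h1 : Pᴴ = (1 / (p : ℂ)) • ∑ k ∈ Finset.range p, (Uᴴ) ^ k := by
      rw [hPdef, Matrix.conjTranspose_smul, Matrix.conjTranspose_sum]
      congr 1
      · simp
      · refine Finset.sum_congr rfl fun k _ => ?_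
        rw [Matrix.conjTranspose_pow]
    rw [h1, Matrix.smul_mul, Finset.sum_mul, Finset.sum_congr rfl fun k _ => hUHkP k]
    rw [Finset.sum_const, Finset.card_range]
    rw [← Nat.cast_smul_eq_nsmul ℂ, smul_smul, one_div, inv_mul_cancel₀ hp0, one_smul]
  have htrP : P.trace = 1 := by
    rw [hPdef, Matrix.trace_smul, Matrix.trace_sum]
    have h1 : ∑ k ∈ Finset.range p, (U ^ k).trace = (p : ℂ) := by
      rw [Finset.sum_eq_single_of_mem 0 (Finset.mem_range.2 hpos)]
      · simp
      · intro k hk hk0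
        exact htr k (Nat.pos_of_ne_zero hk0) (Finset.mem_range.1 hk)
    rw [h1, smul_eq_mul, one_div, inv_mul_cancel₀ hp0]
  have hM := hx.toMaxETF
  set A := Matrix.toEuclideanLin P with hA
  set y : Fin (p ^ 2) → EuclideanSpace ℂ (Fin p) := fun i => WithLp.toLp 2 (x i) with hy
  set q : Fin (p ^ 2) → ℂ := fun i => inner ℂ (y i) (A (y i)) with hq
  -- all `q i` are equal
  have hqeq : ∀ i j, q i = q j := by
    intro i j
    obtain ⟨V, hV, hVU, c, hc⟩ := hcomm i j
    have hV1 : Vᴴ * V = 1 := Matrix.mem_unitaryGroup_iff'.1 hV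
    have hV2 : V * Vᴴ = 1 := Matrix.mem_unitaryGroup_iff.1 hV
    have hVUk : ∀ k, V * U ^ k = U ^ k * V := by
      intro k
      induction k with
      | zero => simp
      | succ k ih => rw [pow_succ, ← Matrix.mul_assoc, ih, Matrix.mul_assoc, hVU, Matrix.mul_assoc]
    have hVP : V * P = P * V := by
      rw [hPdef, Matrix.mul_smul, Matrix.smul_mul, Finset.mul_sum, Finset.sum_mul]
      congr 1
      exact Finset.sum_congr rfl fun k _ => hVUk k
    have e1 : toLIE V hV1 hV2 (y i) = c • y j := by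
      rw [hy]
      change toLIE V hV1 hV2 (WithLp.toLp 2 (x i)) = c • (WithLp.toLp 2 (x j))
      rw [toLIE_apply, hc]
      rfl
    have hcn : ‖c‖ = 1 := by
      have h1 : ‖toLIE V hV1 hV2 (y i)‖ = ‖y i‖ := LinearIsometryEquiv.norm_map _ _
      rw [e1, norm_smul, hM.norm i, hM.norm j, mul_one] at h1
      exact h1
    have e2 : toLIE V hV1 hV2 (A (y i)) = A (toLIE V hV1 hV2 (y i)) := by
      rw [hA, hy]
      change toLIE V hV1 hV2 (WithLp.toLp 2 (P.mulVec (x i)))
        = Matrix.toEuclideanLin P (WithLp.toLp 2 (V.mulVec (x i)))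
      rw [toLIE_apply, toEuclideanLin_toLp, Matrix.mulVec_mulVec, Matrix.mulVec_mulVec, hVP]
    have e3 : q i = inner ℂ (toLIE V hV1 hV2 (y i)) (toLIE V hV1 hV2 (A (y i))) := by
      rw [LinearIsometryEquiv.inner_map_map]
    rw [e3, e2, e1, map_smul, inner_smul_left, inner_smul_right, ← mul_assoc, Complex.conj_mul',
      hcn]
    simp [hq]
  have hsum : ∑ i, q i = (p : ℂ) := by
    have := hM.sum_inner_map A
    rw [trace_toEuclideanLin, htrP, mul_one] at this
    exact this
  have hqval : ∀ i, q i = 1 / (p : ℂ) := by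
    intro i
    have h1 : ∑ j, q j = ((p : ℂ) ^ 2) * q i := by
      rw [Finset.sum_congr rfl fun j _ => hqeq j i]
      simp
    rw [h1] at hsum
    field_simp
    have h2 : (p : ℂ) * ((p : ℂ) * q i) = (p : ℂ) * 1 := by
      rw [mul_one]
      calc (p : ℂ) * ((p : ℂ) * q i) = (p : ℂ) ^ 2 * q i := by ring
        _ = p := hsum
    have h3 := mul_left_cancel₀ hp0 h2
    linear_combination h3
  have hsq := hM.sum_norm_inner_map A
  have hbas : (∑ b, ‖A (EuclideanSpace.basisFun (Fin p) ℂ b)‖ ^ 2 : ℝ) = 1 := by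
    have := sum_norm_basis P
    rw [hPHP, htrP] at this
    exact_mod_cast this
  rw [hbas, trace_toEuclideanLin, htrP] at hsq
  have hl : ∑ k, ‖(inner ℂ (y k) (A (y k)) : ℂ)‖ ^ 2 = 1 := by
    have h1 : ∀ k, ‖(inner ℂ (y k) (A (y k)) : ℂ)‖ ^ 2 = 1 / (p : ℝ) ^ 2 := by
      intro k
      have := hqval k
      simp only [hq] at this
      rw [this]
      simp
    rw [Finset.sum_congr rfl fun k _ => h1 k]
    have hp0' : (p : ℝ) ≠ 0 := by exact_mod_cast hp.ne_zero
    simp [hp0']
  rw [hl] at hsq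
  have hp1 : (2 : ℝ) ≤ p := by exact_mod_cast hp.two_le
  have hp2 : (0 : ℝ) < (p : ℝ) + 1 := by linarith
  simp only [norm_one, one_pow] at hsq
  rw [div_mul_eq_mul_div, eq_div_iff hp2.ne'] at hsq
  linarith

end Pool.Agent.SicFin
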