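import Mathlib

/-!
# A transitive group on `p ^ 2` points contains a transitive `p`-group with a central element
-/

namespace Pool.Agent.SicFin

/-- Z1 (SylowTrans.lean). A transitive permutation group on `p^2` points contains a transitive
subgroup with a central element of order `p`. (Take a Sylow p-subgroup; it is transitive because
`p^2` is a prime power; its centre is nontrivial.) -/
theorem exists_central {p : ℕ} [Fact p.Prime] {I : Type*} [Fintype I] [DecidableEq I]
    (hcard : Fintype.card I = p ^ 2) (H : Subgroup (Equiv.Perm I))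
    (htrans : ∀ i j, ∃ σ ∈ H, σ i = j) :
    ∃ P : Subgroup (Equiv.Perm I), P ≤ H ∧ (∀ i j, ∃ σ ∈ P, σ i = j) ∧
      ∃ z ∈ P, z ≠ 1 ∧ z ^ p = 1 ∧ ∀ σ ∈ P, σ * z = z * σ := by
  classical
  have hp : p.Prime := Fact.out
  have hcard' : Nat.card I = p ^ 2 := by rw [Nat.card_eq_fintype_card, hcard]
  have : MulAction.IsPretransitive H I := ⟨fun i j => by
    obtain ⟨σ, hσ, h⟩ := htrans i j
    exact ⟨⟨σ, hσ⟩, h⟩⟩
  obtain ⟨P⟩ : Nonempty (Sylow p H) := inferInstance
  -- the Sylow subgroup is transitive
  have horb : ∀ i : I, Nat.card (MulAction.orbit P i) = p ^ 2 := by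
    intro i
    -- stabilizers
    have h1 : (MulAction.stabilizer H i).index = p ^ 2 := by
      rw [MulAction.index_stabilizer_of_transitive, hcard']
    have h2 : Nat.card (MulAction.stabilizer H i) * p ^ 2 = Nat.card H := by
      rw [← h1]; exact Subgroup.card_mul_index _
    have h3 : Nat.card (MulAction.stabilizer P i) * Nat.card (MulAction.orbit P i) =
        Nat.card P := by
      rw [← Subgroup.card_mul_index (MulAction.stabilizer P i), MulAction.index_stabilizer]
      rfl
    have hPcard : Nat.card P = p ^ (Nat.card H).factorization p := P.card_eq_multiplicity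
    have h4 : Nat.card (MulAction.stabilizer P i) ∣ Nat.card (MulAction.stabilizer H i) := by
      let f : MulAction.stabilizer P i →* MulAction.stabilizer H i :=
        { toFun := fun g => ⟨(g.1 : H), g.2⟩
          map_one' := rfl
          map_mul' := fun _ _ => rfl }
      refine Subgroup.card_dvd_of_injective f ?_
      intro a b hab
      have := congrArg Subtype.val hab
      exact Subtype.ext (Subtype.ext this)
    have h5 : Nat.card (MulAction.stabilizer P i) ∣ p ^ (Nat.card H).factorization p := by
      rw [← hPcard]; exact Dvd.intro _ h3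
    obtain ⟨m, hm, hms⟩ := (Nat.dvd_prime_pow hp).mp h5
    have hHne : Nat.card H ≠ 0 := Nat.card_pos.ne'
    have h6 : p ^ (m + 2) ∣ Nat.card H := by
      rw [← h2, pow_add, ← hms]
      exact Nat.mul_dvd_mul_right h4 _
    have h7 : m + 2 ≤ (Nat.card H).factorization p :=
      (hp.pow_dvd_iff_le_factorization hHne).mp h6
    have h8 : p ^ 2 ≤ Nat.card (MulAction.orbit P i) := by
      have h9 : p ^ m * p ^ 2 ≤ p ^ m * Nat.card (MulAction.orbit P i) := by
        rw [← hms, h3, hPcard, hms, ← pow_add]
        exact Nat.pow_le_pow_right hp.pos h7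
      exact Nat.le_of_mul_le_mul_left h9 (pow_pos hp.pos _)
    refine le_antisymm ?_ h8
    rw [← hcard']
    exact Nat.card_le_card_of_injective _ Subtype.val_injective
  have hPtrans : ∀ i j : I, ∃ σ : P, σ • i = j := by
    intro i j
    have h1 : MulAction.orbit P i = Set.univ := by
      refine Set.eq_of_subset_of_ncard_le (Set.subset_univ _) ?_ (Set.toFinite _)
      rw [Set.ncard_univ, hcard', ← Nat.card_coe_set_eq, horb i]
    have h2 : j ∈ MulAction.orbit P i := by rw [h1]; trivial
    exact h2
  -- the centre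
  have hNI : Nontrivial I := by
    rw [← Fintype.one_lt_card_iff_nontrivial, hcard]
    exact Nat.one_lt_pow two_ne_zero hp.one_lt
  have : Nontrivial P := by
    obtain ⟨i, j, hij⟩ := hNI.exists_pair_ne
    obtain ⟨σ, hσ⟩ := hPtrans i j
    refine ⟨σ, 1, ?_⟩
    rintro rfl
    exact hij (by rw [← hσ, one_smul])
  have : Nontrivial (Subgroup.center P) := P.isPGroup'.center_nontrivial
  have hdvd : p ∣ Nat.card (Subgroup.center P) := by
    obtain ⟨n, hn0, hn⟩ := (P.isPGroup'.to_subgroup (Subgroup.center P)).nontrivial_iff_card.mp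
      inferInstance
    rw [hn]
    exact dvd_pow_self p hn0.ne'
  obtain ⟨z, hz⟩ := exists_prime_orderOf_dvd_card' p hdvd
  refine ⟨(P : Subgroup H).map H.subtype, ?_, ?_, ((z : P) : H), ?_, ?_, ?_, ?_⟩
  · exact Subgroup.map_subtype_le _
  · intro i j
    obtain ⟨σ, hσ⟩ := hPtrans i j
    exact ⟨((σ : H) : Equiv.Perm I), ⟨σ.1, σ.2, rfl⟩, hσ⟩
  · exact ⟨((z : P) : H), (z : P).2, rfl⟩
  · intro h
    have h1 : z = 1 := by
      apply Subtype.ext; apply Subtype.ext; apply Subtype.ext
      exact h
    rw [h1, orderOf_one] at hz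
    exact hp.one_lt.ne hz
  · have h1 : z ^ p = 1 := orderOf_dvd_iff_pow_eq_one.mp (dvd_of_eq hz)
    have h2 := congrArg (fun y : Subgroup.center P => (((y : P) : H) : Equiv.Perm I)) h1
    simpa using h2
  · rintro _ ⟨σ, hσ, rfl⟩
    have h1 := Subgroup.mem_center_iff.mp z.2 ⟨σ, hσ⟩
    have h2 := congrArg (fun y : P => ((y : H) : Equiv.Perm I)) h1
    simpa using h2

end Pool.Agent.SicFin
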