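import Pool.Agent.Lib.MP_d0f9e0_co.Fin.WH
import Pool.Agent.Lib.MP_d0f9e0_co.Fin.SylowTrans
import Pool.Agent.Lib.MP_d0f9e0_co.Fin.ClockShift
import Pool.Agent.Lib.MP_d0f9e0_co.Fin.NonComm

/-!
# Maximal ETFs with a transitive symmetry group in prime dimension are Weyl-Heisenberg orbits
-/

namespace Pool.Agent.SicFin

open Matrix Pool.Agent.Lib.MP_d0f9e0_co

variable {p : ℕ} [hp : Fact p.Prime]

theorem Lifts.smul {d : ℕ} {x : Fin (d ^ 2) → (Fin d → ℂ)} {U : Matrix (Fin d) (Fin d) ℂ}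
    {σ : Equiv.Perm (Fin (d ^ 2))} (hU : Lifts x U σ) {c : ℂ} (hc : ‖c‖ = 1) :
    Lifts x (c • U) σ := by
  refine ⟨?_, fun i => ?_⟩
  · rw [Matrix.mem_unitaryGroup_iff, star_smul, smul_mul_smul_comm,
      Matrix.mem_unitaryGroup_iff.1 hU.1]
    have : c * star c = 1 := by
      rw [Complex.star_def, Complex.mul_conj, Complex.normSq_eq_norm_sq, hc]; simp
    rw [this, one_smul]
  · obtain ⟨c', hc'⟩ := hU.2 i
    exact ⟨c * c', by rw [Matrix.smul_mulVec, hc', smul_smul]⟩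

/-- The permutation group of the unitary symmetries. -/
def symSub {d : ℕ} {x : Fin (d ^ 2) → (Fin d → ℂ)} (hx : IsMaximalETF d x) :
    Subgroup (Equiv.Perm (Fin (d ^ 2))) where
  carrier := {σ | ∃ U, Lifts x U σ}
  mul_mem' := by
    rintro σ τ ⟨U, hU⟩ ⟨V, hV⟩
    exact ⟨U * V, hU.mul hV⟩
  one_mem' := ⟨1, Lifts.one x⟩
  inv_mem' := by
    rintro σ ⟨U, hU⟩
    exact ⟨_, hU.inv hx⟩

theorem pow_mul_comm_smul {n : Type*} [Fintype n] [DecidableEq n] {U V : Matrix n n ℂ} {l : ℂ}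
    (h : V * U = l • (U * V)) (A : ℕ) : V ^ A * U = l ^ A • (U * V ^ A) := by
  induction A with
  | zero => simp
  | succ A ih =>
    calc V ^ (A + 1) * U = V ^ A * (V * U) := by rw [pow_succ, Matrix.mul_assoc]
      _ = l • (V ^ A * U * V) := by rw [h, Matrix.mul_smul, Matrix.mul_assoc]
      _ = l • (l ^ A • (U * V ^ A) * V) := by rw [ih]
      _ = l ^ (A + 1) • (U * V ^ (A + 1)) := by
        rw [Matrix.smul_mul, smul_smul, Matrix.mul_assoc, ← pow_succ, ← pow_succ']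

theorem exists_wh_form {om : ℂ} (hom : IsPrimitiveRoot om p)
    {x : Fin (p ^ 2) → (Fin p → ℂ)} (hx : IsMaximalETF p x)
    (htrans : ∀ i j, ∃ U, IsSymmetry x U ∧ ∃ c : ℂ, U.mulVec (x i) = c • x j) :
    ∃ (W : Matrix (ZMod p) (Fin p) ℂ) (ψ : ZMod p → ℂ) (e : Fin (p ^ 2) ≃ ZMod p × ZMod p),
      W * Wᴴ = 1 ∧ Wᴴ * W = 1 ∧ ∀ i, ∃ c : ℂ, W.mulVec (x i) = c • wh om (e i).1 (e i).2 ψ := by
  have hp1 : 1 ≤ p := hp.out.one_lt.le
  have hp0 : 0 < p := hp.out.pos
  -- the transitive subgroup and its central element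
  obtain ⟨P, hPH, hPtr, z, hzP, hz1, hzp, hzc⟩ := exists_central (p := p) (by simp) (symSub hx) (by
    intro i j
    obtain ⟨U, hU, c, hc⟩ := htrans i j
    obtain ⟨σ, hσ⟩ := exists_lifts hp1 hx hU
    exact ⟨σ, ⟨U, hσ⟩, hσ.eq hp1 hx hc⟩)
  -- powers of z have no fixed points
  have hzfix : ∀ k, 0 < k → k < p → ∀ i, (z ^ k) i ≠ i := by
    intro k hk0 hkp i hi
    have h1 : z ^ k = 1 := by
      ext j
      obtain ⟨σ, hσ, rfl⟩ := hPtr i j
      have hc : Commute σ z := hzc σ hσ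
      have h2 : σ * z ^ k = z ^ k * σ := (hc.pow_right k).eq
      have h3 : (z ^ k) (σ i) = σ ((z ^ k) i) := by
        rw [← Equiv.Perm.mul_apply, ← h2, Equiv.Perm.mul_apply]
      rw [h3, hi]
      rfl
    have h2 := orderOf_dvd_of_pow_eq_one h1
    have h3 := orderOf_eq_prime hzp hz1
    rw [h3] at h2
    exact absurd (Nat.le_of_dvd hk0 h2) (not_le.mpr hkp)
  -- the lift U of z with U^p = 1
  obtain ⟨U0, hU0⟩ := hPH hzP
  obtain ⟨μ, hμ1, hμ⟩ := scalar_of_lifts_one hp1 hx (U := U0 ^ p) (by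
    have := hU0.pow p
    rwa [hzp] at this)
  obtain ⟨ν, hν⟩ := IsAlgClosed.exists_pow_nat_eq μ hp0
  have hν1 : ‖ν‖ = 1 := by
    have h1 : ‖ν‖ ^ p = 1 := by rw [← norm_pow, hν, hμ1]
    exact (pow_eq_one_iff_of_nonneg (norm_nonneg _) hp0.ne').1 h1
  have hν0 : ν ≠ 0 := by
    rintro rfl
    simp at hν1
  set U : Matrix (Fin p) (Fin p) ℂ := ν⁻¹ • U0 with hUdef
  have hU : Lifts x U z := hU0.smul (by rw [norm_inv, hν1, inv_one])
  have hUp : U ^ p = 1 := by
    rw [hUdef, smul_pow, hμ, smul_smul, inv_pow, hν, inv_mul_cancel₀, one_smul]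
    rintro rfl
    simp at hμ1
  have htr : ∀ k, 0 < k → k < p → (U ^ k).trace = 0 := by
    intro k hk0 hkp
    exact (trace_eq_zero_iff hp1 hx (hU.pow k)).2 (hzfix k hk0 hkp)
  -- a non-commuting lift
  have hex : ∃ σ ∈ P, ∃ V, Lifts x V σ ∧ V * U ≠ U * V := by
    by_contra hcon
    push Not at hcon
    refine not_commuting hx U hU.1 hUp htr ?_
    intro i j
    obtain ⟨σ, hσ, rfl⟩ := hPtr i j
    obtain ⟨V, hV⟩ := hPH hσ
    exact ⟨V, hV.1, hcon σ hσ V hV, hV.2 i⟩
  obtain ⟨σ, hσP, V, hV, hVU⟩ := hex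
  have hσz : Commute σ z := hzc σ hσP
  have hUU : Uᴴ * U = 1 := Matrix.mem_unitaryGroup_iff'.1 hU.1
  have hUU' : U * Uᴴ = 1 := Matrix.mem_unitaryGroup_iff.1 hU.1
  have hVV : Vᴴ * V = 1 := Matrix.mem_unitaryGroup_iff'.1 hV.1
  obtain ⟨l, hl1, hl⟩ := scalar_of_lifts_one hp1 hx (U := V * U * (Vᴴ * Uᴴ)) (by
    have h1 := (hV.mul hU).mul ((hV.inv hx).mul (hU.inv hx))
    have h2 : σ * z * (σ⁻¹ * z⁻¹) = 1 := by
      rw [hσz.eq]; group
    rwa [h2] at h1)
  have hcomm : V * U = l • (U * V) := by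
    have h1 : V * U * (Vᴴ * Uᴴ) * (U * V) = V * U := by
      calc V * U * (Vᴴ * Uᴴ) * (U * V) = V * U * Vᴴ * (Uᴴ * U) * V := by
            simp only [Matrix.mul_assoc]
        _ = V * U * (Vᴴ * V) := by rw [hUU, Matrix.mul_one, Matrix.mul_assoc]
        _ = V * U := by rw [hVV, Matrix.mul_one]
    rw [← h1, hl, Matrix.smul_mul, Matrix.one_mul]
  have hl1' : l ≠ 1 := by
    rintro rfl
    rw [one_smul] at hcomm
    exact hVU hcomm
  obtain ⟨hlp, c, W, hc0, hW1, hW2, hWV, hWU⟩ := exists_clock_shift U V hU.1 hV.1 hUp htr hl1' hcomm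
  have hWVn : ∀ (n : ℕ) v k, W.mulVec ((V ^ n).mulVec v) k = c ^ n * W.mulVec v (k - n) := by
    intro n
    induction n with
    | zero => intro v k; simp
    | succ n ih =>
      intro v k
      rw [pow_succ, ← Matrix.mulVec_mulVec, ih, hWV, ← mul_assoc, ← pow_succ]
      congr 2
      push_cast; ring
  have hWUn : ∀ (n : ℕ) v k, W.mulVec ((U ^ n).mulVec v) k = (l⁻¹ ^ k.val) ^ n * W.mulVec v k := by
    intro n
    induction n with
    | zero => intro v k; simp
    | succ n ih =>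
      intro v k
      rw [pow_succ, ← Matrix.mulVec_mulVec, ih, hWU, ← mul_assoc, ← pow_succ]
  -- V^p is a scalar and σ^p = 1
  have hVp : V ^ p = c ^ p • 1 := by
    have h1 : W * V ^ p = c ^ p • W := by
      ext k j
      have h2 := hWVn p (Pi.single j 1) k
      rw [Matrix.mulVec_mulVec] at h2
      simpa using h2
    have h2 := congrArg (fun M => Wᴴ * M) h1
    simp only [Matrix.mul_smul] at h2
    rwa [← Matrix.mul_assoc, hW2, Matrix.one_mul] at h2
  have hσp : σ ^ p = 1 := by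
    ext i
    have h1 := (hV.pow p).eq hp1 hx (i := i) (j := i) (c := c ^ p) (by
      rw [hVp, Matrix.smul_mulVec, Matrix.one_mulVec])
    rw [h1]; rfl
  -- traces
  have hlA : ∀ A : ℕ, l ^ A = 1 → p ∣ A := by
    intro A hA
    have h1 := orderOf_dvd_of_pow_eq_one hA
    rwa [orderOf_eq_prime hlp hl1'] at h1
  have htrace : ∀ A B : ℕ, ¬ (p ∣ A ∧ p ∣ B) → (V ^ A * U ^ B).trace = 0 := by
    intro A B hAB
    by_cases hA : p ∣ A
    · have hB : ¬ p ∣ B := fun h => hAB ⟨hA, h⟩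
      obtain ⟨A', rfl⟩ := hA
      have h1 : U ^ B = U ^ (B % p) := by
        conv_lhs => rw [← Nat.div_add_mod B p, pow_add, pow_mul, hUp, one_pow, one_mul]
      rw [pow_mul, hVp, smul_pow, one_pow, Matrix.smul_mul, Matrix.one_mul, Matrix.trace_smul, h1,
        htr (B % p) (Nat.pos_of_ne_zero fun h => hB (Nat.dvd_of_mod_eq_zero h))
          (Nat.mod_lt _ hp0), smul_zero]
    · set T := V ^ A * U ^ B with hT
      have h1 : T * U = l ^ A • (U * T) := by
        rw [hT, Matrix.mul_assoc, ← pow_succ, pow_succ', ← Matrix.mul_assoc,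
          pow_mul_comm_smul hcomm, Matrix.smul_mul, Matrix.mul_assoc]
      have h2 : T = l ^ A • (U * T * Uᴴ) := by
        calc T = T * U * Uᴴ := by rw [Matrix.mul_assoc, hUU', Matrix.mul_one]
          _ = _ := by rw [h1, Matrix.smul_mul]
      have h3 : T.trace = l ^ A * T.trace := by
        conv_lhs => rw [h2]
        rw [Matrix.trace_smul, Matrix.trace_mul_comm, ← Matrix.mul_assoc, hUU, Matrix.one_mul,
          smul_eq_mul]
      have h4 : (1 - l ^ A) * T.trace = 0 := by rw [sub_mul, one_mul, ← h3, sub_self]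
      rcases mul_eq_zero.mp h4 with h5 | h5
      · exact absurd (hlA A (sub_eq_zero.mp h5).symm) hA
      · exact h5
  have hnofix : ∀ A B : ℕ, ¬ (p ∣ A ∧ p ∣ B) → ∀ i, (σ ^ A * z ^ B) i ≠ i := by
    intro A B hAB
    exact (trace_eq_zero_iff hp1 hx ((hV.pow A).mul (hU.pow B))).1 (htrace A B hAB)
  -- the orbit map
  have hpos : 0 < p ^ 2 := by positivity
  set i0 : Fin (p ^ 2) := ⟨0, hpos⟩ with hi0
  set E : ZMod p × ZMod p → Fin (p ^ 2) := fun q => (σ ^ q.1.val * z ^ q.2.val) i0 with hE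
  have hinj : Function.Injective E := by
    rintro ⟨a, b⟩ ⟨a', b'⟩ hab
    have hab' : (σ ^ a.val * z ^ b.val) i0 = (σ ^ a'.val * z ^ b'.val) i0 := hab
    have hcm : ∀ A B A' B' : ℕ, σ ^ A * z ^ B * (σ ^ A' * z ^ B') =
        σ ^ (A + A') * z ^ (B + B') := by
      intro A B A' B'
      have h1 : z ^ B * σ ^ A' = σ ^ A' * z ^ B := ((hσz.pow_pow A' B).eq).symm
      rw [pow_add, pow_add]
      calc σ ^ A * z ^ B * (σ ^ A' * z ^ B') = σ ^ A * (z ^ B * σ ^ A') * z ^ B' := by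
            simp only [mul_assoc]
        _ = _ := by rw [h1]; simp only [mul_assoc]
    have h1 := congrArg (σ ^ (p - a'.val) * z ^ (p - b'.val)) hab'
    rw [← Equiv.Perm.mul_apply, ← Equiv.Perm.mul_apply, hcm, hcm] at h1
    have ha' : a'.val < p := ZMod.val_lt a'
    have hb' : b'.val < p := ZMod.val_lt b'
    have ha : a.val < p := ZMod.val_lt a
    have hb : b.val < p := ZMod.val_lt b
    rw [Nat.sub_add_cancel ha'.le, Nat.sub_add_cancel hb'.le, hσp, hzp, one_mul] at h1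
    have h2 : p ∣ (p - a'.val + a.val) ∧ p ∣ (p - b'.val + b.val) := by
      by_contra hcon
      exact hnofix _ _ hcon i0 h1
    obtain ⟨⟨u, hu⟩, ⟨w, hw⟩⟩ := h2
    have e1 : a.val = a'.val := by
      have : u = 1 := by
        by_contra hne
        rcases Nat.lt_or_ge u 1 with h | h
        · have : u = 0 := by omega
          subst this; omega
        · have h2 : p * 2 ≤ p * u := Nat.mul_le_mul_left p (by omega)
          omega
      subst this; omega
    have e2 : b.val = b'.val := by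
      have : w = 1 := by
        by_contra hne
        rcases Nat.lt_or_ge w 1 with h | h
        · have : w = 0 := by omega
          subst this; omega
        · have h2 : p * 2 ≤ p * w := Nat.mul_le_mul_left p (by omega)
          omega
      subst this; omega
    rw [Prod.mk.injEq]
    exact ⟨ZMod.val_injective p e1, ZMod.val_injective p e2⟩
  have hbij : Function.Bijective E := by
    rw [Fintype.bijective_iff_injective_and_card]
    refine ⟨hinj, ?_⟩
    rw [Fintype.card_prod, ZMod.card, Fintype.card_fin, sq]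
  -- the exponent of `l⁻¹`
  have hlinv : l⁻¹ ^ p = 1 := by rw [inv_pow, hlp, inv_one]
  obtain ⟨m, hm, hml⟩ := hom.eq_pow_of_pow_eq_one hlinv
  have hb1 : (m : ZMod p) ≠ 0 := by
    intro h0
    rw [ZMod.natCast_eq_zero_iff] at h0
    have : m = 0 := Nat.eq_zero_of_dvd_of_lt h0 hm
    rw [this, pow_zero] at hml
    apply hl1'
    rw [← inv_inv l, ← hml, inv_one]
  set b1 : ZMod p := (m : ZMod p) with hb1def
  have hlchi : ∀ k : ZMod p, l⁻¹ ^ k.val = chi om (b1 * k) := by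
    intro k
    unfold chi
    rw [← hml, ← pow_mul]
    have h1 : ((m * k.val : ℕ) : ZMod p) = b1 * k := by
      push_cast
      rw [ZMod.natCast_zmod_val]
    rw [← h1, ZMod.val_natCast]
    exact pow_eq_pow_mod _ hom.pow_eq_one
  have hchipow : ∀ (k : ZMod p) (n : ℕ), chi om k ^ n = chi om ((n : ZMod p) * k) := by
    intro k n
    induction n with
    | zero => simp [chi_zero]
    | succ n ih =>
      rw [pow_succ, ih, ← chi_add hom.pow_eq_one]
      congr 1; push_cast; ring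
  refine ⟨W, W.mulVec (x i0), (Equiv.ofBijective E hbij).symm.trans
    (Equiv.prodCongr (Equiv.neg (ZMod p)) (Equiv.mulRight₀ b1 hb1)), hW1, hW2, fun i => ?_⟩
  obtain ⟨⟨a, b⟩, hab⟩ := hbij.2 i
  have he : (Equiv.ofBijective E hbij).symm i = (a, b) := by
    rw [Equiv.symm_apply_eq]; exact hab.symm
  have he1 : ((Equiv.ofBijective E hbij).symm.trans
    (Equiv.prodCongr (Equiv.neg (ZMod p)) (Equiv.mulRight₀ b1 hb1))) i = (-a, b * b1) := by
    rw [Equiv.trans_apply, he]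
    rfl
  rw [he1]
  obtain ⟨c', hc'⟩ := ((hV.pow a.val).mul (hU.pow b.val)).2 i0
  have hc'0 := coeff_ne_zero hx ((hV.pow a.val).mul (hU.pow b.val)).1 hc'
  have hab' : (σ ^ a.val * z ^ b.val) i0 = i := hab
  rw [hab'] at hc'
  refine ⟨c'⁻¹ * (c ^ a.val * chi om (-(b * b1 * a))), ?_⟩
  have h1 : x i = c'⁻¹ • (V ^ a.val * U ^ b.val).mulVec (x i0) := by
    rw [hc', smul_smul, inv_mul_cancel₀ hc'0, one_smul]
  funext k
  rw [h1, Matrix.mulVec_smul, ← Matrix.mulVec_mulVec]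
  simp only [Pi.smul_apply, smul_eq_mul]
  rw [hWVn, hWUn, ZMod.natCast_zmod_val, hlchi, hchipow, ZMod.natCast_zmod_val]
  unfold wh
  have h2 : chi om (b * (b1 * (k - a))) = chi om (-(b * b1 * a)) * chi om (b * b1 * k) := by
    rw [← chi_add hom.pow_eq_one]
    congr 1; ring
  rw [h2, sub_eq_add_neg]
  ring

end Pool.Agent.SicFin
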