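import Pool.Agent.Lib.MP_d0f9e0_co.Fin.MainOf
import Pool.Agent.Lib.MP_d0f9e0_co.Fin.PartD
import Pool.Agent.Lib.MP_d0f9e0_co.Fin.Reduce
import Pool.Agent.Lib.MP_d0f9e0_co.Fin.ListL
import Pool.Agent.Lib.MP_d0f9e0_co.Fin.Transitive

/-!
# Integrality of the overlaps at all places of residue characteristic zero, and its consequences
-/

namespace Pool.Agent.SicFin

open ComplexConjugate Pool.Agent.Lib.MP_d0f9e0_co

/-- **Integrality theorem**: in prime dimension `p ≥ 5` the overlaps of a solution of the
Weyl-Heisenberg equations are integral at every place containing `ℚ`. -/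
theorem main {K : Type*} [Field K] [CharZero K] {p : ℕ} [Fact p.Prime] (hp : 5 ≤ p)
    {om : K} (hom : IsPrimitiveRoot om p) (f g : ZMod p → K) (h : IsSol om f g)
    (V : ValuationSubring K) (hV : ∀ q : ℚ, (q : K) ∈ V) (a b : ZMod p) : ov om f g a b ∈ V := by
  have hVn := val_natCast V hV
  have := charZero_residue V hVn
  exact main_of hp hom V hV (fun f g h m hm => partD hp hom f g h V hVn m hm)
    (fun om' hom' f g hf hg hfg => exists_coset (by omega) hom' f g hf hg hfg) h a b

theorem integrality {p : ℕ} [Fact p.Prime] (hp : 5 ≤ p) (K : Type*) [Field K] [CharZero K] :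
    Integrality p K :=
  fun _ hom f g h V hV a b => main hp hom f g h V hV a b

/-- The germ field has characteristic zero. -/
instance : CharZero GermField :=
  charZero_of_injective_ringHom constGerm.injective

/-- Finiteness of the set of fiducial projectors for `p ≥ 5`. -/
theorem fidSet_finite {p : ℕ} [Fact p.Prime] (hp : 5 ≤ p) {om : ℂ} (hom : IsPrimitiveRoot om p) :
    (fidSet p om).Finite := by
  refine (finite_matrix (integrality hp GermField) hom).subset ?_
  rintro P ⟨ψ, hψ, rfl⟩
  exact ⟨ψ, fun r => conj (ψ r), isSol_of_isFid hom.pow_eq_one hψ, rfl⟩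

/-- Algebraicity of the fiducial projectors for `p ≥ 5`. -/
theorem fidSet_algebraic {p : ℕ} [Fact p.Prime] (hp : 5 ≤ p) {om : ℂ}
    (hom : IsPrimitiveRoot om p) : ∀ P ∈ fidSet p om, ∀ r s, IsAlgebraic ℚ (P r s) := by
  rintro P ⟨ψ, hψ, rfl⟩ r s
  exact isAlgebraic_entry (integrality hp ℂ) hom (isSol_of_isFid hom.pow_eq_one hψ) r s

end Pool.Agent.SicFin
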