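import Pool.Agent.Lib.MP_d0f9e0_co.Fin.Vert
import Pool.Agent.Lib.MP_d0f9e0_co.Fin.Place

/-!
# Integrality of the overlaps, from the classification of leading parts and Part D
-/

namespace Pool.Agent.SicFin

open Finset Pool.Agent.Lib.MP_d0f9e0_co.SicFin

variable {K : Type*} [Field K] {p : ℕ} [hp : Fact p.Prime]

theorem val_natCast (V : ValuationSubring K) [CharZero K] (hV : ∀ q : ℚ, (q : K) ∈ V) (n : ℕ)
    (hn : n ≠ 0) : V.valuation (n : K) = 1 := by
  have h1 : V.valuation (n : K) ≤ 1 := by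
    rw [ValuationSubring.valuation_le_one_iff]
    have := hV (n : ℚ)
    rwa [Rat.cast_natCast] at this
  have h2 : V.valuation (n : K)⁻¹ ≤ 1 := by
    rw [ValuationSubring.valuation_le_one_iff]
    have := hV ((n : ℚ)⁻¹)
    simpa using this
  have hn0 : (n : K) ≠ 0 := by exact_mod_cast hn
  have h3 : V.valuation (n : K) * V.valuation (n : K)⁻¹ = 1 := by
    rw [← map_mul, mul_inv_cancel₀ hn0, map_one]
  refine le_antisymm h1 ?_
  calc (1 : V.ValueGroup) = V.valuation (n : K) * V.valuation (n : K)⁻¹ := h3.symm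
    _ ≤ V.valuation (n : K) * 1 := mul_le_mul_right h2 _
    _ = V.valuation (n : K) := mul_one _

/-- Integrality of the overlaps. -/
theorem main_of [CharZero K] (hp5 : 5 ≤ p) {om : K} (hom : IsPrimitiveRoot om p)
    (V : ValuationSubring K) (hV : ∀ q : ℚ, (q : K) ∈ V)
    (hD : ∀ f g : ZMod p → K, IsSol om f g → ∀ m : ZMod p → V.ValueGroup,
      (∀ a b, V.valuation (ov om f g a b) = m a) → ∀ a, m a = 1)
    (hcos : ∀ om' : IsLocalRing.ResidueField V, IsPrimitiveRoot om' p →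
      ∀ f g : ZMod p → IsLocalRing.ResidueField V, f ≠ 0 → g ≠ 0 →
      (∀ a b, ov om' f g a b * ov om' f g (-a) (-b) = 0) →
      ∃ a0 b0 c d : ZMod p, (c ≠ 0 ∨ d ≠ 0) ∧ ∀ t, ov om' f g (a0 + t * c) (b0 + t * d) ≠ 0)
    {f g : ZMod p → K} (h : IsSol om f g) (a b : ZMod p) : ov om f g a b ∈ V := by
  by_contra hbad
  have hVn := val_natCast V hV
  have hpK : (p : K) ≠ 0 := by exact_mod_cast hp.out.ne_zero
  obtain ⟨M, a0, b0, c, d, hM, hcd, hline⟩ := exists_bad_line V hVn hom hcos h hbad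
  obtain ⟨f', g', a', h', hline'⟩ := exists_vertical (by omega) V hom hpK h hcd hline
  obtain ⟨m, hm⟩ := partC V hVn hom h' hline'
  have h1 := hD f' g' h' m hm a'
  rw [← hm a' 0, hline' 0] at h1
  rw [h1] at hM
  exact lt_irrefl _ hM

end Pool.Agent.SicFin
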