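import Pool.Agent.Lib.MP_d0f9e0_co.Fin.Basic
import Pool.Agent.Lib.MP_d0f9e0_co.Fin.Cheb

/-!
# Part C: at a bad place all overlaps on a coset have the same valuation
-/

namespace Pool.Agent.SicFin

open Finset Pool.Agent.Lib.MP_d0f9e0_co.SicFin

variable {K : Type*} [Field K] {p : ℕ} [hp : Fact p.Prime]

theorem ft_eq_dft (om : K) (x : ZMod p → K) (b : ZMod p) : ft om x b = dft om x b := rfl

theorem val_chi (V : ValuationSubring K) {om : K} (hom : om ^ p = 1) (x : ZMod p) :
    V.valuation (chi om x) = 1 :=
  val_zeta V hp.out.ne_zero (chi_pow hom x)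

/-- The valuations of opposite overlaps are inverse to each other. -/
theorem val_ov_mul (V : ValuationSubring K) (hV : ∀ n : ℕ, n ≠ 0 → V.valuation (n : K) = 1)
    {om : K} (hom : om ^ p = 1) {f g : ZMod p → K} (h : IsSol om f g) (a b : ZMod p) :
    V.valuation (ov om f g a b) * V.valuation (ov om f g (-a) (-b)) = 1 := by
  rw [← map_mul]
  by_cases hab : a ≠ 0 ∨ b ≠ 0
  · rw [h.2 a b hab, map_div₀, val_chi V hom]
    have := hV (p + 1) (Nat.succ_ne_zero p)
    push_cast at this
    rw [this, div_one]
  · push Not at hab
    rw [hab.1, hab.2, neg_zero, h.1, mul_one, map_one]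

open scoped Classical in
/-- Part C. -/
theorem partC (V : ValuationSubring K) (hV : ∀ n : ℕ, n ≠ 0 → V.valuation (n : K) = 1)
    {om : K} (hom : IsPrimitiveRoot om p) {f g : ZMod p → K} (h : IsSol om f g)
    {a0 : ZMod p} {M : V.ValueGroup} (hline : ∀ b, V.valuation (ov om f g a0 b) = M) :
    ∃ m : ZMod p → V.ValueGroup, ∀ a b, V.valuation (ov om f g a b) = m a := by
  have hvv := val_ov_mul V hV hom.pow_eq_one h
  have hne : ∀ a b, V.valuation (ov om f g a b) ≠ 0 := by
    intro a b h0
    have := hvv a b
    rw [h0, zero_mul] at this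
    exact zero_ne_one this
  -- the uncertainty principle on every coset
  have key : ∀ a : ZMod p, ∃ m : V.ValueGroup, m ≠ 0 ∧
      (∀ k, V.valuation (f k * g (k + a)) ≤ m) ∧
      (∀ b, V.valuation (ov om f g a b) ≤ m) ∧
      p + 1 ≤ (univ.filter fun k => V.valuation (f k * g (k + a)) = m).card +
        (univ.filter fun b => V.valuation (ov om f g a b) = m).card := by
    intro a
    have hx : (fun k => f k * g (k + a)) ≠ 0 := by
      intro h0
      apply hne a 0
      unfold ov ft
      have : ∀ r, f r * g (r + a) = 0 := fun r => congrFun h0 r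
      simp [this]
    exact cheb_val V hV hom hx
  choose m hm0 hmX hmB hcard using key
  have hX_le : ∀ a, (univ.filter fun k => V.valuation (f k * g (k + a)) = m a).card ≤ p := by
    intro a
    calc _ ≤ (univ : Finset (ZMod p)).card := Finset.card_filter_le _ _
      _ = p := by rw [Finset.card_univ, ZMod.card]
  have hB_ne : ∀ a, ∃ b, V.valuation (ov om f g a b) = m a := by
    intro a
    by_contra hcon
    push Not at hcon
    have h1 : (univ.filter fun b => V.valuation (ov om f g a b) = m a).card = 0 := by
      rw [Finset.card_eq_zero, Finset.filter_eq_empty_iff]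
      exact fun b _ => hcon b
    have := hcard a
    have := hX_le a
    omega
  have hma0 : m a0 = M := by
    obtain ⟨b, hb⟩ := hB_ne a0
    rw [← hb, hline b]
  have hMne : M ≠ 0 := by rw [← hma0]; exact hm0 a0
  have hma0' : m (-a0) * M = 1 := by
    obtain ⟨b, hb⟩ := hB_ne (-a0)
    rw [← hb, ← hline (-b)]
    have := hvv a0 (-b)
    rw [neg_neg] at this
    rw [mul_comm]; exact this
  have hge : ∀ a, 1 ≤ m a * m (-a) := by
    intro a
    obtain ⟨b, hb⟩ := hB_ne a
    rw [← hvv a b, hb]
    exact mul_le_mul_right (hmB (-a) (-b)) _
  have hone : ∀ a, m a * m (-a) = 1 := by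
    intro a
    by_contra hcon
    have hlt : 1 < m a * m (-a) := lt_of_le_of_ne (hge a) (Ne.symm hcon)
    set X := univ.filter fun k => V.valuation (f k * g (k + a)) = m a with hX
    set B := univ.filter fun b => V.valuation (ov om f g a b) = m a with hB
    set X' := univ.filter fun k => V.valuation (f k * g (k + -a)) = m (-a) with hX'
    set B' := univ.filter fun b => V.valuation (ov om f g (-a) b) = m (-a) with hB'
    have c1 : p + 1 ≤ X.card + B.card := hcard a
    have c2 : p + 1 ≤ X'.card + B'.card := hcard (-a)
    -- `B` and `-B'` are disjoint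
    have c3 : B.card + B'.card ≤ p := by
      have hdis : Disjoint B (B'.image fun b => -b) := by
        rw [Finset.disjoint_left]
        intro b hb hb'
        rw [Finset.mem_image] at hb'
        obtain ⟨b', hb', rfl⟩ := hb'
        rw [hB, Finset.mem_filter] at hb
        rw [hB', Finset.mem_filter] at hb'
        have := hvv a (-b')
        rw [neg_neg, hb.2, hb'.2] at this
        exact hcon this
      have h1 : (B'.image fun b => -b).card = B'.card :=
        Finset.card_image_of_injective _ neg_injective
      rw [← h1, ← Finset.card_union_of_disjoint hdis]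
      calc _ ≤ (univ : Finset (ZMod p)).card := Finset.card_le_univ _
        _ = p := by rw [Finset.card_univ, ZMod.card]
    -- `X` and the shift of `X'` are disjoint
    have c4 : X.card + X'.card ≤ p := by
      have hdis : Disjoint X (X'.image fun x => x - a + a0) := by
        rw [Finset.disjoint_left]
        intro x hx hx'
        rw [Finset.mem_image] at hx'
        obtain ⟨y, hy, rfl⟩ := hx'
        rw [hX, Finset.mem_filter] at hx
        rw [hX', Finset.mem_filter] at hy
        have e1 := hx.2
        have e2 := hy.2
        have b1 := hmX (-a0) (y - a + a0)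
        have b2 := hmX a0 y
        have i1 : y - a + a0 + a = y + a0 := by ring
        have i2 : y - a + a0 + -a0 = y + -a := by ring
        rw [i1, map_mul] at e1
        rw [map_mul] at e2
        rw [i2, map_mul] at b1
        rw [map_mul, hma0] at b2
        have : m a * m (-a) ≤ 1 := by
          calc m a * m (-a) = (V.valuation (f (y - a + a0)) * V.valuation (g (y + -a))) *
                (V.valuation (f y) * V.valuation (g (y + a0))) := by
                rw [← e1, ← e2]
                simp only [mul_comm, mul_left_comm]
            _ ≤ m (-a0) * M := mul_le_mul' b1 b2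
            _ = 1 := hma0'
        exact absurd hlt (not_lt.mpr this)
      have h1 : (X'.image fun x => x - a + a0).card = X'.card :=
        Finset.card_image_of_injective _ (fun x y hxy => by
          simpa using hxy)
      rw [← h1, ← Finset.card_union_of_disjoint hdis]
      calc _ ≤ (univ : Finset (ZMod p)).card := Finset.card_le_univ _
        _ = p := by rw [Finset.card_univ, ZMod.card]
    omega
  refine ⟨m, fun a b => le_antisymm (hmB a b) ?_⟩
  have h1 := hvv a b
  have h2 := hmB (-a) (-b)
  have h3 := hone a
  have hne' := hne (-a) (-b)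
  -- `m a = m(-a)⁻¹ ≤ v(ov (-a) (-b))⁻¹ = v (ov a b)`
  calc m a = m a * (V.valuation (ov om f g (-a) (-b)) * V.valuation (ov om f g a b)) := by
        rw [mul_comm (V.valuation (ov om f g (-a) (-b))), h1, mul_one]
    _ ≤ m a * (m (-a) * V.valuation (ov om f g a b)) :=
        mul_le_mul_right (mul_le_mul_left h2 _) _
    _ = V.valuation (ov om f g a b) := by rw [← mul_assoc, h3, one_mul]

end Pool.Agent.SicFin
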