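import Pool.Agent.Lib.MP_d0f9e0_co.Fin.PartC

/-!
# Leading parts and normalisation of the direction of the bad line
-/

namespace Pool.Agent.SicFin

open Finset Pool.Agent.Lib.MP_d0f9e0_co.SicFin

variable {K : Type*} [Field K] {p : ℕ} [hp : Fact p.Prime]

theorem residue_natCast_ne_zero (V : ValuationSubring K)
    (hV : ∀ n : ℕ, n ≠ 0 → V.valuation (n : K) = 1) {n : ℕ} (hn : n ≠ 0) :
    (n : IsLocalRing.ResidueField V) ≠ 0 := by
  intro h0
  have h1 : IsLocalRing.residue V (n : V) = 0 := by simpa using h0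
  rw [IsLocalRing.residue_eq_zero_iff, ValuationSubring.valuation_lt_one_iff] at h1
  have h2 := hV n hn
  have h3 : V.valuation (((n : V) : V) : K) = V.valuation (n : K) := by simp
  rw [h3, h2] at h1
  exact lt_irrefl _ h1

theorem charZero_residue (V : ValuationSubring K)
    (hV : ∀ n : ℕ, n ≠ 0 → V.valuation (n : K) = 1) :
    CharZero (IsLocalRing.ResidueField V) := by
  refine ⟨fun a b hab => ?_⟩
  by_contra hne
  rcases lt_or_gt_of_ne hne with h | h
  · apply residue_natCast_ne_zero V hV (n := b - a) (by omega)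
    have hab' : (a : IsLocalRing.ResidueField V) = (b : IsLocalRing.ResidueField V) := hab
    rw [Nat.cast_sub h.le, hab', sub_self]
  · apply residue_natCast_ne_zero V hV (n := a - b) (by omega)
    have hab' : (a : IsLocalRing.ResidueField V) = (b : IsLocalRing.ResidueField V) := hab
    rw [Nat.cast_sub h.le, hab', sub_self]

theorem residue_primitive (V : ValuationSubring K)
    (hV : ∀ n : ℕ, n ≠ 0 → V.valuation (n : K) = 1) {om : K} (hom : IsPrimitiveRoot om p)
    {z : V} (hz : (z : K) = om) : IsPrimitiveRoot (IsLocalRing.residue V z) p := by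
  have hzp : z ^ p = 1 := by
    apply Subtype.ext
    simpa [hz] using hom.pow_eq_one
  have h1 : (IsLocalRing.residue V z) ^ p = 1 := by rw [← map_pow, hzp, map_one]
  have h2 : IsLocalRing.residue V z ≠ 1 := by
    intro h
    have h3 : ∑ i ∈ Finset.range p, z ^ i = 0 := by
      apply Subtype.ext
      have := hom.geom_sum_eq_zero hp.out.one_lt
      push_cast
      simpa [hz] using this
    have h4 := congrArg (IsLocalRing.residue V) h3
    rw [map_sum] at h4
    simp only [map_pow, h, one_pow, Finset.sum_const, Finset.card_range, nsmul_eq_mul,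
      mul_one, map_zero] at h4
    exact residue_natCast_ne_zero V hV hp.out.ne_zero h4
  have h3 := orderOf_eq_prime h1 h2
  have h4 := IsPrimitiveRoot.orderOf (IsLocalRing.residue V z)
  rwa [h3] at h4

/-- Normalisation of a nonzero vector. -/
theorem exists_scale (V : ValuationSubring K) {x : ZMod p → K} (hx : x ≠ 0) :
    ∃ (c : K) (y : ZMod p → V), c ≠ 0 ∧ (∀ k, x k = c * y k) ∧
      (fun k => IsLocalRing.residue V (y k)) ≠ 0 := by
  obtain ⟨k₀, _, hk₀⟩ := Finset.exists_max_image (univ : Finset (ZMod p))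
    (fun k => V.valuation (x k)) Finset.univ_nonempty
  have hk0 : x k₀ ≠ 0 := by
    intro h
    apply hx
    funext k
    have h1 := hk₀ k (Finset.mem_univ k)
    rw [h, map_zero] at h1
    have h2 := le_antisymm h1 zero_le
    simpa using h2
  have hv0 : V.valuation (x k₀) ≠ 0 := by simpa using hk0
  have hy : ∀ k, (x k₀)⁻¹ * x k ∈ V := by
    intro k
    rw [← ValuationSubring.valuation_le_one_iff, map_mul, map_inv₀]
    calc (V.valuation (x k₀))⁻¹ * V.valuation (x k)
        ≤ (V.valuation (x k₀))⁻¹ * V.valuation (x k₀) :=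
          mul_le_mul_right (hk₀ k (Finset.mem_univ k)) _
      _ = 1 := inv_mul_cancel₀ hv0
  refine ⟨x k₀, fun k => ⟨(x k₀)⁻¹ * x k, hy k⟩, hk0, fun k => ?_, ?_⟩
  · rw [← mul_assoc, mul_inv_cancel₀ hk0, one_mul]
  · intro h
    have h1 := congrFun h k₀
    have h2 : (⟨(x k₀)⁻¹ * x k₀, hy k₀⟩ : V) = 1 := by
      apply Subtype.ext
      simp [hk0]
    simp only [h2, map_one, Pi.zero_apply] at h1
    exact one_ne_zero h1

/-- If some overlap is not integral, then, by the classification of leading parts, all overlaps on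
a suitable affine line have the same valuation `> 1`. -/
theorem exists_bad_line (V : ValuationSubring K)
    (hV : ∀ n : ℕ, n ≠ 0 → V.valuation (n : K) = 1) {om : K} (hom : IsPrimitiveRoot om p)
    (hcos : ∀ om' : IsLocalRing.ResidueField V, IsPrimitiveRoot om' p →
      ∀ f g : ZMod p → IsLocalRing.ResidueField V, f ≠ 0 → g ≠ 0 →
      (∀ a b, ov om' f g a b * ov om' f g (-a) (-b) = 0) →
      ∃ a0 b0 c d : ZMod p, (c ≠ 0 ∨ d ≠ 0) ∧ ∀ t, ov om' f g (a0 + t * c) (b0 + t * d) ≠ 0)
    {f g : ZMod p → K} (h : IsSol om f g) {a1 b1 : ZMod p} (hbad : ov om f g a1 b1 ∉ V) :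
    ∃ (M : V.ValueGroup) (a0 b0 c d : ZMod p), 1 < M ∧ (c ≠ 0 ∨ d ≠ 0) ∧
      ∀ t, V.valuation (ov om f g (a0 + t * c) (b0 + t * d)) = M := by
  have hf : f ≠ 0 := by
    rintro rfl
    have := h.1
    simp [ov, ft] at this
  have hg : g ≠ 0 := by
    rintro rfl
    have := h.1
    simp [ov, ft] at this
  obtain ⟨α, f', hα, hf', hfne⟩ := exists_scale V hf
  obtain ⟨β, g', hβ, hg', hgne⟩ := exists_scale V hg
  have homV : om ∈ V := by
    rw [← ValuationSubring.valuation_le_one_iff, val_zeta V hp.out.ne_zero hom.pow_eq_one]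
  set z : V := ⟨om, homV⟩ with hz
  have hzom : (z : K) = om := rfl
  -- the normalised overlaps
  set F : ZMod p → ZMod p → V := fun a b => ∑ r, f' r * g' (r + a) * z ^ (b * r).val with hF
  have hFK : ∀ a b, ov om f g a b = (α * β) * (F a b : K) := by
    intro a b
    unfold ov ft chi
    rw [hF]
    push_cast
    rw [Finset.mul_sum]
    refine Finset.sum_congr rfl fun r _ => ?_
    rw [hf' r, hg' (r + a)]
    ring
  have hFres : ∀ a b, IsLocalRing.residue V (F a b) =
      ov (IsLocalRing.residue V z) (fun k => IsLocalRing.residue V (f' k))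
        (fun k => IsLocalRing.residue V (g' k)) a b := by
    intro a b
    unfold ov ft chi
    rw [hF, map_sum]
    exact Finset.sum_congr rfl fun r _ => by rw [map_mul, map_mul, map_pow]
  have hle : ∀ x : V, V.valuation (x : K) ≤ 1 := fun x => V.valuation_le_one x
  set M : V.ValueGroup := V.valuation (α * β) with hM
  have hM0 : M ≠ 0 := by
    rw [hM]
    simp [hα, hβ]
  have hval : ∀ a b, V.valuation (ov om f g a b) = M * V.valuation (F a b : K) := by
    intro a b
    rw [hFK, map_mul]
  have hM1 : 1 < M := by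
    have h1 : 1 < V.valuation (ov om f g a1 b1) := by
      rw [← not_le, ValuationSubring.valuation_le_one_iff]
      exact hbad
    rw [hval] at h1
    calc 1 < M * V.valuation (F a1 b1 : K) := h1
      _ ≤ M * 1 := mul_le_mul_right (hle _) _
      _ = M := mul_one _
  have hprod : ∀ a b, IsLocalRing.residue V (F a b) * IsLocalRing.residue V (F (-a) (-b)) = 0 := by
    intro a b
    rw [← map_mul, IsLocalRing.residue_eq_zero_iff, ValuationSubring.valuation_lt_one_iff]
    have h1 := val_ov_mul V hV hom.pow_eq_one h a b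
    rw [hval, hval] at h1
    push_cast
    rw [map_mul]
    by_contra hcon
    rw [not_lt] at hcon
    have h2 : M * V.valuation (F a b : K) * (M * V.valuation (F (-a) (-b) : K)) =
        (M * M) * (V.valuation (F a b : K) * V.valuation (F (-a) (-b) : K)) := by
      rw [mul_mul_mul_comm]
    rw [h2] at h1
    have h3 : 1 < M * M := one_lt_mul'' hM1 hM1
    have h4 : 1 < (M * M) * (V.valuation (F a b : K) * V.valuation (F (-a) (-b) : K)) :=
      lt_of_lt_of_le h3 (le_mul_of_one_le_right' hcon)
    rw [h1] at h4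
    exact lt_irrefl _ h4
  obtain ⟨a0, b0, c, d, hcd, hline⟩ := hcos (IsLocalRing.residue V z)
    (residue_primitive V hV hom hzom) _ _ hfne hgne (by
      intro a b
      rw [← hFres, ← hFres]
      exact hprod a b)
  refine ⟨M, a0, b0, c, d, hM1, hcd, fun t => ?_⟩
  have h1 := hline t
  rw [← hFres, ne_eq, IsLocalRing.residue_eq_zero_iff, ValuationSubring.valuation_lt_one_iff,
    not_lt] at h1
  rw [hval, le_antisymm (hle _) h1, mul_one]

/-- Clifford moves make the bad line vertical. -/
theorem exists_vertical (hp2 : p ≠ 2) (V : ValuationSubring K) {om : K}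
    (hom : IsPrimitiveRoot om p) (hpK : (p : K) ≠ 0)
    {f g : ZMod p → K} (h : IsSol om f g) {M : V.ValueGroup} {a0 b0 c d : ZMod p}
    (hcd : c ≠ 0 ∨ d ≠ 0)
    (hline : ∀ t, V.valuation (ov om f g (a0 + t * c) (b0 + t * d)) = M) :
    ∃ (f' g' : ZMod p → K) (a' : ZMod p), IsSol om f' g' ∧
      ∀ b, V.valuation (ov om f' g' a' b) = M := by
  by_cases hc : c = 0
  · have hd : d ≠ 0 := by
      rcases hcd with h | h
      · exact absurd hc h
      · exact h
    refine ⟨f, g, a0, h, fun b => ?_⟩
    have h1 := hline ((b - b0) / d)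
    rw [hc, mul_zero, add_zero, div_mul_cancel₀ _ hd] at h1
    rw [← h1]
    congr 2; ring
  · have h2 : (2 : ZMod p) ≠ 0 := by
      intro h0
      have h1 : ((2 : ℕ) : ZMod p) = 0 := by exact_mod_cast h0
      rw [ZMod.natCast_eq_zero_iff] at h1
      exact hp2 ((Nat.prime_dvd_prime_iff_eq hp.out Nat.prime_two).mp h1)
    set δ : ZMod p := -d / (2 * c) with hδ
    have hδc : 2 * δ * c = -d := by
      rw [hδ]; field_simp
    set f1 : ZMod p → K := fun r => f r * chi om (δ * r ^ 2) with hf1
    set g1 : ZMod p → K := fun r => g r * chi om (-(δ * r ^ 2)) with hg1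
    have hs1 : IsSol om f1 g1 := isSol_chirp hom.pow_eq_one h δ
    have hv1 : ∀ a, V.valuation (ov om f1 g1 a (b0 + 2 * δ * a0)) = M := by
      intro a
      rw [hf1, hg1, ov_chirp hom.pow_eq_one, map_mul, val_chi V hom.pow_eq_one, one_mul]
      have h3 := hline ((a - a0) / c)
      rw [← h3]
      have e1 : a0 + (a - a0) / c * c = a := by
        rw [div_mul_cancel₀ _ hc]; ring
      have e2 : b0 + (a - a0) / c * d = b0 + 2 * δ * a0 - 2 * δ * a := by
        have : (a - a0) / c * d = -(2 * δ * (a - a0)) := by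
          have h4 : d = -(2 * δ * c) := by rw [hδc, neg_neg]
          rw [h4]; field_simp
        rw [this]; ring
      rw [e1, e2]
    refine ⟨_, _, -(b0 + 2 * δ * a0), isSol_fourier hom hpK hs1, fun b => ?_⟩
    rw [ov_fourier hom hpK, map_mul, val_chi V hom.pow_eq_one, one_mul, neg_neg]
    exact hv1 b

end Pool.Agent.SicFin
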